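import Pool.Agent.IWar.DistN

/-!
# RWar.DistR: the values of the generic letters are not too close to integers

PROOF. For one coefficient: `IWar.ae_dist` with `k + 1` instead of `k`, `d = 1` and
`g x = - x^(k+1)`: `ff (k+1) 1 g t x = x^(k+1) - x^(k+1) + t_0 x^k = t_0 x^k`. So for almost every `t : Fin 1 → ℝ`,
hence (measure preserving equivalence `MeasurableEquiv.funUnique`) for almost every real `a`, eventually
in `r`, for all `1 ≤ y ≤ 16 P`, `|a y^k - n| ≥ P^(-9/8)`. For `Fin T`: every coordinate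
(`MeasureTheory.Measure.quasiMeasurePreserving_eval`, `ae_all_iff`), and `Fin T` is finite
(`Filter.eventually_all`).
-/

namespace RWar

open Filter Topology MeasureTheory MWg HWar IWar

private theorem DistR_one (k : ℕ) :
    ∀ᵐ a : ℝ, ∀ᶠ r : ℕ in atTop, ∀ y : ℕ, 1 ≤ y → (y : ℝ) ≤ XX r →
      ∀ n : ℤ, (XX r) ^ (-(9 : ℝ) / 8) ≤ |a * (y : ℝ) ^ k - n| := by
  have h1 := ae_dist (k := k + 1) (d := 1) le_rfl (fun x => -(x : ℝ) ^ (k + 1))
  have hmp := (volume_preserving_funUnique (Fin 1) ℝ).symm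
  have h2 := hmp.quasiMeasurePreserving.ae h1
  filter_upwards [h2] with a ha
  filter_upwards [ha] with r hr y hy1 hy2 n
  have hX : (0 : ℝ) < XX r := by
    unfold XX
    positivity
  have h3 := hr y hy1 (by linarith) n
  have h4 : ff (k + 1) 1 (fun x => -(x : ℝ) ^ (k + 1))
      ((MeasurableEquiv.funUnique (Fin 1) ℝ).symm a) y = a * (y : ℝ) ^ k := by
    unfold ff
    rw [Fin.sum_univ_one]
    have h5 : (MeasurableEquiv.funUnique (Fin 1) ℝ).symm a 0 = a := rfl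
    rw [h5]
    simp
  rw [h4] at h3
  exact h3

theorem ae_distR (k T : ℕ) :
    ∀ᵐ α : Fin T → ℝ, ∀ᶠ r : ℕ in atTop, ∀ (j : Fin T) (y : ℕ), 1 ≤ y → (y : ℝ) ≤ XX r →
      ∀ n : ℤ, (XX r) ^ (-(9 : ℝ) / 8) ≤ |α j * (y : ℝ) ^ k - n| := by
  have h1 : ∀ᵐ α : Fin T → ℝ, ∀ j : Fin T, ∀ᶠ r : ℕ in atTop, ∀ y : ℕ, 1 ≤ y → (y : ℝ) ≤ XX r →
      ∀ n : ℤ, (XX r) ^ (-(9 : ℝ) / 8) ≤ |α j * (y : ℝ) ^ k - n| := by
    rw [ae_all_iff]
    intro j
    exact (Measure.quasiMeasurePreserving_eval (fun _ : Fin T => (volume : Measure ℝ)) j).ae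
      (DistR_one k)
  filter_upwards [h1] with α hα
  have h2 := Filter.eventually_all.mpr hα
  filter_upwards [h2] with r hr j y hy1 hy2 n
  exact hr j y hy1 hy2 n

end RWar
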