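import Pool.Agent.RWar.Defs

/-!
# RWar.BadJ: few variables have comparable levels

PROOF. Fix `l ≠ l'`. If `j ≥ q` and `|(h l + 7 lev l j) - (h l' + 7 lev l' j)| ≤ 3`, then the integer
`c = lev l j - lev l' j` satisfies `|h l - h l' + 7c| ≤ 3`, so it has at most one value `c = c(l, l')`
(independent of `j`), and `l j - l' j ≡ c (mod G)` as `lev l j = (l j) % G`. Since `G` is prime and
`0 < |l - l'| < G`, this determines `j` modulo `G`, so there are at most `T/G + 1` such `j < T`. There are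
at most `q²` pairs.
-/

namespace RWar

/-- The variables for which two of the numbers `h l + 7 lev l j` are close. -/
def badJ (G q T : ℕ) (h : Fin q → ℕ) : Finset (Fin T) :=
  Finset.univ.filter fun j => q ≤ (j : ℕ) ∧ ∃ l l' : Fin q, l ≠ l' ∧
    h l + 7 * lev G q l j < h l' + 7 * lev G q l' j + 4 ∧
    h l' + 7 * lev G q l' j < h l + 7 * lev G q l j + 4

/-- The variables which are bad for one pair `l, l'`. -/
private def badP (G q T : ℕ) (h : Fin q → ℕ) (l l' : Fin q) : Finset (Fin T) :=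
  Finset.univ.filter fun j => q ≤ (j : ℕ) ∧
    h l + 7 * lev G q l j < h l' + 7 * lev G q l' j + 4 ∧
    h l' + 7 * lev G q l' j < h l + 7 * lev G q l j + 4

private lemma badP_mod {G q : ℕ} (hG : G.Prime) (hqG : q ≤ G) (T : ℕ) (h : Fin q → ℕ)
    {l l' : Fin q} (hl : l ≠ l') {j1 j2 : Fin T} (h1 : j1 ∈ badP G q T h l l')
    (h2 : j2 ∈ badP G q T h l l') : (j1 : ℕ) % G = (j2 : ℕ) % G := by
  simp only [badP, Finset.mem_filter, Finset.mem_univ, true_and] at h1 h2
  obtain ⟨q1, a1, b1⟩ := h1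
  obtain ⟨q2, a2, b2⟩ := h2
  have e1 : ∀ m : Fin q, lev G q m j1 = ((m : ℕ) * j1) % G := by
    intro m
    unfold lev
    rw [if_neg (by omega)]
  have e2 : ∀ m : Fin q, lev G q m j2 = ((m : ℕ) * j2) % G := by
    intro m
    unfold lev
    rw [if_neg (by omega)]
  have key : lev G q l j1 + lev G q l' j2 = lev G q l j2 + lev G q l' j1 := by omega
  rw [e1, e1, e2, e2] at key
  have hF : Fact G.Prime := ⟨hG⟩
  have kz : (((((l : ℕ) * j1) % G : ℕ) : ZMod G)) + ((((l' : ℕ) * j2) % G : ℕ) : ZMod G) =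
      ((((l : ℕ) * j2) % G : ℕ) : ZMod G) + ((((l' : ℕ) * j1) % G : ℕ) : ZMod G) := by
    exact_mod_cast congrArg (fun x : ℕ => (x : ZMod G)) key
  simp only [ZMod.natCast_mod, Nat.cast_mul] at kz
  have hz : (((l : ℕ) : ZMod G) - ((l' : ℕ) : ZMod G)) * (((j1 : ℕ) : ZMod G) - ((j2 : ℕ) : ZMod G)) = 0 := by
    linear_combination kz
  have hne : ((l : ℕ) : ZMod G) - ((l' : ℕ) : ZMod G) ≠ 0 := by
    intro h0
    have h3 : ((l : ℕ) : ZMod G) = ((l' : ℕ) : ZMod G) := sub_eq_zero.mp h0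
    rw [ZMod.natCast_eq_natCast_iff'] at h3
    rw [Nat.mod_eq_of_lt (lt_of_lt_of_le l.2 hqG), Nat.mod_eq_of_lt (lt_of_lt_of_le l'.2 hqG)] at h3
    exact hl (Fin.ext h3)
  have h4 := (mul_eq_zero.mp hz).resolve_left hne
  have h5 : ((j1 : ℕ) : ZMod G) = ((j2 : ℕ) : ZMod G) := sub_eq_zero.mp h4
  rwa [ZMod.natCast_eq_natCast_iff'] at h5

private lemma card_badP {G q : ℕ} (hG : G.Prime) (hqG : q ≤ G) (T : ℕ) (h : Fin q → ℕ)
    {l l' : Fin q} (hl : l ≠ l') : (badP G q T h l l').card ≤ T / G + 1 := by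
  have h1 : (badP G q T h l l').card ≤ (Finset.range (T / G + 1)).card := by
    refine Finset.card_le_card_of_injOn (fun j => (j : ℕ) / G) ?_ ?_
    · intro j _
      have : (j : ℕ) / G ≤ T / G := Nat.div_le_div_right (le_of_lt j.2)
      simp only [Finset.coe_range, Set.mem_Iio]
      omega
    · intro j1 h1 j2 h2 h12
      have hm := badP_mod hG hqG T h hl (Finset.mem_coe.mp h1) (Finset.mem_coe.mp h2)
      have h12' : (j1 : ℕ) / G = (j2 : ℕ) / G := h12
      apply Fin.ext
      rw [← Nat.div_add_mod (j1 : ℕ) G, ← Nat.div_add_mod (j2 : ℕ) G, hm, h12']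
  simpa using h1

theorem card_badJ {G q : ℕ} (hG : G.Prime) (hqG : q ≤ G) (T : ℕ) (h : Fin q → ℕ) :
    ((badJ G q T h).card : ℝ) ≤ (q : ℝ) ^ 2 * ((T : ℝ) / G + 1) := by
  classical
  have hsub : badJ G q T h ⊆ (Finset.univ.filter fun p : Fin q × Fin q => p.1 ≠ p.2).biUnion
      fun p => badP G q T h p.1 p.2 := by
    intro j hj
    simp only [badJ, Finset.mem_filter, Finset.mem_univ, true_and] at hj
    obtain ⟨hq, l, l', hl, a, b⟩ := hj
    rw [Finset.mem_biUnion]
    refine ⟨(l, l'), by simp [hl], ?_⟩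
    simp only [badP, Finset.mem_filter, Finset.mem_univ, true_and]
    exact ⟨hq, a, b⟩
  have h1 : (badJ G q T h).card ≤ (q * q) * (T / G + 1) := by
    calc (badJ G q T h).card ≤ _ := Finset.card_le_card hsub
      _ ≤ ∑ p ∈ (Finset.univ.filter fun p : Fin q × Fin q => p.1 ≠ p.2),
          (badP G q T h p.1 p.2).card := Finset.card_biUnion_le
      _ ≤ ∑ _p ∈ (Finset.univ.filter fun p : Fin q × Fin q => p.1 ≠ p.2), (T / G + 1) := by
          refine Finset.sum_le_sum fun p hp => ?_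
          simp only [Finset.mem_filter, Finset.mem_univ, true_and] at hp
          exact card_badP hG hqG T h hp
      _ = (Finset.univ.filter fun p : Fin q × Fin q => p.1 ≠ p.2).card * (T / G + 1) := by
          rw [Finset.sum_const, smul_eq_mul]
      _ ≤ (q * q) * (T / G + 1) := by
          refine Nat.mul_le_mul_right _ ?_
          calc (Finset.univ.filter fun p : Fin q × Fin q => p.1 ≠ p.2).card
              ≤ (Finset.univ : Finset (Fin q × Fin q)).card := Finset.card_filter_le _ _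
            _ = q * q := by simp
  have h2 : ((T / G : ℕ) : ℝ) ≤ (T : ℝ) / G := Nat.cast_div_le
  calc ((badJ G q T h).card : ℝ) ≤ (((q * q) * (T / G + 1) : ℕ) : ℝ) := by exact_mod_cast h1
    _ = (q : ℝ) ^ 2 * (((T / G : ℕ) : ℝ) + 1) := by push_cast; ring
    _ ≤ (q : ℝ) ^ 2 * ((T : ℝ) / G + 1) := by
        refine mul_le_mul_of_nonneg_left (by linarith) (by positivity)

end RWar
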