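import Pool.Agent.RWar.Defs
import Pool.Agent.HWar.M2Cont
import Pool.Agent.HWar.ChLet
import Pool.Agent.HWar.BkSize
import Pool.Agent.MWg.Tools

/-!
# RWar.Basic: sizes, continuity, measurability

PROOF. `QK_pow`: `Real.rpow_natCast`, `Real.rpow_mul`. `QK_tendsto`: `XX r → ∞`, exponent `1/k > 0`.
`lev_le`: `lev ≤ G` (in fact `< G` or `≤ 1`; `G ≥ 2` prime); `7 lev + 1 < k` by `ParR.hu`, so all the
exponents `k - 1 - 7 lev` are `≥ 1`. `mem_blR`: `Nat.lt_of_floor_lt`, `Nat.floor_le`. Sizes: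
`⌊2y⌋₊ - ⌊y⌋₊ ≥ y - 1 ≥ y/2` for `y ≥ 2`, and `≤ 2y`. `card_BR`: `Fintype.card_piFinset`,
`#blR ≥ (1/2) Q^(k-1-7i)` and `i ≤ G`; the exponent of `Q` for one family is
`∑_j (k-1-7 lev) ≥ T (k - 1 - 7G)`. Compare `Pool/Agent/HWar/BkSize.lean`, `M2Cont.lean`.
`mb_real`: for `D = 0` the sum over `Icc (-0) 0 = {0}` has one term, `LL c 0 f θ x = ee (θ f x)`, and the
product of the `ee` is `ee` of the sum (`HWar.ee_add`).
`mb_cont`: dominated convergence as `HWar.m2_cont` (`am k α j y` is continuous in `α`).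
-/

namespace RWar

open Filter Topology MeasureTheory MWg HWar IWar

private theorem Basic_XX_pos (r : ℕ) : 0 < XX r := by
  unfold XX
  positivity

theorem QK_pow {k : ℕ} (hk : 1 ≤ k) (r : ℕ) : QK k r ^ k = XX r := by
  have hk0 : (k : ℝ) ≠ 0 := by
    have : k ≠ 0 := by omega
    exact_mod_cast this
  unfold QK
  rw [← Real.rpow_natCast, ← Real.rpow_mul (Basic_XX_pos r).le, one_div, inv_mul_cancel₀ hk0,
    Real.rpow_one]

theorem QK_one_le {k : ℕ} (r : ℕ) : 1 ≤ QK k r := by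
  unfold QK
  exact Real.one_le_rpow (HWar.XX_one r) (by positivity)

theorem QK_tendsto {k : ℕ} (hk : 1 ≤ k) : Tendsto (QK k) atTop atTop := by
  have hk0 : (0 : ℝ) < (k : ℝ) := by
    have : 0 < k := by omega
    exact_mod_cast this
  exact (tendsto_rpow_atTop (show (0 : ℝ) < 1 / (k : ℝ) by positivity)).comp MWg.XX_tendsto

private theorem Basic_QK_nonneg (k r : ℕ) : 0 ≤ QK k r := zero_le_one.trans (QK_one_le r)

theorem mem_blR {k r i x : ℕ} (hx : x ∈ blR k r i) :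
    QK k r ^ (k - 1 - 7 * i) < (x : ℝ) ∧ (x : ℝ) ≤ 2 * QK k r ^ (k - 1 - 7 * i) := by
  unfold blR at hx
  obtain ⟨h1, h2⟩ := Finset.mem_Ioc.1 hx
  have hy : 0 ≤ QK k r ^ (k - 1 - 7 * i) := pow_nonneg (Basic_QK_nonneg k r) _
  refine ⟨Nat.lt_of_floor_lt h1, ?_⟩
  exact (Nat.le_floor_iff (by positivity)).1 h2

private theorem Basic_blR_ge {k r i : ℕ} (hy : 2 ≤ QK k r ^ (k - 1 - 7 * i)) :
    QK k r ^ (k - 1 - 7 * i) / 2 ≤ ((blR k r i).card : ℝ) := by
  unfold blR
  set y := QK k r ^ (k - 1 - 7 * i) with hydef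
  rw [Nat.card_Ioc, Nat.cast_sub (Nat.floor_le_floor (by linarith))]
  have h1 := Nat.lt_floor_add_one (2 * y)
  have h2 := Nat.floor_le (show (0 : ℝ) ≤ y by linarith)
  linarith

private theorem Basic_blR_le {k r i : ℕ} :
    ((blR k r i).card : ℝ) ≤ 2 * QK k r ^ (k - 1 - 7 * i) := by
  unfold blR
  have hy : 0 ≤ QK k r ^ (k - 1 - 7 * i) := pow_nonneg (Basic_QK_nonneg k r) _
  rw [Nat.card_Ioc]
  have h1 : ((⌊2 * QK k r ^ (k - 1 - 7 * i)⌋₊ -
      ⌊QK k r ^ (k - 1 - 7 * i)⌋₊ : ℕ) : ℝ) ≤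
      ((⌊2 * QK k r ^ (k - 1 - 7 * i)⌋₊ : ℕ) : ℝ) := by
    exact_mod_cast Nat.sub_le _ _
  exact h1.trans (Nat.floor_le (by positivity))

variable {k T : ℕ}

theorem lev_le (p : ParR k T) (l j : ℕ) : lev p.G p.q l j ≤ p.G := by
  have hG := p.hG.two_le
  unfold lev
  split_ifs
  · omega
  · omega
  · exact (Nat.mod_lt _ (by omega)).le

private theorem Basic_exp (p : ParR k T) (l j : ℕ) :
    1 ≤ k - 1 - 7 * lev p.G p.q l j ∧ k - 1 - 7 * p.G ≤ k - 1 - 7 * lev p.G p.q l j ∧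
      k - 1 - 7 * lev p.G p.q l j + 1 ≤ k ∧ 1 ≤ k - 1 - 7 * p.G := by
  have h1 := lev_le p l j
  have h2 := p.hu
  have h3 := p.hk
  refine ⟨?_, ?_, ?_, ?_⟩ <;> omega

private theorem Basic_two_le (p : ParR k T) {r : ℕ} (hr : 2 ≤ QK k r) (l j : ℕ) :
    2 * QK k r ^ (k - 1 - 7 * lev p.G p.q l j) ≤ XX r := by
  have h0 := Basic_QK_nonneg k r
  obtain ⟨-, -, h3, -⟩ := Basic_exp p l j
  have hk := p.hk
  calc 2 * QK k r ^ (k - 1 - 7 * lev p.G p.q l j)
      ≤ QK k r * QK k r ^ (k - 1 - 7 * lev p.G p.q l j) :=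
        mul_le_mul_of_nonneg_right hr (pow_nonneg h0 _)
    _ = QK k r ^ (k - 1 - 7 * lev p.G p.q l j + 1) := by rw [pow_succ]; ring
    _ ≤ QK k r ^ k := pow_le_pow_right₀ (QK_one_le r) h3
    _ = XX r := QK_pow (by omega) r

/-- Generic letters are positive and at most `P`. -/
theorem letter_le (p : ParR k T) : ∀ᶠ r : ℕ in atTop, ∀ (l : ℕ) (b : Fin T → ℕ), b ∈ BR p l r →
    ∀ j, 1 ≤ b j ∧ (b j : ℝ) ≤ XX r := by
  have hk := p.hk
  filter_upwards [(QK_tendsto (k := k) (by omega)).eventually_ge_atTop 2] with r hr l b hb j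
  have hbj : b j ∈ blR k r (lev p.G p.q l j) := by
    unfold BR at hb
    exact Fintype.mem_piFinset.1 hb j
  obtain ⟨h1, h2⟩ := mem_blR hbj
  refine ⟨?_, h2.trans (Basic_two_le p hr l j)⟩
  have h3 : (0 : ℝ) < (b j : ℝ) := lt_of_le_of_lt (pow_nonneg (Basic_QK_nonneg k r) _) h1
  have h4 : 0 < b j := by exact_mod_cast h3
  omega

private theorem Basic_card (p : ParR k T) (l r : ℕ) : ((BR p l r).card : ℝ) =
    ∏ j : Fin T, ((blR k r (lev p.G p.q l j)).card : ℝ) := by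
  unfold BR
  rw [Fintype.card_piFinset]
  push_cast
  rfl

theorem card_BR (p : ParR k T) : ∃ c : ℝ, 0 < c ∧ ∀ᶠ r : ℕ in atTop, ∀ l : ℕ,
    c * (XX r) ^ ((T : ℝ) * (1 - (1 + 7 * (p.G : ℝ)) / k)) ≤ ((BR p l r).card : ℝ) ∧
      ((BR p l r).card : ℝ) ≤ (XX r) ^ T := by
  have hk := p.hk
  have hkR : (0 : ℝ) < (k : ℝ) := by
    have : 0 < k := by omega
    exact_mod_cast this
  refine ⟨(1 / 2) ^ T, by positivity, ?_⟩
  filter_upwards [(QK_tendsto (k := k) (by omega)).eventually_ge_atTop 2] with r hr l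
  have h1 := QK_one_le (k := k) r
  have h0 := Basic_QK_nonneg k r
  have e1 : (XX r) ^ ((T : ℝ) * (1 - (1 + 7 * (p.G : ℝ)) / k)) =
      (QK k r ^ (k - 1 - 7 * p.G)) ^ T := by
    have hGk : 1 + 7 * p.G ≤ k := by
      have := p.hu
      omega
    rw [← pow_mul, ← Real.rpow_natCast (QK k r) ((k - 1 - 7 * p.G) * T)]
    unfold QK
    rw [← Real.rpow_mul (Basic_XX_pos r).le]
    congr 1
    have e2 : k - 1 - 7 * p.G = k - (1 + 7 * p.G) := by omega
    rw [e2]
    push_cast [Nat.cast_sub hGk]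
    field_simp
  rw [Basic_card]
  constructor
  · rw [e1]
    have e3 : (1 / 2 : ℝ) ^ T * (QK k r ^ (k - 1 - 7 * p.G)) ^ T =
        ∏ _j : Fin T, (1 / 2 * QK k r ^ (k - 1 - 7 * p.G)) := by
      rw [Finset.prod_const, Finset.card_univ, Fintype.card_fin, mul_pow]
    rw [e3]
    refine Finset.prod_le_prod (fun j _ => by positivity) fun j _ => ?_
    obtain ⟨a1, a2, -, -⟩ := Basic_exp p l j
    have a3 : QK k r ^ (k - 1 - 7 * p.G) ≤ QK k r ^ (k - 1 - 7 * lev p.G p.q l j) :=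
      pow_le_pow_right₀ h1 a2
    have a4 : 2 ≤ QK k r ^ (k - 1 - 7 * lev p.G p.q l j) := by
      calc (2 : ℝ) ≤ QK k r := hr
        _ = QK k r ^ 1 := (pow_one _).symm
        _ ≤ _ := pow_le_pow_right₀ h1 a1
    refine le_trans ?_ (Basic_blR_ge a4)
    linarith
  · have hpow : (XX r) ^ T = ∏ _j : Fin T, XX r := by
      rw [Finset.prod_const, Finset.card_univ, Fintype.card_fin]
    rw [hpow]
    refine Finset.prod_le_prod (fun p _ => Nat.cast_nonneg _) fun j _ => ?_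
    exact Basic_blR_le.trans (Basic_two_le p hr l j)

theorem sr_pos (p : ParR k T) : ∀ᶠ r : ℕ in atTop, ∀ l : ℕ, 0 < sr p l r ∧
    0 < ((ZR p r).card : ℝ) ∧ 0 < ((BR p l r).card : ℝ) := by
  have hk := p.hk
  obtain ⟨c, hc, hB⟩ := card_BR p
  have hJ : ∃ P0 : ℝ, ∀ P, P0 ≤ P → (J0 P).Nonempty :=
    ⟨0, fun P _ => ⟨0, by simp [J0]⟩⟩
  obtain ⟨P1, hP1⟩ := tot_pos (n := k) (by omega) hJ p.n1
  obtain ⟨P2, hP2⟩ := tot_pos (n := k) (by omega) hJ p.n2
  filter_upwards [hB, MWg.XX_tendsto.eventually_ge_atTop (max (max P1 P2) 16)] with r hr hXr l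
  have hX0 := Basic_XX_pos r
  have h1 : 0 < ((BR p l r).card : ℝ) := by
    refine lt_of_lt_of_le ?_ (hr l).1
    positivity
  have h2 : 0 < ((ZR p r).card : ℝ) := by
    unfold ZR
    rw [Finset.card_product, Finset.card_product]
    push_cast
    have a1 : 0 < ((chain k J0 p.n1 (XX r)).card : ℝ) :=
      hP1 _ (((le_max_left _ _).trans (le_max_left _ _)).trans hXr)
    have a2 : 0 < ((chain k J0 p.n2 (XX r)).card : ℝ) :=
      hP2 _ (((le_max_right _ _).trans (le_max_left _ _)).trans hXr)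
    have a3 : 0 < ((J1 (XX r)).card : ℝ) := by
      have h16 : 16 ≤ XX r := (le_max_right _ _).trans hXr
      have := card_J1_ge h16
      linarith
    positivity
  refine ⟨?_, h2, h1⟩
  unfold sr
  positivity

theorem FP_cont (p : ParR k T) (r : ℕ) : Continuous (FP p r) :=
  continuous_finsetSum _ fun _ _ => ee_cont.comp (continuous_id.mul continuous_const)

theorem FG_cont (p : ParR k T) (l r : ℕ) (f : Fin T → ℕ → ℝ) : Continuous (FG p l r f) :=
  continuous_finsetSum _ fun _ _ => ee_cont.comp (continuous_id.mul continuous_const)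

theorem FP_norm (p : ParR k T) (r : ℕ) (θ : ℝ) : ‖FP p r θ‖ ≤ ((ZR p r).card : ℝ) := by
  refine (norm_sum_le _ _).trans ?_
  simp [HWar.ee_norm]

theorem FG_norm (p : ParR k T) (l r : ℕ) (f : Fin T → ℕ → ℝ) (θ : ℝ) :
    ‖FG p l r f θ‖ ≤ ((BR p l r).card : ℝ) := by
  refine (norm_sum_le _ _).trans ?_
  simp [HWar.ee_norm]

private theorem Basic_ee_zero : ee 0 = 1 := by
  unfold ee
  simp

private theorem Basic_ee_sum {ι : Type*} (s : Finset ι) (g : ι → ℝ) :
    ee (∑ i ∈ s, g i) = ∏ i ∈ s, ee (g i) := by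
  classical
  induction s using Finset.induction_on with
  | empty => simp [Basic_ee_zero]
  | insert a s ha ih => rw [Finset.sum_insert ha, Finset.prod_insert ha, HWar.ee_add, ih]

/-- With the mode `0` only, `MB` is `MR`. -/
theorem mb_real (p : ParR k T) (S : Set ℝ) (K : ℝ → ℂ) (l r : ℕ) (f : Fin T → ℕ → ℝ) (Y : ℝ) :
    MB p S K (fun _ _ => 1) 0 l r f Y = MR p S K l r f Y := by
  have hL : ∀ (g : ℕ → ℝ) (θ : ℝ) (x : ℕ), LL (fun _ _ => 1) 0 g θ x = ee (θ * g x) := by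
    intro g θ x
    unfold LL
    simp [Basic_ee_zero]
  unfold MB MR
  congr 1
  funext θ
  congr 1
  unfold FG
  refine Finset.sum_congr rfl fun b _ => ?_
  simp only [hL]
  rw [← Basic_ee_sum, Finset.mul_sum]

/-- Continuity in the coefficients and the target. -/
theorem mb_cont (p : ParR k T) {S : Set ℝ} (hS : MeasurableSet S) {R : ℝ}
    (hSR : ∀ θ ∈ S, |θ| ≤ R) {K : ℝ → ℂ} (hK : Measurable K) {CK : ℝ} (hCK : ∀ θ, ‖K θ‖ ≤ CK)
    {c : ℤ → ℝ → ℂ} (hc : ∀ m, Continuous (c m)) (D l r : ℕ) :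
    Continuous fun x : (Fin T → ℝ) × ℝ => MB p S K c D l r (am k x.1) x.2 := by
  have hsub : S ⊆ Set.Icc (-R) R := fun θ hθ => by
    rw [Set.mem_Icc, ← abs_le]
    exact hSR θ hθ
  have hbd : ∀ m : ℤ, ∃ C : ℝ, ∀ θ ∈ Set.Icc (-R) R, ‖c m θ‖ ≤ C := fun m =>
    isCompact_Icc.exists_bound_of_continuousOn (hc m).continuousOn
  choose C hC using hbd
  have hLL : ∀ (g : ℕ → ℝ) (θ : ℝ) (x : ℕ), θ ∈ S →
      ‖LL c D g θ x‖ ≤ ∑ m ∈ Finset.Icc (-(D : ℤ)) D, C m := by
    intro g θ x hθ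
    unfold LL
    rw [norm_mul, HWar.ee_norm, one_mul]
    refine (norm_sum_le _ _).trans (Finset.sum_le_sum fun m _ => ?_)
    rw [norm_mul, HWar.ee_norm, mul_one]
    exact hC m θ (hsub hθ)
  have hLc : ∀ (g : ℕ → ℝ) (x : ℕ), Continuous fun θ => LL c D g θ x := by
    intro g x
    unfold LL
    refine (ee_cont.comp (continuous_id.mul continuous_const)).mul ?_
    exact continuous_finsetSum _ fun m _ => (hc m).mul continuous_const
  unfold MB
  refine continuous_of_dominated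
    (bound := fun _ => CK * ((ZR p r).card : ℝ) *
      ∑ _b ∈ BR p l r, ∏ _j : Fin T, ∑ m ∈ Finset.Icc (-(D : ℤ)) D, C m) ?_ ?_ ?_ ?_
  · intro x
    refine AEStronglyMeasurable.mul ?_ ?_
    · refine AEStronglyMeasurable.mul ?_ (FP_cont p r).aestronglyMeasurable
      refine AEStronglyMeasurable.mul hK.aestronglyMeasurable ?_
      exact (ee_cont.comp (continuous_id.mul continuous_const).neg).aestronglyMeasurable
    · refine Continuous.aestronglyMeasurable ?_
      exact continuous_finsetSum _ fun b _ => continuous_finsetProd _ fun j _ => hLc _ _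
  · intro x
    rw [ae_restrict_iff' hS]
    refine Filter.Eventually.of_forall fun θ hθ => ?_
    rw [norm_mul, norm_mul, norm_mul, HWar.ee_norm, mul_one]
    have h0 : 0 ≤ CK := (norm_nonneg _).trans (hCK θ)
    refine mul_le_mul (mul_le_mul (hCK θ) (FP_norm p r θ) (norm_nonneg _) h0) ?_
      (norm_nonneg _) (mul_nonneg h0 (Nat.cast_nonneg _))
    refine (norm_sum_le _ _).trans (Finset.sum_le_sum fun b _ => ?_)
    rw [norm_prod]
    exact Finset.prod_le_prod (fun j _ => norm_nonneg _) fun j _ => hLL _ θ _ hθ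
  · have : IsFiniteMeasure (volume.restrict S) := ⟨by
      rw [Measure.restrict_apply_univ]
      exact (measure_mono hsub).trans_lt measure_Icc_lt_top⟩
    exact integrable_const _
  · refine Filter.Eventually.of_forall fun θ => ?_
    have ha : ∀ (j : Fin T) (y : ℕ), Continuous fun x : (Fin T → ℝ) × ℝ => am k x.1 j y := by
      intro j y
      unfold am
      exact ((continuous_apply j).comp continuous_fst).mul continuous_const
    have hL2 : ∀ (j : Fin T) (y : ℕ),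
        Continuous fun x : (Fin T → ℝ) × ℝ => LL c D (am k x.1 j) θ y := by
      intro j y
      unfold LL
      refine (ee_cont.comp (continuous_const.mul (ha j y))).mul ?_
      refine continuous_finsetSum _ fun m _ => continuous_const.mul ?_
      exact ee_cont.comp (continuous_const.mul (ha j y))
    refine ((continuous_const.mul (ee_cont.comp (continuous_const.mul continuous_snd).neg)).mul
      continuous_const).mul ?_
    exact continuous_finsetSum _ fun b _ => continuous_finsetProd _ fun j _ => hL2 j _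

end RWar
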