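import Mathlib

/-!
# RWar.CountG: uniqueness of the letters, if one term dominates

PROOF. Suppose `y ≠ y'`, `D = {l : y_l ≠ y'_l}`, and let `l0 ∈ D` have the largest `|ω_l| X_l^(k-1)`
(`Finset.exists_max_image`). For `l ∈ D`, `l ≠ l0`, the second alternative of `hdom l0 l` is impossible
(`q |ω_l0| (2X_l0)^k > |ω_l0| X_l0^(k-1) ≥ |ω_l| X_l^(k-1)`, as `|ω_l0| X_l0^(k-1) > 0`: it is `≥ E`; if it is
`0`, then `ω_l0 = 0`, all `ω_l = 0` on `D`... assume `hω : ω_l ≠ 0`), so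
`q |ω_l| (2X_l)^k ≤ |ω_l0| X_l0^(k-1)`. Now `|∑_l ω_l (y_l^k - y'_l^k)| ≤ 2E`, hence
`|ω_l0| |y_l0^k - y'_l0^k| ≤ 2E + ∑_{l ∈ D, l ≠ l0} |ω_l| (2X_l)^k ≤ 2E + |ω_l0| X_l0^(k-1)
≤ 3 |ω_l0| X_l0^(k-1)`, but `|y^k - y'^k| ≥ k X^(k-1)` for different naturals `> X` (Bernoulli or
`sub_mul`/geometric sum), and `k ≥ 5`.
-/

namespace RWar

private theorem countG_bern (n : ℕ) {a : ℝ} (ha : 0 ≤ a) :
    a ^ (n + 1) + (n + 1 : ℝ) * a ^ n ≤ (a + 1) ^ (n + 1) := by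
  induction n with
  | zero => simp
  | succ n ih =>
    have h1 : (a + 1) ^ (n + 2) = (a + 1) * (a + 1) ^ (n + 1) := by ring
    have h2 : (a + 1) * (a ^ (n + 1) + (n + 1 : ℝ) * a ^ n) ≤ (a + 1) * (a + 1) ^ (n + 1) :=
      mul_le_mul_of_nonneg_left ih (by linarith)
    have h3 : (a + 1) * (a ^ (n + 1) + (n + 1 : ℝ) * a ^ n)
        = a ^ (n + 2) + (n + 2 : ℝ) * a ^ (n + 1) + (n + 1 : ℝ) * a ^ n := by ring
    have h4 : 0 ≤ (n + 1 : ℝ) * a ^ n := by positivity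
    push_cast
    have h5 : ((n : ℝ) + 1 + 1) = (n + 2 : ℝ) := by ring
    rw [h5, show n + 1 + 1 = n + 2 from rfl, h1]
    linarith

private theorem countG_diff {k : ℕ} (hk : 1 ≤ k) {X : ℝ} (hX : 0 ≤ X) {a b : ℕ}
    (ha : X < (a : ℝ)) (hab : a < b) :
    (k : ℝ) * X ^ (k - 1) ≤ (b : ℝ) ^ k - (a : ℝ) ^ k := by
  obtain ⟨n, rfl⟩ : ∃ n, k = n + 1 := ⟨k - 1, by omega⟩
  have h1 : ((a : ℝ) + 1) ≤ (b : ℝ) := by exact_mod_cast hab
  have h2 : ((a : ℝ) + 1) ^ (n + 1) ≤ (b : ℝ) ^ (n + 1) :=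
    pow_le_pow_left₀ (by positivity) h1 _
  have h3 := countG_bern n (a := (a : ℝ)) (by positivity)
  have h4 : X ^ n ≤ (a : ℝ) ^ n := pow_le_pow_left₀ hX ha.le _
  have h5 : (n + 1 : ℝ) * X ^ n ≤ (n + 1 : ℝ) * (a : ℝ) ^ n :=
    mul_le_mul_of_nonneg_left h4 (by positivity)
  simp only [Nat.add_sub_cancel]
  push_cast
  linarith

private theorem countG_absdiff {k : ℕ} (hk : 1 ≤ k) {X : ℝ} (hX : 0 ≤ X) {a b : ℕ}
    (ha : X < (a : ℝ)) (hb : X < (b : ℝ)) (hab : a ≠ b) :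
    (k : ℝ) * X ^ (k - 1) ≤ |(a : ℝ) ^ k - (b : ℝ) ^ k| := by
  rcases lt_or_gt_of_ne hab with h | h
  · have := countG_diff hk hX ha h
    rw [abs_sub_comm]
    exact this.trans (le_abs_self _)
  · have := countG_diff hk hX hb h
    exact this.trans (le_abs_self _)

private theorem countG_up {k : ℕ} {X : ℝ} (hX : 0 ≤ X) {a b : ℕ}
    (ha : X < (a : ℝ) ∧ (a : ℝ) ≤ 2 * X) (hb : X < (b : ℝ) ∧ (b : ℝ) ≤ 2 * X) :
    |(a : ℝ) ^ k - (b : ℝ) ^ k| ≤ (2 * X) ^ k := by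
  have h1 : (a : ℝ) ^ k ≤ (2 * X) ^ k := pow_le_pow_left₀ (by positivity) ha.2 _
  have h2 : (b : ℝ) ^ k ≤ (2 * X) ^ k := pow_le_pow_left₀ (by positivity) hb.2 _
  have h3 : 0 ≤ (a : ℝ) ^ k := by positivity
  have h4 : 0 ≤ (b : ℝ) ^ k := by positivity
  rw [abs_le]
  constructor <;> linarith

theorem count_good {k q : ℕ} (hk : 5 ≤ k) (hq : 1 ≤ q) (X : Fin q → ℝ) (hX : ∀ l, 1 ≤ X l)
    (ω : Fin q → ℝ) (hω : ∀ l, ω l ≠ 0) {E A : ℝ} (hE : 0 ≤ E)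
    (hE1 : ∀ l, E ≤ |ω l| * X l ^ (k - 1))
    (hdom : ∀ l l', l ≠ l' → (q * (|ω l'| * (2 * X l') ^ k) ≤ |ω l| * X l ^ (k - 1)) ∨
      (q * (|ω l| * (2 * X l) ^ k) ≤ |ω l'| * X l' ^ (k - 1)))
    (y y' : Fin q → ℕ) (hy : ∀ l, X l < (y l : ℝ) ∧ (y l : ℝ) ≤ 2 * X l)
    (hy' : ∀ l, X l < (y' l : ℝ) ∧ (y' l : ℝ) ≤ 2 * X l)
    (h : |∑ l, ω l * (y l : ℝ) ^ k - A| ≤ E) (h' : |∑ l, ω l * (y' l : ℝ) ^ k - A| ≤ E) :
    y = y' := by
  classical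
  by_contra hne
  obtain ⟨l1, hl1⟩ : ∃ l, y l ≠ y' l := Function.ne_iff.1 hne
  have hDne : (Finset.univ.filter (fun l => y l ≠ y' l)).Nonempty :=
    ⟨l1, by simp [hl1]⟩
  obtain ⟨l0, hl0, hmax⟩ := Finset.exists_max_image _ (fun l => |ω l| * X l ^ (k - 1)) hDne
  have hl0' : y l0 ≠ y' l0 := (Finset.mem_filter.1 hl0).2
  have hX0 : ∀ l, 0 ≤ X l := fun l => zero_le_one.trans (hX l)
  have hωp : ∀ l, 0 < |ω l| := fun l => abs_pos.2 (hω l)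
  set G : ℝ := |ω l0| * X l0 ^ (k - 1) with hG
  have hXp : 0 < X l0 ^ (k - 1) := pow_pos (lt_of_lt_of_le one_pos (hX l0)) _
  have hGp : 0 < G := mul_pos (hωp l0) hXp
  have hqR : (1 : ℝ) ≤ (q : ℝ) := by exact_mod_cast hq
  have hqp : (0 : ℝ) < (q : ℝ) := lt_of_lt_of_le one_pos hqR
  -- domination
  have hdom2 : ∀ l, y l ≠ y' l → l ≠ l0 → (q : ℝ) * (|ω l| * (2 * X l) ^ k) ≤ G := by
    intro l hl hll
    rcases hdom l0 l (Ne.symm hll) with h1 | h1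
    · exact h1
    · exfalso
      have h2 : |ω l| * X l ^ (k - 1) ≤ G := hmax l (by simp [hl])
      have h3 : X l0 ^ (k - 1) < (2 * X l0) ^ k := by
        have e1 : k = (k - 1) + 1 := by omega
        have e2 : (2 * X l0) ^ k = (2 * X l0) ^ (k - 1) * (2 * X l0) := by
          conv_lhs => rw [e1, pow_succ]
        have e3 : X l0 ^ (k - 1) ≤ (2 * X l0) ^ (k - 1) :=
          pow_le_pow_left₀ (hX0 l0) (by linarith [hX0 l0]) _
        rw [e2]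
        nlinarith [hX l0]
      have h4 : G < (q : ℝ) * (|ω l0| * (2 * X l0) ^ k) := by
        have h5 : G < |ω l0| * (2 * X l0) ^ k := mul_lt_mul_of_pos_left h3 (hωp l0)
        have h6 : |ω l0| * (2 * X l0) ^ k ≤ (q : ℝ) * (|ω l0| * (2 * X l0) ^ k) := by
          have h7 : 0 ≤ |ω l0| * (2 * X l0) ^ k := by
            have := hX0 l0
            positivity
          nlinarith
        linarith
      linarith
  -- the difference of the two sums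
  have hsum : |∑ l, ω l * ((y l : ℝ) ^ k - (y' l : ℝ) ^ k)| ≤ 2 * E := by
    have e1 : ∑ l, ω l * ((y l : ℝ) ^ k - (y' l : ℝ) ^ k)
        = (∑ l, ω l * (y l : ℝ) ^ k - A) - (∑ l, ω l * (y' l : ℝ) ^ k - A) := by
      rw [sub_sub_sub_cancel_right, ← Finset.sum_sub_distrib]
      exact Finset.sum_congr rfl fun l _ => by ring
    rw [e1]
    calc |(∑ l, ω l * (y l : ℝ) ^ k - A) - (∑ l, ω l * (y' l : ℝ) ^ k - A)|
        ≤ |∑ l, ω l * (y l : ℝ) ^ k - A| + |∑ l, ω l * (y' l : ℝ) ^ k - A| := abs_sub _ _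
      _ ≤ 2 * E := by linarith
  have hrest : |∑ l ∈ Finset.univ.erase l0, ω l * ((y l : ℝ) ^ k - (y' l : ℝ) ^ k)| ≤ G := by
    have h1 : ∀ l ∈ Finset.univ.erase l0,
        |ω l * ((y l : ℝ) ^ k - (y' l : ℝ) ^ k)| ≤ G / q := by
      intro l hl
      have hll : l ≠ l0 := (Finset.mem_erase.1 hl).1
      by_cases hyl : y l = y' l
      · rw [hyl, sub_self, mul_zero, abs_zero]
        positivity
      · rw [abs_mul, le_div_iff₀ hqp]
        have h2 := countG_up (k := k) (hX0 l) (hy l) (hy' l)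
        have h3 := hdom2 l hyl hll
        have h4 : |ω l| * |(y l : ℝ) ^ k - (y' l : ℝ) ^ k| ≤ |ω l| * (2 * X l) ^ k :=
          mul_le_mul_of_nonneg_left h2 (abs_nonneg _)
        nlinarith
    calc |∑ l ∈ Finset.univ.erase l0, ω l * ((y l : ℝ) ^ k - (y' l : ℝ) ^ k)|
        ≤ ∑ l ∈ Finset.univ.erase l0, |ω l * ((y l : ℝ) ^ k - (y' l : ℝ) ^ k)| :=
          Finset.abs_sum_le_sum_abs _ _
      _ ≤ ∑ _l ∈ Finset.univ.erase l0, G / q := Finset.sum_le_sum h1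
      _ = ((q - 1 : ℕ) : ℝ) * (G / q) := by
          rw [Finset.sum_const, Finset.card_erase_of_mem (Finset.mem_univ _), Finset.card_univ,
            Fintype.card_fin, nsmul_eq_mul]
      _ ≤ (q : ℝ) * (G / q) := by
          apply mul_le_mul_of_nonneg_right _ (by positivity)
          exact_mod_cast Nat.sub_le q 1
      _ = G := by field_simp
  have hsplit : ω l0 * ((y l0 : ℝ) ^ k - (y' l0 : ℝ) ^ k)
      = ∑ l, ω l * ((y l : ℝ) ^ k - (y' l : ℝ) ^ k)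
        - ∑ l ∈ Finset.univ.erase l0, ω l * ((y l : ℝ) ^ k - (y' l : ℝ) ^ k) := by
    rw [← Finset.add_sum_erase _ _ (Finset.mem_univ l0)]
    ring
  have hup : |ω l0| * |(y l0 : ℝ) ^ k - (y' l0 : ℝ) ^ k| ≤ 2 * E + G := by
    rw [← abs_mul, hsplit]
    exact (abs_sub _ _).trans (add_le_add hsum hrest)
  have hlow := countG_absdiff (k := k) (by omega) (hX0 l0) (hy l0).1 (hy' l0).1 hl0'
  have hk5 : (5 : ℝ) ≤ (k : ℝ) := by exact_mod_cast hk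
  have hlow2 : 5 * G ≤ |ω l0| * |(y l0 : ℝ) ^ k - (y' l0 : ℝ) ^ k| := by
    have h1 : 5 * X l0 ^ (k - 1) ≤ |(y l0 : ℝ) ^ k - (y' l0 : ℝ) ^ k| := by
      refine le_trans ?_ hlow
      exact mul_le_mul_of_nonneg_right hk5 hXp.le
    have h2 := mul_le_mul_of_nonneg_left h1 (hωp l0).le
    rw [hG]
    linarith
  have hEG : E ≤ G := hE1 l0
  linarith

end RWar
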