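import Pool.Agent.RWar.Defs
import Pool.Agent.HWar.ChLet
import Pool.Agent.MWg.LemA
import Pool.Agent.MWg.Gauss
import Pool.Agent.MWg.PData

/-!
# RWar.Energy: the mean square of the sum over a chain

PROOF. `S θ = ∑_{w ∈ chain k J0 n P} ee (θ a_w)`, `a_w = val (x^k) 0 w` (`chain_val`), `P = XX r`,
`κ = k (1-1/k)^n`, `tot = #chain`. `P_n = (nxt k)^[n] P`, `P_n^k ≤ C P^κ` (`nxt_iter_pow_le`).
`lemA` (`good_pow`, `side_J0`): `#{w : |a_w - α| ≤ M} ≤ C tot M/P^k` for `M ≥ P_n^k`, so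
`pairs (|a_w - a_w'| ≤ M) ≤ C tot² M/P^k` (compare `lf_pairs` in `Pool/Agent/HWar/LowFreq.lean`).
`energy_wide`: `gauss_one` with `Θ = P`, `L = P^(1/2)`: `L/Θ ≤ 1 ≤ M := P_n^k`, so
`∫_(-P)^P ‖S‖² ≤ e^π P (C tot² P_n^k/P^k + tot² exp(-π P)) ≤ C' tot² P^(1+κ-k)` for large `P`
(`κ ≥ 0`).
`energy_low`: `gauss_one` with `Θ = (P^u)⁻¹`, `L = P^(σ/2)`, `L/Θ = P^(u+σ/2) ≥ P_n^k` for large `P` as
`κ < u`: the integral is `≤ e^π P^(-u) (C tot² P^(u+σ/2-k) + tot² exp(-π P^σ)) ≤ C' tot² P^(σ-k)`.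
(compare `lf_mean` in `LowFreq.lean`.)
-/

namespace RWar

open Filter Topology MeasureTheory MWg HWar

/-- The exponential sum over a chain. -/
noncomputable def SC (k n r : ℕ) (θ : ℝ) : ℂ :=
  ∑ w ∈ chain k J0 n (XX r), ee (θ * (w.map fun x => (x.1 : ℝ) ^ k).sum)

private theorem en_SC (k n r : ℕ) (θ : ℝ) : SC k n r θ =
    ∑ w ∈ chain k J0 n (XX r), ee (θ * val (fun x : ℕ => (x : ℝ) ^ k) (fun _ => 0) w) := by
  unfold SC
  refine Finset.sum_congr rfl fun w _ => ?_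
  unfold val
  simp only [add_zero]

private theorem en_cont (k n r : ℕ) : Continuous (SC k n r) := by
  unfold SC
  refine continuous_finsetSum _ fun w _ => ?_
  exact ee_cont.comp (continuous_id.mul continuous_const)

private theorem en_norm (k n r : ℕ) (θ : ℝ) :
    ‖SC k n r θ‖ ≤ ((chain k J0 n (XX r)).card : ℝ) := by
  unfold SC
  refine (norm_sum_le _ _).trans ?_
  simp [ee_norm]

private theorem en_pairs {k n : ℕ} {P : ℝ} {f : ℕ → ℝ} {M B : ℝ}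
    (h : ∀ α : ℝ, cnt k J0 n P (fun w => |val f (fun _ => 0) w - α| ≤ M) ≤ B) :
    pairs (chain k J0 n P) (fun p => |val f (fun _ => 0) p.1 - val f (fun _ => 0) p.2| ≤ M) ≤
      tot k J0 n P * B := by
  rw [pairs_eq_sum_right]
  have h1 : ∀ w' ∈ chain k J0 n P,
      ((open Classical in ((chain k J0 n P).filter fun w =>
        |val f (fun _ => 0) w - val f (fun _ => 0) w'| ≤ M).card : ℕ) : ℝ) ≤ B := by
    intro w' _
    exact h (val f (fun _ => 0) w')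
  refine (Finset.sum_le_sum h1).trans (le_of_eq ?_)
  rw [Finset.sum_const, nsmul_eq_mul]
  rfl

private theorem en_pairs_mono {ι : Type*} (W : Finset ι) {p q : ι × ι → Prop}
    (h : ∀ x, p x → q x) : pairs W p ≤ pairs W q := by
  classical
  unfold pairs
  have h1 : (W ×ˢ W).filter p ⊆ (W ×ˢ W).filter q := by
    intro x hx
    rw [Finset.mem_filter] at hx ⊢
    exact ⟨hx.1, h x hx.2⟩
  have h2 := Finset.card_le_card h1
  have h3 : (((W ×ˢ W).filter p).card : ℝ) ≤ (((W ×ˢ W).filter q).card : ℝ) := by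
    exact_mod_cast h2
  convert h3

/-- the exponential function beats every power -/
private theorem en_exp {A σ : ℝ} (hσ : 0 < σ) :
    ∀ᶠ r : ℕ in atTop, Real.exp (-Real.pi * (XX r) ^ σ) ≤ (XX r) ^ A := by
  have h4 := tendsto_rpow_mul_exp_neg_mul_atTop_nhds_zero ((-A) / σ) Real.pi Real.pi_pos
  have h5 : Tendsto (fun r : ℕ => (XX r) ^ σ) atTop atTop :=
    (tendsto_rpow_atTop hσ).comp XX_tendsto
  have h6 := (h4.comp h5).eventually (gt_mem_nhds (one_pos : (0 : ℝ) < 1))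
  filter_upwards [h6] with r hr
  have hP : 0 < XX r := XX_pos r
  simp only [Function.comp] at hr
  rw [← Real.rpow_mul hP.le] at hr
  have h7 : σ * (-A / σ) = -A := by
    field_simp
  rw [h7, Real.rpow_neg hP.le] at hr
  have h8 : 0 < (XX r) ^ A := Real.rpow_pos_of_pos hP _
  rw [inv_mul_lt_iff₀ h8, mul_one] at hr
  exact hr.le

private theorem en_gauss (k n r : ℕ) {Θ L : ℝ} (hΘ : 0 < Θ) (hL : 0 < L) {M B : ℝ}
    (hM : L / Θ ≤ M)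
    (h : ∀ α : ℝ, cnt k J0 n (XX r)
      (fun w => |val (fun x : ℕ => (x : ℝ) ^ k) (fun _ => 0) w - α| ≤ M) ≤ B) :
    ∫ θ in (-Θ)..Θ, ‖SC k n r θ‖ ^ 2 ≤ Real.exp Real.pi * Θ *
      (((chain k J0 n (XX r)).card : ℝ) * B +
        ((chain k J0 n (XX r)).card : ℝ) ^ 2 * Real.exp (-Real.pi * L ^ 2)) := by
  have h1 := gauss_one (chain k J0 n (XX r)) (val (fun x : ℕ => (x : ℝ) ^ k) (fun _ => 0)) hΘ hL
  have h2 : ∫ θ in (-Θ)..Θ, ‖SC k n r θ‖ ^ 2 = ∫ θ in (-Θ)..Θ, ‖∑ w ∈ chain k J0 n (XX r),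
      ee (θ * val (fun x : ℕ => (x : ℝ) ^ k) (fun _ => 0) w)‖ ^ 2 := by
    simp only [en_SC]
  rw [h2]
  refine h1.trans (mul_le_mul_of_nonneg_left ?_ (by positivity))
  refine add_le_add ((en_pairs_mono _ ?_).trans (en_pairs h)) le_rfl
  intro x hx
  exact le_trans hx hM

theorem energy_wide {k : ℕ} (hk : 2 ≤ k) (n : ℕ) : ∃ C : ℝ, 0 < C ∧ ∀ᶠ r : ℕ in atTop,
    ∫ θ in (-XX r)..(XX r), ‖SC k n r θ‖ ^ 2 ≤
      C * ((chain k J0 n (XX r)).card : ℝ) ^ 2 *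
        (XX r) ^ (1 + (k : ℝ) * (1 - 1 / (k : ℝ)) ^ n - k) := by
  have hk1 : 1 ≤ k := by omega
  obtain ⟨C', hC', P0, hP0, hA⟩ := lemA hk (good_pow hk1) (side_J0 k) n
  obtain ⟨Cn, hCn, hnx⟩ := nxt_iter_pow_le hk1 n
  obtain ⟨κ, hκ⟩ : ∃ κ, κ = (k : ℝ) * (1 - 1 / (k : ℝ)) ^ n := ⟨_, rfl⟩
  rw [← hκ] at hnx ⊢
  refine ⟨Real.exp Real.pi * (C' * Cn + 1), by positivity, ?_⟩
  have h1 : ∀ᶠ r : ℕ in atTop, P0 ≤ XX r := XX_tendsto.eventually_ge_atTop P0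
  have h2 := en_exp (A := κ - k) (σ := 1) one_pos
  filter_upwards [h1, h2] with r hr1 hr2
  have hP1 : 1 ≤ XX r := XX_ge_one r
  have hP : 0 < XX r := XX_pos r
  rw [Real.rpow_one] at hr2
  have hn1 := nxt_iter_ge_one hk1 n hP1
  have hM1 : 1 ≤ ((nxt k)^[n] (XX r)) ^ k := one_le_pow₀ hn1
  have hL : 0 < (XX r) ^ ((1 : ℝ) / 2) := Real.rpow_pos_of_pos hP _
  have hLP : (XX r) ^ ((1 : ℝ) / 2) / XX r ≤ ((nxt k)^[n] (XX r)) ^ k := by
    refine le_trans ?_ hM1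
    rw [div_le_one hP]
    calc (XX r) ^ ((1 : ℝ) / 2) ≤ (XX r) ^ (1 : ℝ) :=
          Real.rpow_le_rpow_of_exponent_le hP1 (by norm_num)
      _ = XX r := Real.rpow_one _
  have h3 := en_gauss k n r hP hL hLP (fun α => hA _ hr1 α _ le_rfl)
  refine h3.trans ?_
  have hL2 : ((XX r) ^ ((1 : ℝ) / 2)) ^ 2 = XX r := by
    rw [← Real.rpow_natCast, ← Real.rpow_mul hP.le]
    norm_num
  rw [hL2]
  obtain ⟨t, ht⟩ : ∃ t, t = ((chain k J0 n (XX r)).card : ℝ) := ⟨_, rfl⟩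
  have htot : tot k J0 n (XX r) = t := by
    rw [ht]
    rfl
  rw [htot, ← ht]
  have ht0 : 0 ≤ t := by rw [ht]; exact Nat.cast_nonneg _
  have hPk : 0 < (XX r) ^ k := pow_pos hP k
  have hMle : ((nxt k)^[n] (XX r)) ^ k ≤ Cn * (XX r) ^ κ := hnx _ hP1
  have e1 : (XX r) ^ (κ - k) = (XX r) ^ κ / (XX r) ^ k := by
    rw [Real.rpow_sub hP, Real.rpow_natCast]
  have e2 : (XX r) ^ (1 + κ - k) = XX r * ((XX r) ^ (κ - k)) := by
    rw [show 1 + κ - (k : ℝ) = 1 + (κ - k) by ring, Real.rpow_add hP, Real.rpow_one]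
  have h4 : t * (C' * t * ((nxt k)^[n] (XX r)) ^ k / (XX r) ^ k) ≤
      C' * Cn * (t ^ 2 * (XX r) ^ (κ - k)) := by
    rw [e1]
    calc t * (C' * t * ((nxt k)^[n] (XX r)) ^ k / (XX r) ^ k)
        = C' * t ^ 2 / (XX r) ^ k * ((nxt k)^[n] (XX r)) ^ k := by ring
      _ ≤ C' * t ^ 2 / (XX r) ^ k * (Cn * (XX r) ^ κ) :=
          mul_le_mul_of_nonneg_left hMle (by positivity)
      _ = _ := by ring
  have h5 : t ^ 2 * Real.exp (-Real.pi * XX r) ≤ t ^ 2 * (XX r) ^ (κ - k) :=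
    mul_le_mul_of_nonneg_left hr2 (by positivity)
  calc Real.exp Real.pi * XX r * (t * (C' * t * ((nxt k)^[n] (XX r)) ^ k / (XX r) ^ k) +
        t ^ 2 * Real.exp (-Real.pi * XX r))
      ≤ Real.exp Real.pi * XX r * (C' * Cn * (t ^ 2 * (XX r) ^ (κ - k)) +
        t ^ 2 * (XX r) ^ (κ - k)) :=
        mul_le_mul_of_nonneg_left (add_le_add h4 h5) (by positivity)
    _ = _ := by
        rw [e2]
        ring

theorem energy_low {k n u : ℕ} (hk : 2 ≤ k) (hn : (k : ℝ) * (1 - 1 / (k : ℝ)) ^ n < u)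
    {σ : ℝ} (hσ : 0 < σ) : ∃ C : ℝ, 0 < C ∧ ∀ᶠ r : ℕ in atTop,
    ∫ θ in (-((XX r) ^ u)⁻¹)..((XX r) ^ u)⁻¹, ‖SC k n r θ‖ ^ 2 ≤
      C * ((chain k J0 n (XX r)).card : ℝ) ^ 2 * (XX r) ^ (σ - k) := by
  have hk1 : 1 ≤ k := by omega
  obtain ⟨C', hC', P0, hP0, hA⟩ := lemA hk (good_pow hk1) (side_J0 k) n
  obtain ⟨Cn, hCn, hnx⟩ := nxt_iter_pow_le hk1 n
  refine ⟨Real.exp Real.pi * (C' + 1), by positivity, ?_⟩
  have h1 : ∀ᶠ r : ℕ in atTop, P0 ≤ XX r := XX_tendsto.eventually_ge_atTop P0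
  have h2 := en_exp (A := σ - k) (σ := σ) hσ
  have h3 : ∀ᶠ r : ℕ in atTop, Cn * XX r ^ ((k : ℝ) * (1 - 1 / (k : ℝ)) ^ n) ≤
      XX r ^ (u : ℝ) := eventually_rpow_le hn
  filter_upwards [h1, h2, h3] with r hr1 hr2 hr3
  have hP1 : 1 ≤ XX r := XX_ge_one r
  have hP : 0 < XX r := XX_pos r
  have hu0 : 0 < (XX r) ^ u := pow_pos hP u
  have hu1 : 1 ≤ (XX r) ^ u := one_le_pow₀ hP1
  have hL : 0 < (XX r) ^ (σ / 2) := Real.rpow_pos_of_pos hP _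
  have hL1 : 1 ≤ (XX r) ^ (σ / 2) := Real.one_le_rpow hP1 (by positivity)
  have hΘ : 0 < ((XX r) ^ u)⁻¹ := inv_pos.2 hu0
  have hΘ1 : ((XX r) ^ u)⁻¹ ≤ 1 := inv_le_one_of_one_le₀ hu1
  have hM : ((nxt k)^[n] (XX r)) ^ k ≤ (XX r) ^ (σ / 2) * (XX r) ^ u := by
    refine (hnx _ hP1).trans (hr3.trans ?_)
    rw [Real.rpow_natCast]
    exact le_mul_of_one_le_left hu0.le hL1
  have hLM : (XX r) ^ (σ / 2) / ((XX r) ^ u)⁻¹ ≤ (XX r) ^ (σ / 2) * (XX r) ^ u := by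
    rw [div_inv_eq_mul]
  have h4 := en_gauss k n r hΘ hL hLM (fun α => hA _ hr1 α _ hM)
  refine h4.trans ?_
  have hL2 : ((XX r) ^ (σ / 2)) ^ 2 = (XX r) ^ σ := by
    rw [← Real.rpow_natCast, ← Real.rpow_mul hP.le]
    congr 1
    push_cast
    ring
  rw [hL2]
  obtain ⟨t, ht⟩ : ∃ t, t = ((chain k J0 n (XX r)).card : ℝ) := ⟨_, rfl⟩
  have htot : tot k J0 n (XX r) = t := by
    rw [ht]
    rfl
  rw [htot, ← ht]
  have ht0 : 0 ≤ t := by rw [ht]; exact Nat.cast_nonneg _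
  have hPk : 0 < (XX r) ^ k := pow_pos hP k
  have e1 : (XX r) ^ (σ - k) = (XX r) ^ σ / (XX r) ^ k := by
    rw [Real.rpow_sub hP, Real.rpow_natCast]
  have h6 : (XX r) ^ (σ / 2) ≤ (XX r) ^ σ :=
    Real.rpow_le_rpow_of_exponent_le hP1 (by linarith)
  have h7 : ((XX r) ^ u)⁻¹ * (t * (C' * t * ((XX r) ^ (σ / 2) * (XX r) ^ u) / (XX r) ^ k)) ≤
      C' * (t ^ 2 * (XX r) ^ (σ - k)) := by
    rw [e1]
    calc ((XX r) ^ u)⁻¹ * (t * (C' * t * ((XX r) ^ (σ / 2) * (XX r) ^ u) / (XX r) ^ k))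
        = C' * t ^ 2 / (XX r) ^ k * (XX r) ^ (σ / 2) := by
          field_simp
      _ ≤ C' * t ^ 2 / (XX r) ^ k * (XX r) ^ σ := mul_le_mul_of_nonneg_left h6 (by positivity)
      _ = _ := by ring
  have h8 : ((XX r) ^ u)⁻¹ * (t ^ 2 * Real.exp (-Real.pi * (XX r) ^ σ)) ≤
      t ^ 2 * (XX r) ^ (σ - k) := by
    have h9 : 0 ≤ t ^ 2 * Real.exp (-Real.pi * (XX r) ^ σ) := by positivity
    refine (mul_le_of_le_one_left h9 hΘ1).trans ?_
    exact mul_le_mul_of_nonneg_left hr2 (by positivity)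
  calc Real.exp Real.pi * ((XX r) ^ u)⁻¹ *
        (t * (C' * t * ((XX r) ^ (σ / 2) * (XX r) ^ u) / (XX r) ^ k) +
          t ^ 2 * Real.exp (-Real.pi * (XX r) ^ σ))
      = Real.exp Real.pi * (((XX r) ^ u)⁻¹ *
          (t * (C' * t * ((XX r) ^ (σ / 2) * (XX r) ^ u) / (XX r) ^ k)) +
          ((XX r) ^ u)⁻¹ * (t ^ 2 * Real.exp (-Real.pi * (XX r) ^ σ))) := by ring
    _ ≤ Real.exp Real.pi * (C' * (t ^ 2 * (XX r) ^ (σ - k)) + t ^ 2 * (XX r) ^ (σ - k)) :=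
        mul_le_mul_of_nonneg_left (add_le_add h7 h8) (by positivity)
    _ = _ := by ring

/-- The sum over the plain letters is a product. -/
theorem FP_eq {k T : ℕ} (p : ParR k T) (r : ℕ) (θ : ℝ) :
    FP p r θ = SC k p.n1 r θ * SC k p.n2 r θ * ∑ v ∈ J1 (XX r), ee (θ * (v : ℝ) ^ k) := by
  unfold FP ZR SC
  rw [Finset.sum_product, Finset.sum_product, Finset.sum_mul_sum, Finset.sum_mul]
  refine Finset.sum_congr rfl fun w _ => ?_
  rw [Finset.sum_mul]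
  refine Finset.sum_congr rfl fun w' _ => ?_
  rw [Finset.mul_sum]
  refine Finset.sum_congr rfl fun v _ => ?_
  unfold zsum
  dsimp only
  rw [mul_add, mul_add, ee_add, ee_add]

/-- The mean square of the sum over the plain letters. -/
theorem FP_energy {k T : ℕ} (p : ParR k T) : ∃ C : ℝ, 0 < C ∧ ∀ᶠ r : ℕ in atTop,
    ∀ S : Set ℝ, MeasurableSet S → (∀ θ ∈ S, |θ| ≤ XX r) → ∫ θ in S, ‖FP p r θ‖ ^ 2 ≤
      C * ((ZR p r).card : ℝ) ^ 2 * (XX r) ^ (1 + (k : ℝ) * (1 - 1 / (k : ℝ)) ^ p.n1 - k) := by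
  obtain ⟨C, hC, hE⟩ := energy_wide (k := k) (by have := p.hk; omega) p.n1
  refine ⟨C, hC, ?_⟩
  filter_upwards [hE] with r hr S hS hSP
  have hP : 0 < XX r := XX_pos r
  obtain ⟨t1, ht1⟩ : ∃ t, t = ((chain k J0 p.n1 (XX r)).card : ℝ) := ⟨_, rfl⟩
  obtain ⟨t2, ht2⟩ : ∃ t, t = ((chain k J0 p.n2 (XX r)).card : ℝ) := ⟨_, rfl⟩
  obtain ⟨t3, ht3⟩ : ∃ t, t = ((J1 (XX r)).card : ℝ) := ⟨_, rfl⟩
  have ht20 : 0 ≤ t2 := by rw [ht2]; exact Nat.cast_nonneg _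
  have ht30 : 0 ≤ t3 := by rw [ht3]; exact Nat.cast_nonneg _
  have hZ : ((ZR p r).card : ℝ) = t1 * t2 * t3 := by
    unfold ZR
    rw [Finset.card_product, Finset.card_product]
    push_cast
    rw [ht1, ht2, ht3]
  have hle : ∀ θ, ‖FP p r θ‖ ^ 2 ≤ (t2 * t3) ^ 2 * ‖SC k p.n1 r θ‖ ^ 2 := by
    intro θ
    rw [FP_eq, norm_mul, norm_mul]
    have h2 : ‖SC k p.n2 r θ‖ ≤ t2 := by rw [ht2]; exact en_norm _ _ _ _
    have h3 : ‖∑ v ∈ J1 (XX r), ee (θ * (v : ℝ) ^ k)‖ ≤ t3 := by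
      rw [ht3]
      refine (norm_sum_le _ _).trans ?_
      simp [ee_norm]
    have h4 : ‖SC k p.n2 r θ‖ * ‖∑ v ∈ J1 (XX r), ee (θ * (v : ℝ) ^ k)‖ ≤ t2 * t3 :=
      mul_le_mul h2 h3 (norm_nonneg _) ht20
    rw [mul_assoc, mul_pow, mul_comm]
    exact mul_le_mul_of_nonneg_right (pow_le_pow_left₀ (by positivity) h4 2) (by positivity)
  have hc1 : Continuous fun θ => ‖FP p r θ‖ ^ 2 := by
    have h5 : Continuous (FP p r) := by
      unfold FP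
      exact continuous_finsetSum _ fun _ _ => ee_cont.comp (continuous_id.mul continuous_const)
    exact h5.norm.pow 2
  have hc2 : Continuous fun θ => (t2 * t3) ^ 2 * ‖SC k p.n1 r θ‖ ^ 2 :=
    continuous_const.mul ((en_cont k p.n1 r).norm.pow 2)
  have hsub : S ⊆ Set.Icc (-XX r) (XX r) := fun θ hθ => abs_le.1 (hSP θ hθ)
  have hi1 : IntegrableOn (fun θ => ‖FP p r θ‖ ^ 2) S := hc1.integrableOn_Icc.mono_set hsub
  have hi2 : IntegrableOn (fun θ => (t2 * t3) ^ 2 * ‖SC k p.n1 r θ‖ ^ 2)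
      (Set.Icc (-XX r) (XX r)) := hc2.integrableOn_Icc
  calc ∫ θ in S, ‖FP p r θ‖ ^ 2
      ≤ ∫ θ in S, (t2 * t3) ^ 2 * ‖SC k p.n1 r θ‖ ^ 2 :=
        setIntegral_mono hi1 (hi2.mono_set hsub) hle
    _ ≤ ∫ θ in Set.Icc (-XX r) (XX r), (t2 * t3) ^ 2 * ‖SC k p.n1 r θ‖ ^ 2 := by
        refine setIntegral_mono_set hi2 ?_ (Eventually.of_forall hsub)
        exact Eventually.of_forall fun θ => by positivity
    _ = (t2 * t3) ^ 2 * ∫ θ in (-XX r)..(XX r), ‖SC k p.n1 r θ‖ ^ 2 := by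
        rw [integral_Icc_eq_integral_Ioc, ← intervalIntegral.integral_of_le (by linarith),
          intervalIntegral.integral_const_mul]
    _ ≤ (t2 * t3) ^ 2 * (C * t1 ^ 2 *
        (XX r) ^ (1 + (k : ℝ) * (1 - 1 / (k : ℝ)) ^ p.n1 - k)) := by
        refine mul_le_mul_of_nonneg_left ?_ (by positivity)
        rw [ht1]
        exact hr
    _ = _ := by
        rw [hZ]
        ring

end RWar
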