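import Mathlib

/-!
# RWar.LinE: pairs of frequencies which satisfy a diagonally dominant linear system

PROOF. Let `f τ = ∏_l χ_l (τ_l)` (`≥ 0`), so the integrand is `f τ f τ' ≤ (f τ² + f τ'²)/2` on the set. By
symmetry it is enough to bound `∫⁻_τ ∫⁻_τ' 1 · f τ²`; for fixed `τ` the slice
`{τ' : ∀ m, |∑_l (A m l τ_l - A' m l τ'_l) + c m| ≤ E}` has diameter at most `4E/a` in the sup norm: for
two of its points let `M = |τ'_m - τ''_m|` be the largest difference of coordinates; then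
`a M ≤ |A' m m| M ≤ 2E + ∑_{l ≠ m} |A' m l| M ≤ 2E + (a/2) M`. So the slice is contained in a closed
ball of radius `4E/a` and its measure is at most `(8E/a)^q` (`Real.volume_pi_closedBall`). Hence the
integral is at most `(8E/a)^q ∫⁻_{τ ∈ ∏ S} f τ² = (8E/a)^q ∏_l ∫⁻_{S l} χ_l²`
(`MeasureTheory.lintegral_fin_nat_prod_eq_prod` or `lintegral` of a product over `Measure.pi`; the
restricted product measure is the product of the restricted measures, `Measure.restrict_pi_pi`).
(For `q = 0` both sides are `1` or the left side is `≤ 1`; assume `1 ≤ q` if convenient: it is a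
hypothesis.)
-/

namespace RWar

open MeasureTheory

private lemma linE_slice_point {q : ℕ} (hq : 1 ≤ q) (B : Fin q → Fin q → ℝ) (d : Fin q → ℝ) {a : ℝ}
    (ha : 0 < a) (hB : ∀ m, a ≤ |B m m|) (hoff : ∀ m l, m ≠ l → 2 * q * |B m l| ≤ a)
    {E : ℝ} (x p : Fin q → ℝ) (hx : ∀ m, |∑ l, B m l * x l + d m| ≤ E)
    (hp : ∀ m, |∑ l, B m l * p l + d m| ≤ E) (i : Fin q) : |x i - p i| ≤ 4 * E / a := by
  have : Nonempty (Fin q) := ⟨⟨0, hq⟩⟩
  obtain ⟨m, hm⟩ := Finite.exists_max (fun j : Fin q => |x j - p j|)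
  refine (hm i).trans ?_
  set M : ℝ := |x m - p m| with hM
  have hM0 : 0 ≤ M := abs_nonneg _
  have hq0 : (0 : ℝ) < q := by exact_mod_cast hq
  have h1 : |∑ l, B m l * (x l - p l)| ≤ 2 * E := by
    have e : ∑ l, B m l * (x l - p l) = (∑ l, B m l * x l + d m) - (∑ l, B m l * p l + d m) := by
      simp only [mul_sub, Finset.sum_sub_distrib]; ring
    rw [e]
    calc |(∑ l, B m l * x l + d m) - (∑ l, B m l * p l + d m)|
        ≤ |∑ l, B m l * x l + d m| + |∑ l, B m l * p l + d m| := abs_sub _ _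
      _ ≤ E + E := add_le_add (hx m) (hp m)
      _ = 2 * E := by ring
  have h2 : ∑ l, B m l * (x l - p l) =
      B m m * (x m - p m) + ∑ l ∈ Finset.univ.erase m, B m l * (x l - p l) := by
    exact (Finset.add_sum_erase Finset.univ (fun l => B m l * (x l - p l))
      (Finset.mem_univ m)).symm
  have h3 : |∑ l ∈ Finset.univ.erase m, B m l * (x l - p l)| ≤ a / 2 * M := by
    calc |∑ l ∈ Finset.univ.erase m, B m l * (x l - p l)|
        ≤ ∑ l ∈ Finset.univ.erase m, |B m l * (x l - p l)| := Finset.abs_sum_le_sum_abs _ _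
      _ ≤ ∑ l ∈ Finset.univ.erase m, a / (2 * q) * M := by
          refine Finset.sum_le_sum (fun l hl => ?_)
          rw [abs_mul]
          have hne : m ≠ l := (Finset.ne_of_mem_erase hl).symm
          have := hoff m l hne
          refine mul_le_mul ?_ (hm l) (abs_nonneg _) (by positivity)
          rw [le_div_iff₀ (by positivity)]
          linarith
      _ ≤ ∑ l : Fin q, a / (2 * q) * M :=
          Finset.sum_le_sum_of_subset_of_nonneg (Finset.erase_subset _ _)
            (fun _ _ _ => by positivity)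
      _ = a / 2 * M := by
          rw [Finset.sum_const, Finset.card_univ, Fintype.card_fin, nsmul_eq_mul]
          field_simp
  have h4 : a * M ≤ |B m m * (x m - p m)| := by
    rw [abs_mul]
    exact mul_le_mul_of_nonneg_right (hB m) hM0
  have h5 : |B m m * (x m - p m)| ≤ 2 * E + a / 2 * M := by
    have e : B m m * (x m - p m) = ∑ l, B m l * (x l - p l) -
        ∑ l ∈ Finset.univ.erase m, B m l * (x l - p l) := by rw [h2]; ring
    rw [e]
    exact (abs_sub _ _).trans (add_le_add h1 h3)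
  rw [le_div_iff₀ ha]
  nlinarith

private lemma linE_slice {q : ℕ} (hq : 1 ≤ q) (B : Fin q → Fin q → ℝ) (d : Fin q → ℝ) {a : ℝ}
    (ha : 0 < a) (hB : ∀ m, a ≤ |B m m|) (hoff : ∀ m l, m ≠ l → 2 * q * |B m l| ≤ a)
    {E : ℝ} (hE : 0 ≤ E) :
    volume {x : Fin q → ℝ | ∀ m, |∑ l, B m l * x l + d m| ≤ E} ≤
      ENNReal.ofReal ((8 * E / a) ^ q) := by
  rcases Set.eq_empty_or_nonempty {x : Fin q → ℝ | ∀ m, |∑ l, B m l * x l + d m| ≤ E} with h | h
  · rw [h]; simp
  · obtain ⟨p, hp⟩ := h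
    have hr : 0 ≤ 4 * E / a := by positivity
    have hsub : {x : Fin q → ℝ | ∀ m, |∑ l, B m l * x l + d m| ≤ E} ⊆
        Metric.closedBall p (4 * E / a) := by
      intro x hx
      rw [Metric.mem_closedBall, dist_pi_le_iff hr]
      intro i
      rw [Real.dist_eq]
      exact linE_slice_point hq B d ha hB hoff x p hx hp i
    refine (measure_mono hsub).trans (le_of_eq ?_)
    rw [Real.volume_pi_closedBall p hr, Fintype.card_fin]
    congr 2
    ring

private lemma linE_abs {X : Type*} [MeasurableSpace X] (μ : Measure X) [SFinite μ]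
    (T : Set (X × X)) (hT : MeasurableSet T) (g : X → ENNReal) (hg : Measurable g) (K : ENNReal)
    (F : X × X → ENNReal) (hF : ∀ x ∈ T, F x ≤ 2⁻¹ * g x.1 + 2⁻¹ * g x.2)
    (h1 : ∀ τ, μ {τ' | (τ, τ') ∈ T} ≤ K) (h2 : ∀ τ', μ {τ | (τ, τ') ∈ T} ≤ K) :
    ∫⁻ τ, ∫⁻ τ', Set.indicator T F (τ, τ') ∂μ ∂μ ≤ K * ∫⁻ τ, g τ ∂μ := by
  have hind : Measurable (Set.indicator T (1 : X × X → ENNReal)) := measurable_one.indicator hT
  have hpt : ∀ τ τ' : X, Set.indicator T F (τ, τ') ≤
      2⁻¹ * (g τ * Set.indicator T 1 (τ, τ')) + 2⁻¹ * (g τ' * Set.indicator T 1 (τ, τ')) := by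
    intro τ τ'
    by_cases h : (τ, τ') ∈ T
    · rw [Set.indicator_of_mem h, Set.indicator_of_mem h]
      simpa using hF _ h
    · rw [Set.indicator_of_notMem h]
      exact bot_le
  have hsl1 : ∀ τ : X, ∫⁻ τ', Set.indicator T 1 (τ, τ') ∂μ ≤ K := by
    intro τ
    have e : (fun τ' : X => Set.indicator T (1 : X × X → ENNReal) (τ, τ')) =
        Set.indicator (Prod.mk τ ⁻¹' T) 1 := by
      ext τ'
      by_cases h : (τ, τ') ∈ T
      · rw [Set.indicator_of_mem h, Set.indicator_of_mem (show τ' ∈ Prod.mk τ ⁻¹' T from h)]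
        rfl
      · rw [Set.indicator_of_notMem h,
          Set.indicator_of_notMem (show τ' ∉ Prod.mk τ ⁻¹' T from h)]
    rw [e, lintegral_indicator_one (measurable_prodMk_left hT)]
    exact h1 τ
  have hsl2 : ∀ τ' : X, ∫⁻ τ, Set.indicator T 1 (τ, τ') ∂μ ≤ K := by
    intro τ'
    have e : (fun τ : X => Set.indicator T (1 : X × X → ENNReal) (τ, τ')) =
        Set.indicator ((fun τ => (τ, τ')) ⁻¹' T) 1 := by
      ext τ
      by_cases h : (τ, τ') ∈ T
      · rw [Set.indicator_of_mem h,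
          Set.indicator_of_mem (show τ ∈ (fun τ => (τ, τ')) ⁻¹' T from h)]
        rfl
      · rw [Set.indicator_of_notMem h,
          Set.indicator_of_notMem (show τ ∉ (fun τ => (τ, τ')) ⁻¹' T from h)]
    rw [e, lintegral_indicator_one (measurable_prodMk_right hT)]
    exact h2 τ'
  have m1 : Measurable (fun x : X × X => g x.1 * Set.indicator T 1 x) :=
    (hg.comp measurable_fst).mul hind
  have m2 : Measurable (fun x : X × X => g x.2 * Set.indicator T 1 x) :=
    (hg.comp measurable_snd).mul hind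
  have b1 : ∫⁻ τ, ∫⁻ τ', g τ * Set.indicator T 1 (τ, τ') ∂μ ∂μ ≤ ∫⁻ τ, g τ * K ∂μ := by
    refine lintegral_mono (fun τ => ?_)
    have n1 : Measurable (fun τ' => Set.indicator T (1 : X × X → ENNReal) (τ, τ')) :=
      hind.comp measurable_prodMk_left
    simp only
    rw [lintegral_const_mul _ n1]
    exact mul_le_mul_right (hsl1 τ) _
  have b2 : ∫⁻ τ, ∫⁻ τ', g τ' * Set.indicator T 1 (τ, τ') ∂μ ∂μ ≤ ∫⁻ τ, g τ * K ∂μ := by
    rw [lintegral_lintegral_swap (f := fun τ τ' => g τ' * Set.indicator T 1 (τ, τ'))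
      m2.aemeasurable]
    refine lintegral_mono (fun τ' => ?_)
    have n1 : Measurable (fun τ => Set.indicator T (1 : X × X → ENNReal) (τ, τ')) :=
      hind.comp measurable_prodMk_right
    simp only
    rw [lintegral_const_mul _ n1]
    exact mul_le_mul_right (hsl2 τ') _
  calc ∫⁻ τ, ∫⁻ τ', Set.indicator T F (τ, τ') ∂μ ∂μ
      ≤ ∫⁻ τ, ∫⁻ τ', (2⁻¹ * (g τ * Set.indicator T 1 (τ, τ')) +
          2⁻¹ * (g τ' * Set.indicator T 1 (τ, τ'))) ∂μ ∂μ :=
        lintegral_mono (fun τ => lintegral_mono (fun τ' => hpt τ τ'))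
    _ = 2⁻¹ * ∫⁻ τ, ∫⁻ τ', g τ * Set.indicator T 1 (τ, τ') ∂μ ∂μ +
          2⁻¹ * ∫⁻ τ, ∫⁻ τ', g τ' * Set.indicator T 1 (τ, τ') ∂μ ∂μ := by
        rw [← lintegral_const_mul _ m1.lintegral_prod_right',
          ← lintegral_const_mul _ m2.lintegral_prod_right',
          ← lintegral_add_left (m1.lintegral_prod_right'.const_mul _)]
        refine lintegral_congr (fun τ => ?_)
        have n1 : Measurable (fun τ' => g τ * Set.indicator T 1 (τ, τ')) :=
          m1.comp measurable_prodMk_left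
        have n2 : Measurable (fun τ' => g τ' * Set.indicator T 1 (τ, τ')) :=
          m2.comp measurable_prodMk_left
        rw [lintegral_add_left (n1.const_mul _), lintegral_const_mul _ n1,
          lintegral_const_mul _ n2]
    _ ≤ 2⁻¹ * (∫⁻ τ, g τ * K ∂μ) + 2⁻¹ * (∫⁻ τ, g τ * K ∂μ) :=
        add_le_add (mul_le_mul_right b1 _) (mul_le_mul_right b2 _)
    _ = K * ∫⁻ τ, g τ ∂μ := by
        rw [lintegral_mul_const _ hg, ← add_mul, ENNReal.inv_two_add_inv_two, one_mul,
          mul_comm]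

private lemma linE_prod {n : ℕ} (μ : Fin n → Measure ℝ) [∀ i, SigmaFinite (μ i)]
    (f : Fin n → ℝ → ENNReal) (hf : ∀ i, Measurable (f i)) :
    ∫⁻ x : Fin n → ℝ, ∏ i, f i (x i) ∂(Measure.pi μ) = ∏ i, ∫⁻ x, f i x ∂(μ i) := by
  induction n with
  | zero => simp
  | succ n ih =>
    calc
      _ = ∫⁻ x : ℝ × (Fin n → ℝ), f 0 x.1 * ∏ i : Fin n, f (Fin.succ i) (x.2 i)
            ∂((μ 0).prod (Measure.pi fun i => μ i.succ)) := by
          rw [← ((measurePreserving_piFinSuccAbove μ 0).symm).lintegral_comp_emb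
            (MeasurableEquiv.measurableEmbedding _)]
          simp_rw [MeasurableEquiv.piFinSuccAbove_symm_apply, Fin.insertNthEquiv,
            Fin.prod_univ_succ, Fin.insertNth_zero, Equiv.coe_fn_mk, Fin.cons_succ,
            Fin.cons_zero]
          rfl
      _ = (∫⁻ x, f 0 x ∂(μ 0)) * ∏ i : Fin n, ∫⁻ x, f (Fin.succ i) x ∂(μ i.succ) := by
          rw [← ih (fun i => μ i.succ) (fun i => f i.succ) (fun i => hf _)]
          exact lintegral_prod_mul (f := f 0) (g := fun x : Fin n → ℝ => ∏ i, f (Fin.succ i) (x i))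
            (hf 0).aemeasurable
            (Finset.measurable_prod _ fun i _ => (hf _).comp (measurable_pi_apply i)).aemeasurable
      _ = _ := by rw [Fin.prod_univ_succ]

theorem lin_energy {q : ℕ} (hq : 1 ≤ q) (S : Fin q → Set ℝ) (hS : ∀ l, MeasurableSet (S l))
    (χ : Fin q → ℝ → ℝ) (hχ : ∀ l, Measurable (χ l)) (hχ0 : ∀ l θ, 0 ≤ χ l θ)
    (A A' : Fin q → Fin q → ℝ) {a : ℝ} (ha : 0 < a)
    (hA : ∀ m, a ≤ |A m m| ∧ a ≤ |A' m m|)
    (hoff : ∀ m l, m ≠ l → 2 * q * |A m l| ≤ a ∧ 2 * q * |A' m l| ≤ a) (c : Fin q → ℝ)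
    {E : ℝ} (hE : 0 ≤ E) :
    ∫⁻ τ in Set.pi Set.univ S, ∫⁻ τ' in Set.pi Set.univ S,
      Set.indicator {x : (Fin q → ℝ) × (Fin q → ℝ) |
          ∀ m, |∑ l, (A m l * x.1 l - A' m l * x.2 l) + c m| ≤ E}
        (fun x => ENNReal.ofReal (∏ l, (χ l (x.1 l) * χ l (x.2 l)))) (τ, τ') ≤
      ENNReal.ofReal ((8 * E / a) ^ q) * ∏ l, ∫⁻ θ in S l, ENNReal.ofReal (χ l θ ^ 2) := by
  have hTm : MeasurableSet {x : (Fin q → ℝ) × (Fin q → ℝ) |
      ∀ m, |∑ l, (A m l * x.1 l - A' m l * x.2 l) + c m| ≤ E} := by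
    have : {x : (Fin q → ℝ) × (Fin q → ℝ) |
        ∀ m, |∑ l, (A m l * x.1 l - A' m l * x.2 l) + c m| ≤ E} =
        ⋂ m, {x : (Fin q → ℝ) × (Fin q → ℝ) |
        |∑ l, (A m l * x.1 l - A' m l * x.2 l) + c m| ≤ E} := by
      ext x; simp
    rw [this]
    refine MeasurableSet.iInter (fun m => (isClosed_le ?_ continuous_const).measurableSet)
    fun_prop
  have hgm : Measurable (fun τ : Fin q → ℝ => ENNReal.ofReal ((∏ l, χ l (τ l)) ^ 2)) := by
    refine ENNReal.measurable_ofReal.comp ?_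
    refine Measurable.pow_const ?_ 2
    exact Finset.measurable_prod _ (fun l _ => (hχ l).comp (measurable_pi_apply l))
  have hprod : ∫⁻ τ : Fin q → ℝ in Set.pi Set.univ S, ENNReal.ofReal ((∏ l, χ l (τ l)) ^ 2) =
      ∏ l, ∫⁻ θ in S l, ENNReal.ofReal (χ l θ ^ 2) := by
    have e : ∀ τ : Fin q → ℝ, ENNReal.ofReal ((∏ l, χ l (τ l)) ^ 2) =
        ∏ l, ENNReal.ofReal (χ l (τ l) ^ 2) := by
      intro τ
      rw [← Finset.prod_pow, ENNReal.ofReal_prod_of_nonneg (fun l _ => sq_nonneg _)]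
    simp only [e]
    rw [volume_pi, Measure.restrict_pi_pi]
    exact linE_prod (fun l => volume.restrict (S l)) (fun l θ => ENNReal.ofReal (χ l θ ^ 2))
      (fun l => ENNReal.measurable_ofReal.comp ((hχ l).pow_const 2))
  rw [← hprod]
  refine linE_abs _ _ hTm _ hgm _ _ ?_ ?_ ?_
  · rintro ⟨τ, τ'⟩ -
    simp only
    rw [Finset.prod_mul_distrib, ← mul_add,
      ← ENNReal.ofReal_add (sq_nonneg _) (sq_nonneg _)]
    have e2 : (2⁻¹ : ENNReal) = ENNReal.ofReal (2⁻¹) := by
      rw [ENNReal.ofReal_inv_of_pos (by norm_num)]; norm_num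
    rw [e2, ← ENNReal.ofReal_mul (by norm_num)]
    refine ENNReal.ofReal_le_ofReal ?_
    nlinarith [sq_nonneg ((∏ l, χ l (τ l)) - ∏ l, χ l (τ' l))]
  · intro τ
    refine (Measure.restrict_apply_le _ _).trans ?_
    have hs : {τ' : Fin q → ℝ | (τ, τ') ∈ {x : (Fin q → ℝ) × (Fin q → ℝ) |
        ∀ m, |∑ l, (A m l * x.1 l - A' m l * x.2 l) + c m| ≤ E}} =
        {x | ∀ m, |∑ l, (-A' m l) * x l + (∑ l, A m l * τ l + c m)| ≤ E} := by
      ext τ'
      simp only [Set.mem_ofPred_eq]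
      refine forall_congr' (fun m => ?_)
      have : ∑ l, (A m l * τ l - A' m l * τ' l) + c m =
          ∑ l, (-A' m l) * τ' l + (∑ l, A m l * τ l + c m) := by
        simp only [Finset.sum_sub_distrib, neg_mul, Finset.sum_neg_distrib]; ring
      rw [this]
    rw [hs]
    exact linE_slice hq (fun m l => -A' m l) _ ha (fun m => by rw [abs_neg]; exact (hA m).2)
      (fun m l h => by rw [abs_neg]; exact (hoff m l h).2) hE
  · intro τ'
    refine (Measure.restrict_apply_le _ _).trans ?_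
    have hs : {τ : Fin q → ℝ | (τ, τ') ∈ {x : (Fin q → ℝ) × (Fin q → ℝ) |
        ∀ m, |∑ l, (A m l * x.1 l - A' m l * x.2 l) + c m| ≤ E}} =
        {x | ∀ m, |∑ l, A m l * x l + (c m - ∑ l, A' m l * τ' l)| ≤ E} := by
      ext τ
      simp only [Set.mem_ofPred_eq]
      refine forall_congr' (fun m => ?_)
      have : ∑ l, (A m l * τ l - A' m l * τ' l) + c m =
          ∑ l, A m l * τ l + (c m - ∑ l, A' m l * τ' l) := by
        simp only [Finset.sum_sub_distrib]; ring
      rw [this]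
    rw [hs]
    exact linE_slice hq A _ ha (fun m => (hA m).1) (fun m l h => (hoff m l h).1) hE

end RWar
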