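import Pool.Agent.RWar.GaussG
import Pool.Agent.RWar.LinE
import Pool.Agent.RWar.CountG
import Pool.Agent.RWar.BadJ
import Pool.Agent.RWar.Energy
import Pool.Agent.RWar.Basic

/-!
# RWar.HighR: the mean of the product of the `q` families

PROOF. `P = XX r`, `Q = QK k r`, `P = Q^k`, `q = p.q`, `E = P^(1/4)`, `w m = C1/(1+|m|)`, `C1 = max Cc 1`,
`D_l = Dm (fl l) r`, `𝓜_l = Icc (-D_l) D_l`, `S_l = SS (fl l) (h l) r ⊂ [-P, P]`, `κ = k(1-1/k)^n1`,
`W1 = 1 + ∑_{|m| ≤ DD r} w m ≤ C (r+1)`, so that every fixed power of `W1` is `≤ P^(1/4)` for large `r`.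
STEP 1. With `β = Fin T → ℕ × ℤ`, `𝓑 l = piFinset (fun j => blR k r (lev l j) ×ˢ 𝓜_l)` we have
(`Finset.prod_univ_sum`, `ee_add`)
`MB = ∑_{b ∈ 𝓑 l} ∫_{S_l} ψ_l(b, θ) ee (∑_j α_j V(b, θ, j)) dθ`, `V(b, θ, j) = (θ + m_j) y_j^k` (`b j = (y_j, m_j)`),
`ψ_l = K θ ee (-θY) FP θ ∏_j c_{m_j}(θ)`, `‖ψ_l‖ ≤ w_l(b) χ(θ)`, `w_l(b) = ∏_j w(m_j)`, `χ = CK ‖FP θ‖`
(use `max CK 0`). Apply `gaussG`, and `gw v ≤ exp(-π E²) + 1[∀ j, |v_j| ≤ E]`. The first term contributes at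
most `exp(-π P^(1/2)) ∏_l (∑_b w_l(b) · 2P CK #ZR)²`, a polynomial in `P` times `exp(-π P^(1/2))`.
STEP 2. Fix `τ, τ' ∈ ∏ S_l` and `b`. `∑_{b'} ∏ w_l(b'_l) 1[∀ j, |Z_j| ≤ E]`, with
`Z_j = ∑_l ((τ_l + m_{l,j}) y_{l,j}^k - (τ'_l + m'_{l,j}) y'_{l,j}^k)`, is a product over `j` of
`F_j = ∑_{(y'_l, m'_l)_l} ∏_l w(m'_l) 1[|Z_j| ≤ E]`.
* `j ≥ q`, `j ∉ badJ`: for given `(m'_l)_l` at most one `(y'_l)_l` (`count_good` with `X_l = Q^(k-1-7 lev)`,
  `ω_l = τ'_l + m'_l`): let `σ_l = h_l + 7 lev_l`. `P^(-h_l) ≤ |ω_l| ≤ P^(5/2-h_l)` for large `P` (if `fl l` is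
  false: `m' = 0`, `TT`; if it is true: `h_l = 1`, `P⁻¹ < |τ'| ≤ 1/2`, `|τ' + m'| ≥ 1/2` for `m' ≠ 0`,
  `≤ 1/2 + P^(4/3)`). `X_l^k = P^(k-1-7lev)`, `X_l ≤ P`, so `|ω_l| X_l^(k-1) ≥ P^(k-2-σ_l) ≥ P ≥ E`
  (`σ_l ≤ u + 7G ≤ k - 3`) and `q |ω_l'| (2X_l')^k ≤ q 2^k P^(3/2+k-σ_l') ≤ P^(k-2-σ_l)` if
  `σ_l' ≥ σ_l + 4` (large `P`), which is the domination. So `F_j ≤ W1^q`.
* `j ∈ badJ`: `F_j ≤ (P W1)^q` (`#blR ≤ P`, `letter_le`-like: `2Q^(k-1) ≤ P` for large `P`).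
* `j < q`: keep `F_j`.
STEP 3. Expand `∏_{j<q} F_j = ∑_c ∏ w · 1[..]` over `c : Fin q → Fin q → ℕ × ℤ` (variable `m`, family `l`;
`y'_{l,m}`, `m'_{l,m}`). For fixed `b`, `c`: `lin_energy` with `A m l = y_{l,m}^k`, `A' m l = y'_{l,m}^k`,
`c m = ∑_l (m_{l,m} y_{l,m}^k - m'_{l,m} y'_{l,m}^k)`, `a = P^(k-1)` (`lev = 0` for `l = m`: `y > Q^(k-1)`,
`y^k > P^(k-1)`), off the diagonal `lev = 1`: `y^k ≤ 2^k P^(k-8)`. It gives
`(8E/P^(k-1))^q ∏_l ∫_{S_l} χ² ≤ (8 P^(1/4)/P^(k-1))^q (C #ZR² P^(1+κ-k))^q` (`FP_energy`; convert to `∫⁻`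
with `ofReal_integral_eq_lintegral_ofReal`). The sum over `c` is at most `(P W1)^(q²)`, the sum over
`b` at most `∏_l (#BR_l W1^T)`.
Total after division by `∏ sr²`, `sr = #ZR #BR/P^k`:
`≤ C P^(1/4) P^(q (#badJ + q + 1/4 + 2 + κ))/∏_l #BR_l`, and `card_BR`, `card_badJ` and `ParR.big` give
`≤ C/P^(k+1)`.
-/

namespace RWar

open Filter Topology MeasureTheory MWg HWar IWar

/-- The set of frequencies of a family. -/
def SS (fl : Bool) (h r : ℕ) : Set ℝ := if fl then TH r else TT r h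

/-- The bound for the modes of a family. -/
noncomputable def Dm (fl : Bool) (r : ℕ) : ℕ := if fl then DD r else 0

theorem SS_meas (fl : Bool) (h r : ℕ) : MeasurableSet (SS fl h r) := by
  unfold SS
  split
  · unfold TH
    exact (measurableSet_lt measurable_const continuous_abs.measurable).inter
      (measurableSet_le continuous_abs.measurable measurable_const)
  · exact TT_meas r h

theorem SS_le {fl : Bool} {h r : ℕ} {θ : ℝ} (hθ : θ ∈ SS fl h r) : |θ| ≤ XX r := by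
  unfold SS at hθ
  split at hθ
  · have h1 : |θ| ≤ 1 / 2 := hθ.2
    have h2 := XX_one r
    linarith
  · exact TT_le hθ

private theorem HighR_transpose {ι κ α : Type} [Fintype ι] [Fintype κ] [DecidableEq ι]
    [DecidableEq κ] [DecidableEq α] (A : ι → κ → Finset α) (f : κ → (ι → α) → ℝ) :
    ∑ b ∈ Fintype.piFinset (fun i => Fintype.piFinset (fun j => A i j)),
      ∏ j, f j (fun i => b i j) =
    ∏ j, ∑ a ∈ Fintype.piFinset (fun i => A i j), f j a := by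
  rw [Finset.prod_univ_sum]
  refine Finset.sum_nbij' (fun b j i => b i j) (fun c i j => c j i) ?_ ?_ ?_ ?_ ?_
  · intro b hb
    simp only [Fintype.mem_piFinset] at hb ⊢
    intro j i
    exact hb i j
  · intro c hc
    simp only [Fintype.mem_piFinset] at hc ⊢
    intro i j
    exact hc j i
  · intros
    rfl
  · intros
    rfl
  · intros
    rfl

/-- The closeness condition for one variable. -/
private def HighR_cond (k : ℕ) {q : ℕ} (E : ℝ) (τ τ' : Fin q → ℝ) (a a' : Fin q → ℕ × ℤ) : Prop :=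
  |∑ l, ((τ l + (a l).2) * ((a l).1 : ℝ) ^ k - (τ' l + (a' l).2) * ((a' l).1 : ℝ) ^ k)| ≤ E

open Classical in
/-- The weight of one variable. -/
private noncomputable def HighR_g (w : ℤ → ℝ) (k : ℕ) {q : ℕ} (E : ℝ) (τ τ' : Fin q → ℝ)
    (a a' : Fin q → ℕ × ℤ) : ℝ :=
  if HighR_cond k E τ τ' a a' then ∏ l, w (a' l).2 else 0

private theorem HighR_g_nonneg {w : ℤ → ℝ} (hw : ∀ m, 0 ≤ w m) (k : ℕ) {q : ℕ} (E : ℝ)
    (τ τ' : Fin q → ℝ) (a a' : Fin q → ℕ × ℤ) : 0 ≤ HighR_g w k E τ τ' a a' := by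
  unfold HighR_g
  split
  · exact Finset.prod_nonneg fun l _ => hw _
  · exact le_rfl

private theorem HighR_g_le {w : ℤ → ℝ} (hw : ∀ m, 0 ≤ w m) (k : ℕ) {q : ℕ} (E : ℝ)
    (τ τ' : Fin q → ℝ) (a a' : Fin q → ℕ × ℤ) :
    HighR_g w k E τ τ' a a' ≤ ∏ l, w (a' l).2 := by
  unfold HighR_g
  split
  · exact le_rfl
  · exact Finset.prod_nonneg fun l _ => hw _

private theorem HighR_good {k q : ℕ} (hk : 5 ≤ k) (hq : 1 ≤ q) {w : ℤ → ℝ} (hw : ∀ m, 0 ≤ w m)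
    (A : Fin q → Finset ℕ) (M : Fin q → Finset ℤ) (X : Fin q → ℝ) (hX : ∀ l, 1 ≤ X l)
    (hA : ∀ l, ∀ y ∈ A l, X l < (y : ℝ) ∧ (y : ℝ) ≤ 2 * X l) {E : ℝ} (hE : 0 ≤ E)
    (τ τ' : Fin q → ℝ) (hω : ∀ l, ∀ m ∈ M l, τ' l + (m : ℝ) ≠ 0)
    (hE1 : ∀ l, ∀ m ∈ M l, E ≤ |τ' l + (m : ℝ)| * X l ^ (k - 1))
    (hdom : ∀ l l', l ≠ l' → ∀ m ∈ M l, ∀ m' ∈ M l',
      (q * (|τ' l' + (m' : ℝ)| * (2 * X l') ^ k) ≤ |τ' l + (m : ℝ)| * X l ^ (k - 1)) ∨
      (q * (|τ' l + (m : ℝ)| * (2 * X l) ^ k) ≤ |τ' l' + (m' : ℝ)| * X l' ^ (k - 1)))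
    (a : Fin q → ℕ × ℤ) :
    ∑ a' ∈ Fintype.piFinset (fun l => A l ×ˢ M l), HighR_g w k E τ τ' a a' ≤
      ∏ l, ∑ m ∈ M l, w m := by
  classical
  unfold HighR_g
  rw [← Finset.sum_filter, Finset.prod_univ_sum]
  have hinj : Set.InjOn (fun (a' : Fin q → ℕ × ℤ) (l : Fin q) => (a' l).2)
      ((Fintype.piFinset (fun l => A l ×ˢ M l)).filter
        (fun a' => HighR_cond k E τ τ' a a') : Set (Fin q → ℕ × ℤ)) := by
    intro x hx y hy hxy
    rw [Finset.mem_coe, Finset.mem_filter] at hx hy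
    obtain ⟨hx1, hx2⟩ := hx
    obtain ⟨hy1, hy2⟩ := hy
    have e : ∀ l, (x l).2 = (y l).2 := fun l => congrFun hxy l
    have hx3 : ∀ l, (x l).1 ∈ A l ∧ (x l).2 ∈ M l := fun l =>
      Finset.mem_product.1 (Fintype.mem_piFinset.1 hx1 l)
    have hy3 : ∀ l, (y l).1 ∈ A l ∧ (y l).2 ∈ M l := fun l =>
      Finset.mem_product.1 (Fintype.mem_piFinset.1 hy1 l)
    have h1 := count_good hk hq X hX (fun l => τ' l + ((x l).2 : ℝ)) (fun l => hω l _ (hx3 l).2)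
      (E := E) (A := ∑ l, (τ l + (a l).2) * ((a l).1 : ℝ) ^ k) hE (fun l => hE1 l _ (hx3 l).2)
      (fun l l' hl => hdom l l' hl _ (hx3 l).2 _ (hx3 l').2)
      (fun l => (x l).1) (fun l => (y l).1) (fun l => hA l _ (hx3 l).1) (fun l => hA l _ (hy3 l).1)
      (by
        unfold HighR_cond at hx2
        rw [Finset.sum_sub_distrib, abs_sub_comm] at hx2
        exact hx2)
      (by
        unfold HighR_cond at hy2
        rw [Finset.sum_sub_distrib, abs_sub_comm] at hy2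
        simp only [e]
        exact hy2)
    funext l
    exact Prod.ext (congrFun h1 l) (e l)
  rw [← Finset.sum_image (f := fun μ : Fin q → ℤ => ∏ l, w (μ l)) hinj]
  refine Finset.sum_le_sum_of_subset_of_nonneg ?_ fun μ _ _ => Finset.prod_nonneg fun l _ => hw _
  intro μ hμ
  obtain ⟨x, hx, rfl⟩ := Finset.mem_image.1 hμ
  rw [Finset.mem_filter] at hx
  rw [Fintype.mem_piFinset]
  intro l
  exact (Finset.mem_product.1 (Fintype.mem_piFinset.1 hx.1 l)).2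

private theorem HighR_bad {k q : ℕ} {w : ℤ → ℝ} (hw : ∀ m, 0 ≤ w m)
    (A : Fin q → Finset ℕ) (M : Fin q → Finset ℤ) (E : ℝ) (τ τ' : Fin q → ℝ)
    (a : Fin q → ℕ × ℤ) :
    ∑ a' ∈ Fintype.piFinset (fun l => A l ×ˢ M l), HighR_g w k E τ τ' a a' ≤
      ∏ l, (((A l).card : ℝ) * ∑ m ∈ M l, w m) := by
  refine (Finset.sum_le_sum fun a' _ => HighR_g_le hw k E τ τ' a a').trans (le_of_eq ?_)
  rw [← Finset.prod_univ_sum (fun l => A l ×ˢ M l) (fun _ x => w x.2)]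
  refine Finset.prod_congr rfl fun l _ => ?_
  rw [Finset.sum_product]
  simp only [Finset.sum_const, nsmul_eq_mul]

open Classical in
private theorem HighR_sumB {k T q : ℕ} (hqT : q ≤ T) {w : ℤ → ℝ} (hw : ∀ m, 0 ≤ w m)
    (A : Fin q → Fin T → Finset ℕ) (M : Fin q → Finset ℤ) (E : ℝ) (τ τ' : Fin q → ℝ)
    (b : Fin q → Fin T → ℕ × ℤ) (U : Fin T → ℝ)
    (hU : ∀ j : Fin T, q ≤ (j : ℕ) → ∑ a' ∈ Fintype.piFinset (fun l => A l j ×ˢ M l),
      HighR_g w k E τ τ' (fun l => b l j) a' ≤ U j) :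
    ∑ b' ∈ Fintype.piFinset (fun l => Fintype.piFinset (fun j => A l j ×ˢ M l)),
      (if ∀ j, HighR_cond k E τ τ' (fun l => b l j) (fun l => b' l j) then
        ∏ l, ∏ j, w (b' l j).2 else 0) ≤
    (∏ j ∈ Finset.univ.filter (fun j : Fin T => ¬ ((j : ℕ) < q)), U j) *
      ∑ c ∈ Fintype.piFinset (fun m : Fin q => Fintype.piFinset
          (fun l => A l (Fin.castLE hqT m) ×ˢ M l)),
        (if ∀ m, HighR_cond k E τ τ' (fun l => b l (Fin.castLE hqT m)) (c m) then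
          ∏ m, ∏ l, w (c m l).2 else 0) := by
  have h1 : ∀ b' : Fin q → Fin T → ℕ × ℤ,
      (if ∀ j, HighR_cond k E τ τ' (fun l => b l j) (fun l => b' l j) then
        ∏ l, ∏ j, w (b' l j).2 else 0) =
      ∏ j, HighR_g w k E τ τ' (fun l => b l j) (fun l => b' l j) := by
    intro b'
    unfold HighR_g
    rw [Finset.prod_ite_zero]
    simp only [Finset.mem_univ, true_imp_iff]
    rw [Finset.prod_comm]
  have h2 : ∀ c : Fin q → Fin q → ℕ × ℤ,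
      (if ∀ m, HighR_cond k E τ τ' (fun l => b l (Fin.castLE hqT m)) (c m) then
          ∏ m, ∏ l, w (c m l).2 else 0) =
      ∏ m, HighR_g w k E τ τ' (fun l => b l (Fin.castLE hqT m)) (c m) := by
    intro c
    unfold HighR_g
    rw [Finset.prod_ite_zero]
    simp only [Finset.mem_univ, true_imp_iff]
  simp only [h1, h2]
  rw [HighR_transpose (fun l j => A l j ×ˢ M l)
    (fun j a => HighR_g w k E τ τ' (fun l => b l j) a),
    ← Finset.prod_univ_sum (fun m : Fin q => Fintype.piFinset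
          (fun l => A l (Fin.castLE hqT m) ×ˢ M l))
      (fun m a => HighR_g w k E τ τ' (fun l => b l (Fin.castLE hqT m)) a),
    ← Finset.prod_filter_mul_prod_filter_not Finset.univ (fun j : Fin T => (j : ℕ) < q), mul_comm]
  have h3 : ∏ j ∈ Finset.univ.filter (fun j : Fin T => (j : ℕ) < q),
      ∑ a ∈ Fintype.piFinset (fun l => A l j ×ˢ M l), HighR_g w k E τ τ' (fun l => b l j) a =
      ∏ m : Fin q, ∑ a ∈ Fintype.piFinset (fun l => A l (Fin.castLE hqT m) ×ˢ M l),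
        HighR_g w k E τ τ' (fun l => b l (Fin.castLE hqT m)) a := by
    symm
    refine Finset.prod_nbij (fun m => Fin.castLE hqT m) ?_ ?_ ?_ ?_
    · intro m _
      rw [Finset.mem_filter]
      exact ⟨Finset.mem_univ _, m.2⟩
    · intro m _ m' _ h
      exact Fin.castLE_injective hqT h
    · intro j hj
      rw [Finset.mem_coe, Finset.mem_filter] at hj
      exact ⟨⟨j, hj.2⟩, Finset.mem_coe.2 (Finset.mem_univ _), Fin.ext rfl⟩
    · intro m _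
      rfl
  rw [h3]
  refine mul_le_mul_of_nonneg_right ?_ ?_
  · refine Finset.prod_le_prod (fun j _ => Finset.sum_nonneg fun a _ => HighR_g_nonneg hw _ _ _ _ _ _)
      fun j hj => ?_
    rw [Finset.mem_filter] at hj
    exact hU j (not_lt.1 hj.2)
  · exact Finset.prod_nonneg fun j _ => Finset.sum_nonneg fun a _ => HighR_g_nonneg hw _ _ _ _ _ _


private theorem HighR_ee_zero : ee 0 = 1 := by
  unfold ee
  simp

private theorem HighR_ee_sum {ι : Type*} (s : Finset ι) (a : ι → ℝ) :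
    ee (∑ i ∈ s, a i) = ∏ i ∈ s, ee (a i) := by
  classical
  induction s using Finset.induction_on with
  | empty => simpa using HighR_ee_zero
  | insert i s hi ih => rw [Finset.sum_insert hi, Finset.prod_insert hi, ee_add, ih]

/-- The letters of a family, with modes. -/
private noncomputable def HighR_B {k T : ℕ} (p : ParR k T) (D l r : ℕ) :
    Finset (Fin T → ℕ × ℤ) :=
  Fintype.piFinset fun j => blR k r (lev p.G p.q l j) ×ˢ Finset.Icc (-(D : ℤ)) D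

private theorem HighR_expand {k T : ℕ} (p : ParR k T) (c : ℤ → ℝ → ℂ) (D l r : ℕ)
    (α : Fin T → ℝ) (θ : ℝ) :
    ∑ b ∈ BR p l r, ∏ j, LL c D (am k α j) θ (b j) =
    ∑ b ∈ HighR_B p D l r, (∏ j, c (b j).2 θ) *
      ee (∑ j, α j * ((θ + (b j).2) * ((b j).1 : ℝ) ^ k)) := by
  unfold BR HighR_B
  rw [← Finset.prod_univ_sum (fun j : Fin T => blR k r (lev p.G p.q l j))
    (fun j y => LL c D (am k α j) θ y)]
  have h1 : ∀ b : Fin T → ℕ × ℤ, (∏ j, c (b j).2 θ) *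
      ee (∑ j, α j * ((θ + (b j).2) * ((b j).1 : ℝ) ^ k)) =
      ∏ j, (c (b j).2 θ * ee (α j * ((θ + (b j).2) * ((b j).1 : ℝ) ^ k))) := by
    intro b
    rw [HighR_ee_sum, Finset.prod_mul_distrib]
  simp only [h1]
  rw [← Finset.prod_univ_sum
    (fun j : Fin T => blR k r (lev p.G p.q l j) ×ˢ Finset.Icc (-(D : ℤ)) D)
    (fun j x => c x.2 θ * ee (α j * ((θ + x.2) * (x.1 : ℝ) ^ k)))]
  refine Finset.prod_congr rfl fun j _ => ?_
  rw [Finset.sum_product]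
  refine Finset.sum_congr rfl fun y _ => ?_
  unfold LL am
  rw [Finset.mul_sum]
  refine Finset.sum_congr rfl fun m _ => ?_
  have e1 : α j * ((θ + m) * (y : ℝ) ^ k) = θ * (α j * (y : ℝ) ^ k) + m * (α j * (y : ℝ) ^ k) := by
    ring
  rw [e1, ee_add]
  ring

/-- The factor which does not depend on the coefficients. -/
private noncomputable def HighR_psi {k T : ℕ} (p : ParR k T) (K : ℝ → ℂ) (c : ℤ → ℝ → ℂ) (r : ℕ)
    (Y : ℝ) (b : Fin T → ℕ × ℤ) (θ : ℝ) : ℂ :=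
  K θ * ee (-(θ * Y)) * FP p r θ * ∏ j, c (b j).2 θ

private noncomputable def HighR_V (k : ℕ) {T : ℕ} (b : Fin T → ℕ × ℤ) (θ : ℝ) (j : Fin T) : ℝ :=
  (θ + (b j).2) * ((b j).1 : ℝ) ^ k

private theorem HighR_psi_meas {k T : ℕ} (p : ParR k T) {K : ℝ → ℂ} (hK : Measurable K)
    {c : ℤ → ℝ → ℂ} (hc : ∀ m, Continuous (c m)) (r : ℕ) (Y : ℝ) (b : Fin T → ℕ × ℤ) :
    Measurable (HighR_psi p K c r Y b) := by
  unfold HighR_psi
  refine ((hK.mul ?_).mul (FP_cont p r).measurable).mul ?_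
  · exact (ee_cont.comp ((continuous_id.mul continuous_const).neg)).measurable
  · exact (continuous_finset_prod _ fun j _ => hc _).measurable

private theorem HighR_V_meas (k : ℕ) {T : ℕ} (b : Fin T → ℕ × ℤ) (j : Fin T) :
    Measurable fun θ => HighR_V k b θ j := by
  unfold HighR_V
  exact ((continuous_id.add continuous_const).mul continuous_const).measurable

private theorem HighR_psi_bound {k T : ℕ} (p : ParR k T) {K : ℝ → ℂ} {CK : ℝ}
    (hCK : ∀ θ, ‖K θ‖ ≤ CK) {c : ℤ → ℝ → ℂ} {w : ℤ → ℝ} {S : Set ℝ}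
    {D : ℕ} (hcb : ∀ m θ, θ ∈ S → |m| ≤ (D : ℤ) → ‖c m θ‖ ≤ w m) {l r : ℕ} (Y : ℝ)
    {b : Fin T → ℕ × ℤ} (hb : b ∈ HighR_B p D l r) {θ : ℝ} (hθ : θ ∈ S) :
    ‖HighR_psi p K c r Y b θ‖ ≤ (∏ j, w (b j).2) * (CK * ‖FP p r θ‖) := by
  unfold HighR_psi
  have h0 : 0 ≤ CK := (norm_nonneg _).trans (hCK 0)
  rw [norm_mul, norm_mul, norm_mul, ee_norm, mul_one, norm_prod, mul_comm]
  have h1 : ∏ j, ‖c (b j).2 θ‖ ≤ ∏ j, w (b j).2 := by
    refine Finset.prod_le_prod (fun _ _ => norm_nonneg _) fun j _ => hcb _ _ hθ ?_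
    unfold HighR_B at hb
    have h2 := (Finset.mem_product.1 (Fintype.mem_piFinset.1 hb j)).2
    rw [abs_le]
    exact Finset.mem_Icc.1 h2
  refine mul_le_mul h1 (mul_le_mul_of_nonneg_right (hCK θ) (norm_nonneg _)) (by positivity)
    ((Finset.prod_nonneg fun _ _ => norm_nonneg _).trans h1)

private theorem HighR_MB {k T : ℕ} (p : ParR k T) {K : ℝ → ℂ} (hK : Measurable K) {CK : ℝ}
    (hCK : ∀ θ, ‖K θ‖ ≤ CK) {c : ℤ → ℝ → ℂ} (hc : ∀ m, Continuous (c m)) {w : ℤ → ℝ} {S : Set ℝ}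
    (hS : MeasurableSet S) (hSf : volume S < ⊤)
    {D : ℕ} (hcb : ∀ m θ, θ ∈ S → |m| ≤ (D : ℤ) → ‖c m θ‖ ≤ w m) (l r : ℕ) (Y : ℝ)
    (α : Fin T → ℝ) :
    MB p S K c D l r (am k α) Y = ∑ b ∈ HighR_B p D l r,
      ∫ θ in S, HighR_psi p K c r Y b θ * ee (∑ j, α j * HighR_V k b θ j) := by
  have h0 : 0 ≤ CK := (norm_nonneg _).trans (hCK 0)
  unfold MB
  simp only [HighR_expand]
  rw [← integral_finset_sum]
  · refine integral_congr_ae (Filter.Eventually.of_forall fun θ => ?_)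
    simp only [HighR_psi, HighR_V]
    rw [Finset.mul_sum]
    refine Finset.sum_congr rfl fun b _ => ?_
    ring
  · intro b hb
    refine Measure.integrableOn_of_bounded (M := (∏ j, w (b j).2) * (CK * ((ZR p r).card : ℝ)))
      hSf.ne ?_ ?_
    · refine Measurable.aestronglyMeasurable ?_
      refine (HighR_psi_meas p hK hc r Y b).mul ?_
      exact ee_cont.measurable.comp (Finset.measurable_sum _ fun j _ =>
        (HighR_V_meas k b j).const_mul _)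
    · refine ae_restrict_of_forall_mem hS fun θ hθ => ?_
      rw [norm_mul, ee_norm, mul_one]
      refine (HighR_psi_bound p hCK hcb Y hb hθ).trans ?_
      have h1 : 0 ≤ ∏ j, w (b j).2 := by
        refine Finset.prod_nonneg fun j _ => ?_
        refine (norm_nonneg (c (b j).2 θ)).trans (hcb _ _ hθ ?_)
        unfold HighR_B at hb
        have h2 := (Finset.mem_product.1 (Fintype.mem_piFinset.1 hb j)).2
        rw [abs_le]
        exact Finset.mem_Icc.1 h2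
      exact mul_le_mul_of_nonneg_left (mul_le_mul_of_nonneg_left (FP_norm p r θ) h0) h1


open Classical in
private theorem HighR_gw_le {d : ℕ} (v : Fin d → ℝ) {E : ℝ} (hE : 0 ≤ E) :
    gw v ≤ Real.exp (-Real.pi * E ^ 2) + (if ∀ j, |v j| ≤ E then 1 else 0) := by
  have hπ := Real.pi_pos
  have h0 : 0 ≤ Real.exp (-Real.pi * E ^ 2) := (Real.exp_pos _).le
  unfold gw
  split
  · have h1 : Real.exp (-Real.pi * ∑ i, v i ^ 2) ≤ 1 := by
      rw [Real.exp_le_one_iff]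
      have : 0 ≤ ∑ i, v i ^ 2 := Finset.sum_nonneg fun i _ => sq_nonneg _
      nlinarith
    linarith
  · rename_i h
    push Not at h
    obtain ⟨j, hj⟩ := h
    rw [add_zero]
    refine Real.exp_le_exp.2 ?_
    have h1 : v j ^ 2 ≤ ∑ i, v i ^ 2 :=
      Finset.single_le_sum (f := fun i => v i ^ 2) (fun i _ => sq_nonneg _) (Finset.mem_univ j)
    have h2 : E ^ 2 ≤ v j ^ 2 := by
      rw [← sq_abs (v j)]
      exact pow_le_pow_left₀ hE hj.le 2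
    nlinarith

open Classical in
private theorem HighR_point {k T q : ℕ} (hqT : q ≤ T) {w : ℤ → ℝ} (hw : ∀ m, 0 ≤ w m)
    (A : Fin q → Fin T → Finset ℕ) (M : Fin q → Finset ℤ) {E : ℝ} (hE : 0 ≤ E)
    (τ τ' : Fin q → ℝ) (χ : ℝ → ℝ) (hχ0 : ∀ θ, 0 ≤ χ θ) {X : ℝ} (hχX : ∀ θ, χ θ ≤ X) {U : ℝ}
    (hU0 : 0 ≤ U)
    (hU : ∀ b : Fin q → Fin T → ℕ × ℤ,
      ∑ b' ∈ Fintype.piFinset (fun l => Fintype.piFinset (fun j => A l j ×ˢ M l)),
        (if ∀ j, HighR_cond k E τ τ' (fun l => b l j) (fun l => b' l j) then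
          ∏ l, ∏ j, w (b' l j).2 else 0) ≤
      U * ∑ c ∈ Fintype.piFinset (fun m : Fin q => Fintype.piFinset
          (fun l => A l (Fin.castLE hqT m) ×ˢ M l)),
        (if ∀ m, HighR_cond k E τ τ' (fun l => b l (Fin.castLE hqT m)) (c m) then
          ∏ m, ∏ l, w (c m l).2 else 0)) :
    ∑ b ∈ Fintype.piFinset (fun l => Fintype.piFinset (fun j => A l j ×ˢ M l)),
      ∑ b' ∈ Fintype.piFinset (fun l => Fintype.piFinset (fun j => A l j ×ˢ M l)),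
        ENNReal.ofReal ((∏ l, ((∏ j, w (b l j).2) * χ (τ l) * ((∏ j, w (b' l j).2) * χ (τ' l)))) *
          gw (fun i => ∑ l, (HighR_V k (b l) (τ l) i - HighR_V k (b' l) (τ' l) i))) ≤
    ENNReal.ofReal (Real.exp (-Real.pi * E ^ 2) *
      ((∑ b ∈ Fintype.piFinset (fun l => Fintype.piFinset (fun j => A l j ×ˢ M l)),
        ∏ l, ∏ j, w (b l j).2) ^ 2 * X ^ (2 * q))) +
    ∑ b ∈ Fintype.piFinset (fun l => Fintype.piFinset (fun j => A l j ×ˢ M l)),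
      ∑ c ∈ Fintype.piFinset (fun m : Fin q => Fintype.piFinset
          (fun l => A l (Fin.castLE hqT m) ×ˢ M l)),
        ENNReal.ofReal (U * ((∏ l, ∏ j, w (b l j).2) * ∏ m, ∏ l, w (c m l).2)) *
          (if ∀ m, HighR_cond k E τ τ' (fun l => b l (Fin.castLE hqT m)) (c m) then
            ENNReal.ofReal (∏ l, (χ (τ l) * χ (τ' l))) else 0) := by
  obtain ⟨𝓑, h𝓑⟩ : ∃ 𝓑 : Finset (Fin q → Fin T → ℕ × ℤ),
    𝓑 = Fintype.piFinset (fun l => Fintype.piFinset (fun j => A l j ×ˢ M l)) := ⟨_, rfl⟩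
  obtain ⟨𝓒, h𝓒⟩ : ∃ 𝓒 : Finset (Fin q → Fin q → ℕ × ℤ),
    𝓒 = Fintype.piFinset (fun m : Fin q => Fintype.piFinset
          (fun l => A l (Fin.castLE hqT m) ×ˢ M l)) := ⟨_, rfl⟩
  obtain ⟨e0, he0⟩ : ∃ e0 : ℝ, e0 = Real.exp (-Real.pi * E ^ 2) := ⟨_, rfl⟩
  obtain ⟨W, hW⟩ : ∃ W : (Fin q → Fin T → ℕ × ℤ) → ℝ, W = fun b => ∏ l, ∏ j, w (b l j).2 :=
    ⟨_, rfl⟩
  obtain ⟨W', hW'⟩ : ∃ W' : (Fin q → Fin q → ℕ × ℤ) → ℝ, W' = fun c => ∏ m, ∏ l, w (c m l).2 :=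
    ⟨_, rfl⟩
  obtain ⟨pc, hpc⟩ : ∃ pc : ℝ, pc = ∏ l, (χ (τ l) * χ (τ' l)) := ⟨_, rfl⟩
  have e1 : ∀ b : Fin q → Fin T → ℕ × ℤ, (∏ l, ∏ j, w (b l j).2) = W b := fun b => by rw [hW]
  have e2 : ∀ c : Fin q → Fin q → ℕ × ℤ, (∏ m, ∏ l, w (c m l).2) = W' c := fun b => by rw [hW']
  have hWn : ∀ b, 0 ≤ W b := fun b => by
    rw [hW]
    exact Finset.prod_nonneg fun l _ => Finset.prod_nonneg fun j _ => hw _
  have hW'n : ∀ b, 0 ≤ W' b := fun b => by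
    rw [hW']
    exact Finset.prod_nonneg fun l _ => Finset.prod_nonneg fun j _ => hw _
  have hpc0 : 0 ≤ pc := by
    rw [hpc]
    exact Finset.prod_nonneg fun l _ => mul_nonneg (hχ0 _) (hχ0 _)
  have hpcX : pc ≤ X ^ (2 * q) := by
    rw [hpc, pow_mul, pow_two]
    calc ∏ l, (χ (τ l) * χ (τ' l)) ≤ ∏ _l : Fin q, (X * X) :=
          Finset.prod_le_prod (fun l _ => mul_nonneg (hχ0 _) (hχ0 _)) fun l _ =>
            mul_le_mul (hχX _) (hχX _) (hχ0 _) ((hχ0 _).trans (hχX (τ l)))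
      _ = (X * X) ^ q := by rw [Finset.prod_const, Finset.card_univ, Fintype.card_fin]
  have he00 : 0 ≤ e0 := by rw [he0]; exact (Real.exp_pos _).le
  simp only [e1, e2] at hU ⊢
  rw [← h𝓑, ← h𝓒, ← he0, ← hpc]
  simp only [← h𝓑, ← h𝓒] at hU
  -- the terms
  have e3 : ∀ b b' : Fin q → Fin T → ℕ × ℤ,
      (∏ l, ((∏ j, w (b l j).2) * χ (τ l) * ((∏ j, w (b' l j).2) * χ (τ' l)))) =
      W b * W b' * pc := by
    intro b b'
    rw [hpc, ← e1 b, ← e1 b', ← Finset.prod_mul_distrib, ← Finset.prod_mul_distrib]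
    exact Finset.prod_congr rfl fun l _ => by ring
  have h1 : ∀ b b' : Fin q → Fin T → ℕ × ℤ,
      (∏ l, ((∏ j, w (b l j).2) * χ (τ l) * ((∏ j, w (b' l j).2) * χ (τ' l)))) *
          gw (fun i => ∑ l, (HighR_V k (b l) (τ l) i - HighR_V k (b' l) (τ' l) i)) ≤
      e0 * pc * (W b * W b') + pc * W b * (if ∀ j, HighR_cond k E τ τ' (fun l => b l j)
        (fun l => b' l j) then W b' else 0) := by
    intro b b'
    rw [e3]
    have h2 := HighR_gw_le (fun i => ∑ l, (HighR_V k (b l) (τ l) i - HighR_V k (b' l) (τ' l) i)) hE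
    rw [← he0] at h2
    have h3 := mul_le_mul_of_nonneg_left h2 (mul_nonneg (mul_nonneg (hWn b) (hWn b')) hpc0)
    refine h3.trans (le_of_eq ?_)
    have h4 : (∀ j, |∑ l, (HighR_V k (b l) (τ l) j - HighR_V k (b' l) (τ' l) j)| ≤ E) ↔
        ∀ j, HighR_cond k E τ τ' (fun l => b l j) (fun l => b' l j) := Iff.rfl
    by_cases h5 : ∀ j, HighR_cond k E τ τ' (fun l => b l j) (fun l => b' l j)
    · rw [if_pos (h4.2 h5), if_pos h5]
      ring
    · rw [if_neg (fun h => h5 (h4.1 h)), if_neg h5]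
      ring
  have h2 : ∑ b ∈ 𝓑, ∑ b' ∈ 𝓑,
      (∏ l, ((∏ j, w (b l j).2) * χ (τ l) * ((∏ j, w (b' l j).2) * χ (τ' l)))) *
          gw (fun i => ∑ l, (HighR_V k (b l) (τ l) i - HighR_V k (b' l) (τ' l) i)) ≤
      e0 * ((∑ b ∈ 𝓑, W b) ^ 2 * X ^ (2 * q)) + ∑ b ∈ 𝓑, ∑ c ∈ 𝓒, U * (W b * W' c) *
        (if ∀ m, HighR_cond k E τ τ' (fun l => b l (Fin.castLE hqT m)) (c m) then pc else 0) := by
    calc _ ≤ ∑ b ∈ 𝓑, ∑ b' ∈ 𝓑, (e0 * pc * (W b * W b') + pc * W b *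
          (if ∀ j, HighR_cond k E τ τ' (fun l => b l j) (fun l => b' l j) then W b' else 0)) :=
          Finset.sum_le_sum fun b _ => Finset.sum_le_sum fun b' _ => h1 b b'
      _ = e0 * pc * (∑ b ∈ 𝓑, W b) ^ 2 + ∑ b ∈ 𝓑, pc * W b * ∑ b' ∈ 𝓑,
          (if ∀ j, HighR_cond k E τ τ' (fun l => b l j) (fun l => b' l j) then W b' else 0) := by
          simp only [Finset.sum_add_distrib, ← Finset.mul_sum]
          rw [sq, Finset.sum_mul]
      _ ≤ e0 * ((∑ b ∈ 𝓑, W b) ^ 2 * X ^ (2 * q)) + ∑ b ∈ 𝓑, ∑ c ∈ 𝓒, U * (W b * W' c) *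
        (if ∀ m, HighR_cond k E τ τ' (fun l => b l (Fin.castLE hqT m)) (c m) then pc else 0) := by
          refine add_le_add ?_ (Finset.sum_le_sum fun b _ => ?_)
          · have h3 : pc * (∑ b ∈ 𝓑, W b) ^ 2 ≤ X ^ (2 * q) * (∑ b ∈ 𝓑, W b) ^ 2 :=
              mul_le_mul_of_nonneg_right hpcX (sq_nonneg _)
            have h4 := mul_le_mul_of_nonneg_left h3 he00
            linarith
          · refine (mul_le_mul_of_nonneg_left (hU b) (mul_nonneg hpc0 (hWn b))).trans (le_of_eq ?_)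
            rw [← mul_assoc, Finset.mul_sum]
            refine Finset.sum_congr rfl fun c _ => ?_
            split
            · ring
            · ring
  have h3 : ∀ b b' : Fin q → Fin T → ℕ × ℤ, 0 ≤
      (∏ l, ((∏ j, w (b l j).2) * χ (τ l) * ((∏ j, w (b' l j).2) * χ (τ' l)))) *
          gw (fun i => ∑ l, (HighR_V k (b l) (τ l) i - HighR_V k (b' l) (τ' l) i)) := by
    intro b b'
    rw [e3]
    exact mul_nonneg (mul_nonneg (mul_nonneg (hWn b) (hWn b')) hpc0) (Real.exp_pos _).le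
  have h4 : ∀ (b : Fin q → Fin T → ℕ × ℤ) (c : Fin q → Fin q → ℕ × ℤ), 0 ≤ U * (W b * W' c) *
        (if ∀ m, HighR_cond k E τ τ' (fun l => b l (Fin.castLE hqT m)) (c m) then pc else 0) := by
    intro b c
    refine mul_nonneg (mul_nonneg hU0 (mul_nonneg (hWn b) (hW'n c))) ?_
    split
    · exact hpc0
    · exact le_rfl
  calc _ = ENNReal.ofReal (∑ b ∈ 𝓑, ∑ b' ∈ 𝓑,
      (∏ l, ((∏ j, w (b l j).2) * χ (τ l) * ((∏ j, w (b' l j).2) * χ (τ' l)))) *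
          gw (fun i => ∑ l, (HighR_V k (b l) (τ l) i - HighR_V k (b' l) (τ' l) i))) := by
        rw [ENNReal.ofReal_sum_of_nonneg fun b _ => Finset.sum_nonneg fun b' _ => h3 b b']
        refine Finset.sum_congr rfl fun b _ => ?_
        rw [ENNReal.ofReal_sum_of_nonneg fun b' _ => h3 b b']
    _ ≤ ENNReal.ofReal (e0 * ((∑ b ∈ 𝓑, W b) ^ 2 * X ^ (2 * q)) +
        ∑ b ∈ 𝓑, ∑ c ∈ 𝓒, U * (W b * W' c) *
        (if ∀ m, HighR_cond k E τ τ' (fun l => b l (Fin.castLE hqT m)) (c m) then pc else 0)) :=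
        ENNReal.ofReal_le_ofReal h2
    _ ≤ _ := by
        refine ENNReal.ofReal_add_le.trans (add_le_add le_rfl (le_of_eq ?_))
        rw [ENNReal.ofReal_sum_of_nonneg fun b _ => Finset.sum_nonneg fun c _ => h4 b c]
        refine Finset.sum_congr rfl fun b _ => ?_
        rw [ENNReal.ofReal_sum_of_nonneg fun c _ => h4 b c]
        refine Finset.sum_congr rfl fun c _ => ?_
        rw [ENNReal.ofReal_mul (mul_nonneg hU0 (mul_nonneg (hWn b) (hW'n c)))]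
        split
        · rfl
        · rw [ENNReal.ofReal_zero]


/-- The set of pairs of frequencies for given letters. -/
private def HighR_set (k : ℕ) {T q : ℕ} (hqT : q ≤ T) (E : ℝ) (b : Fin q → Fin T → ℕ × ℤ)
    (c : Fin q → Fin q → ℕ × ℤ) : Set ((Fin q → ℝ) × (Fin q → ℝ)) :=
  {x | ∀ m, |∑ l, (((b l (Fin.castLE hqT m)).1 : ℝ) ^ k * x.1 l - ((c m l).1 : ℝ) ^ k * x.2 l) +
    (∑ l, (((b l (Fin.castLE hqT m)).2 : ℝ) * ((b l (Fin.castLE hqT m)).1 : ℝ) ^ k -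
      ((c m l).2 : ℝ) * ((c m l).1 : ℝ) ^ k))| ≤ E}

private theorem HighR_set_iff (k : ℕ) {T q : ℕ} (hqT : q ≤ T) (E : ℝ) (b : Fin q → Fin T → ℕ × ℤ)
    (c : Fin q → Fin q → ℕ × ℤ) (τ τ' : Fin q → ℝ) :
    (τ, τ') ∈ HighR_set k hqT E b c ↔
      ∀ m, HighR_cond k E τ τ' (fun l => b l (Fin.castLE hqT m)) (c m) := by
  unfold HighR_set HighR_cond
  rw [Set.mem_setOf_eq]
  refine forall_congr' fun m => ?_
  rw [← Finset.sum_add_distrib]
  have e : ∑ l, (((b l (Fin.castLE hqT m)).1 : ℝ) ^ k * τ l - ((c m l).1 : ℝ) ^ k * τ' l +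
      (((b l (Fin.castLE hqT m)).2 : ℝ) * ((b l (Fin.castLE hqT m)).1 : ℝ) ^ k -
      ((c m l).2 : ℝ) * ((c m l).1 : ℝ) ^ k)) =
      ∑ l, ((τ l + ((b l (Fin.castLE hqT m)).2 : ℝ)) * ((b l (Fin.castLE hqT m)).1 : ℝ) ^ k -
        (τ' l + ((c m l).2 : ℝ)) * ((c m l).1 : ℝ) ^ k) :=
    Finset.sum_congr rfl fun l _ => by ring
  rw [e]

private theorem HighR_set_meas (k : ℕ) {T q : ℕ} (hqT : q ≤ T) (E : ℝ)
    (b : Fin q → Fin T → ℕ × ℤ) (c : Fin q → Fin q → ℕ × ℤ) :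
    MeasurableSet (HighR_set k hqT E b c) := by
  unfold HighR_set
  rw [Set.setOf_forall]
  refine MeasurableSet.iInter fun m => ?_
  refine measurableSet_le ?_ measurable_const
  refine (Continuous.measurable ?_)
  refine continuous_abs.comp ?_
  refine (continuous_finset_sum _ fun l _ => ?_).add continuous_const
  exact (continuous_const.mul ((continuous_apply l).comp continuous_fst)).sub
    (continuous_const.mul ((continuous_apply l).comp continuous_snd))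

/-- The integrand for given letters. -/
private noncomputable def HighR_H (k : ℕ) {T q : ℕ} (hqT : q ≤ T) (E : ℝ) (χ : ℝ → ℝ)
    (b : Fin q → Fin T → ℕ × ℤ) (c : Fin q → Fin q → ℕ × ℤ) :
    (Fin q → ℝ) × (Fin q → ℝ) → ENNReal :=
  Set.indicator (HighR_set k hqT E b c)
    (fun x => ENNReal.ofReal (∏ l, (χ (x.1 l) * χ (x.2 l))))

private theorem HighR_H_meas (k : ℕ) {T q : ℕ} (hqT : q ≤ T) (E : ℝ) {χ : ℝ → ℝ}
    (hχ : Measurable χ) (b : Fin q → Fin T → ℕ × ℤ) (c : Fin q → Fin q → ℕ × ℤ) :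
    Measurable (HighR_H k hqT E χ b c) := by
  unfold HighR_H
  refine Measurable.indicator ?_ (HighR_set_meas k hqT E b c)
  refine (Finset.measurable_prod _ fun l _ => ?_).ennreal_ofReal
  exact (hχ.comp ((measurable_pi_apply l).comp measurable_fst)).mul
    (hχ.comp ((measurable_pi_apply l).comp measurable_snd))

private theorem HighR_vol {q : ℕ} {S : Fin q → Set ℝ} {P : ℝ} (hP : 0 ≤ P)
    (hSP : ∀ l, ∀ θ ∈ S l, |θ| ≤ P) :
    volume (Set.pi Set.univ S) ≤ ENNReal.ofReal ((2 * P) ^ q) := by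
  rw [volume_pi, Measure.pi_pi]
  calc ∏ l, volume (S l) ≤ ∏ _l : Fin q, ENNReal.ofReal (2 * P) := by
        refine Finset.prod_le_prod' fun l _ => ?_
        have h1 : S l ⊆ Set.Icc (-P) P := fun θ hθ => by
          rw [Set.mem_Icc, ← abs_le]
          exact hSP l θ hθ
        refine (measure_mono h1).trans ?_
        rw [Real.volume_Icc]
        refine ENNReal.ofReal_le_ofReal ?_
        linarith
    _ = ENNReal.ofReal ((2 * P) ^ q) := by
        rw [Finset.prod_const, Finset.card_univ, Fintype.card_fin,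
          ENNReal.ofReal_pow (by linarith)]

open Classical in
private theorem HighR_integ {k T q : ℕ} (hq : 1 ≤ q) (hqT : q ≤ T) {w : ℤ → ℝ}
    (hw : ∀ m, 0 ≤ w m) (A : Fin q → Fin T → Finset ℕ) (M : Fin q → Finset ℤ) {E : ℝ}
    (hE : 0 ≤ E) {S : Fin q → Set ℝ} (hS : ∀ l, MeasurableSet (S l)) {P : ℝ} (hP : 0 ≤ P)
    (hSP : ∀ l, ∀ θ ∈ S l, |θ| ≤ P) {χ : ℝ → ℝ} (hχ : Measurable χ) (hχ0 : ∀ θ, 0 ≤ χ θ) {X : ℝ}
    (hχX : ∀ θ, χ θ ≤ X) {U : ℝ} (hU0 : 0 ≤ U)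
    (hU : ∀ τ τ' : Fin q → ℝ, (∀ l, τ l ∈ S l) → (∀ l, τ' l ∈ S l) →
      ∀ b : Fin q → Fin T → ℕ × ℤ,
      ∑ b' ∈ Fintype.piFinset (fun l => Fintype.piFinset (fun j => A l j ×ˢ M l)),
        (if ∀ j, HighR_cond k E τ τ' (fun l => b l j) (fun l => b' l j) then
          ∏ l, ∏ j, w (b' l j).2 else 0) ≤
      U * ∑ c ∈ Fintype.piFinset (fun m : Fin q => Fintype.piFinset
          (fun l => A l (Fin.castLE hqT m) ×ˢ M l)),
        (if ∀ m, HighR_cond k E τ τ' (fun l => b l (Fin.castLE hqT m)) (c m) then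
          ∏ m, ∏ l, w (c m l).2 else 0))
    {a : ℝ} (ha : 0 < a) (hA1 : ∀ m : Fin q, ∀ y ∈ A m (Fin.castLE hqT m), a ≤ (y : ℝ) ^ k)
    (hA2 : ∀ m l : Fin q, m ≠ l → ∀ y ∈ A l (Fin.castLE hqT m), 2 * (q : ℝ) * (y : ℝ) ^ k ≤ a)
    {I : ℝ} (hI0 : 0 ≤ I)
    (hI : ∀ l, ∫⁻ θ in S l, ENNReal.ofReal (χ θ ^ 2) ≤ ENNReal.ofReal I) :
    ∫⁻ τ in Set.pi Set.univ S, ∫⁻ τ' in Set.pi Set.univ S,
      ∑ b ∈ Fintype.piFinset (fun l => Fintype.piFinset (fun j => A l j ×ˢ M l)),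
        ∑ b' ∈ Fintype.piFinset (fun l => Fintype.piFinset (fun j => A l j ×ˢ M l)),
          ENNReal.ofReal ((∏ l, ((∏ j, w (b l j).2) * χ (τ l) * ((∏ j, w (b' l j).2) * χ (τ' l)))) *
          gw (fun i => ∑ l, (HighR_V k (b l) (τ l) i - HighR_V k (b' l) (τ' l) i))) ≤
    ENNReal.ofReal (Real.exp (-Real.pi * E ^ 2) *
      ((∑ b ∈ Fintype.piFinset (fun l => Fintype.piFinset (fun j => A l j ×ˢ M l)),
        ∏ l, ∏ j, w (b l j).2) ^ 2 * X ^ (2 * q)) * ((2 * P) ^ q) ^ 2 +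
      U * ((∑ b ∈ Fintype.piFinset (fun l => Fintype.piFinset (fun j => A l j ×ˢ M l)),
        ∏ l, ∏ j, w (b l j).2) * ∑ c ∈ Fintype.piFinset (fun m : Fin q => Fintype.piFinset
          (fun l => A l (Fin.castLE hqT m) ×ˢ M l)), ∏ m, ∏ l, w (c m l).2) *
        ((8 * E / a) ^ q * I ^ q)) := by
  have hq0 : (0 : ℝ) ≤ q := Nat.cast_nonneg q
  have hSm : MeasurableSet (Set.pi Set.univ S) := MeasurableSet.univ_pi hS
  obtain ⟨𝓑, h𝓑⟩ : ∃ 𝓑 : Finset (Fin q → Fin T → ℕ × ℤ),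
    𝓑 = Fintype.piFinset (fun l => Fintype.piFinset (fun j => A l j ×ˢ M l)) := ⟨_, rfl⟩
  obtain ⟨𝓒, h𝓒⟩ : ∃ 𝓒 : Finset (Fin q → Fin q → ℕ × ℤ),
    𝓒 = Fintype.piFinset (fun m : Fin q => Fintype.piFinset
          (fun l => A l (Fin.castLE hqT m) ×ˢ M l)) := ⟨_, rfl⟩
  have hB : ∀ b ∈ 𝓑, ∀ l j, (b l j).1 ∈ A l j := by
    intro b hb l j
    rw [h𝓑] at hb
    exact (Finset.mem_product.1 (Fintype.mem_piFinset.1 (Fintype.mem_piFinset.1 hb l) j)).1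
  have hC : ∀ c ∈ 𝓒, ∀ m l, (c m l).1 ∈ A l (Fin.castLE hqT m) := by
    intro b hb l j
    rw [h𝓒] at hb
    exact (Finset.mem_product.1 (Fintype.mem_piFinset.1 (Fintype.mem_piFinset.1 hb l) j)).1
  have hWn : ∀ b : Fin q → Fin T → ℕ × ℤ, 0 ≤ ∏ l, ∏ j, w (b l j).2 := fun b =>
    Finset.prod_nonneg fun l _ => Finset.prod_nonneg fun j _ => hw _
  have hW'n : ∀ c : Fin q → Fin q → ℕ × ℤ, 0 ≤ ∏ m, ∏ l, w (c m l).2 := fun b =>
    Finset.prod_nonneg fun l _ => Finset.prod_nonneg fun j _ => hw _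
  have hX0 : 0 ≤ X := (hχ0 0).trans (hχX 0)
  -- the energy
  have hen : ∀ b ∈ 𝓑, ∀ c ∈ 𝓒, ∫⁻ τ in Set.pi Set.univ S, ∫⁻ τ' in Set.pi Set.univ S,
      HighR_H k hqT E χ b c (τ, τ') ≤ ENNReal.ofReal ((8 * E / a) ^ q * I ^ q) := by
    intro b hb c hc
    have h1 := lin_energy hq S hS (fun _ => χ) (fun _ => hχ) (fun _ => hχ0)
      (fun m l => ((b l (Fin.castLE hqT m)).1 : ℝ) ^ k) (fun m l => ((c m l).1 : ℝ) ^ k) ha
      (fun m => ⟨(hA1 m _ (hB b hb m _)).trans (le_abs_self _),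
        (hA1 m _ (hC c hc m m)).trans (le_abs_self _)⟩)
      (fun m l hml => ⟨by
        rw [abs_of_nonneg (by positivity)]
        exact hA2 m l hml _ (hB b hb l _), by
        rw [abs_of_nonneg (by positivity)]
        exact hA2 m l hml _ (hC c hc m l)⟩)
      (fun m => ∑ l, (((b l (Fin.castLE hqT m)).2 : ℝ) * ((b l (Fin.castLE hqT m)).1 : ℝ) ^ k -
      ((c m l).2 : ℝ) * ((c m l).1 : ℝ) ^ k)) hE
    refine (le_of_eq rfl).trans (h1.trans ?_)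
    rw [ENNReal.ofReal_mul (by positivity)]
    refine mul_le_mul_right ?_ _
    rw [ENNReal.ofReal_pow hI0]
    calc ∏ l, ∫⁻ θ in S l, ENNReal.ofReal (χ θ ^ 2) ≤ ∏ _l : Fin q, ENNReal.ofReal I :=
          Finset.prod_le_prod' fun l _ => hI l
      _ = _ := by rw [Finset.prod_const, Finset.card_univ, Fintype.card_fin]
  obtain ⟨c0, hc0⟩ : ∃ c0 : ℝ, c0 = Real.exp (-Real.pi * E ^ 2) *
      ((∑ b ∈ 𝓑, ∏ l, ∏ j, w (b l j).2) ^ 2 * X ^ (2 * q)) := ⟨_, rfl⟩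
  have hc00 : 0 ≤ c0 := by rw [hc0]; positivity
  rw [← h𝓑, ← h𝓒, ← hc0]
  have hpt : ∀ τ ∈ Set.pi Set.univ S, ∀ τ' ∈ Set.pi Set.univ S,
      ∑ b ∈ 𝓑, ∑ b' ∈ 𝓑,
          ENNReal.ofReal ((∏ l, ((∏ j, w (b l j).2) * χ (τ l) * ((∏ j, w (b' l j).2) * χ (τ' l)))) *
          gw (fun i => ∑ l, (HighR_V k (b l) (τ l) i - HighR_V k (b' l) (τ' l) i))) ≤
      ENNReal.ofReal c0 + ∑ b ∈ 𝓑, ∑ c ∈ 𝓒,
        ENNReal.ofReal (U * ((∏ l, ∏ j, w (b l j).2) * ∏ m, ∏ l, w (c m l).2)) *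
          HighR_H k hqT E χ b c (τ, τ') := by
    intro τ hτ τ' hτ'
    have h1 := HighR_point hqT hw A M hE τ τ' χ hχ0 hχX hU0
      (hU τ τ' (fun l => hτ l (Set.mem_univ l)) (fun l => hτ' l (Set.mem_univ l)))
    rw [← h𝓑, ← h𝓒, ← hc0] at h1
    refine h1.trans (le_of_eq ?_)
    congr 1
    refine Finset.sum_congr rfl fun b _ => Finset.sum_congr rfl fun c _ => ?_
    congr 1
    unfold HighR_H
    by_cases h : (τ, τ') ∈ HighR_set k hqT E b c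
    · rw [Set.indicator_of_mem h, if_pos ((HighR_set_iff k hqT E b c τ τ').1 h)]
    · rw [Set.indicator_of_notMem h, if_neg fun h' => h ((HighR_set_iff k hqT E b c τ τ').2 h')]
  refine (setLIntegral_mono' hSm fun τ hτ => setLIntegral_mono' hSm fun τ' hτ' =>
    hpt τ hτ τ' hτ').trans ?_
  have hHm : ∀ b c, Measurable (HighR_H k hqT E χ b c) := fun b c => HighR_H_meas k hqT E hχ b c
  have hHm1 : ∀ b c (τ : Fin q → ℝ), Measurable fun τ' => HighR_H k hqT E χ b c (τ, τ') :=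
    fun b c τ => (hHm b c).comp (measurable_const.prodMk measurable_id)
  have hin : ∀ τ : Fin q → ℝ, ∫⁻ τ' in Set.pi Set.univ S, (ENNReal.ofReal c0 +
      ∑ b ∈ 𝓑, ∑ c ∈ 𝓒,
        ENNReal.ofReal (U * ((∏ l, ∏ j, w (b l j).2) * ∏ m, ∏ l, w (c m l).2)) *
          HighR_H k hqT E χ b c (τ, τ')) = ENNReal.ofReal c0 * volume (Set.pi Set.univ S) +
      ∑ b ∈ 𝓑, ∑ c ∈ 𝓒,
        ENNReal.ofReal (U * ((∏ l, ∏ j, w (b l j).2) * ∏ m, ∏ l, w (c m l).2)) *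
          ∫⁻ τ' in Set.pi Set.univ S, HighR_H k hqT E χ b c (τ, τ') := by
    intro τ
    rw [lintegral_add_left measurable_const, setLIntegral_const]
    congr 1
    rw [lintegral_finset_sum _ fun b _ => Finset.measurable_sum _ fun c _ =>
      (hHm1 b c τ).const_mul _]
    refine Finset.sum_congr rfl fun b _ => ?_
    rw [lintegral_finset_sum _ fun c _ => (hHm1 b c τ).const_mul _]
    refine Finset.sum_congr rfl fun c _ => ?_
    rw [lintegral_const_mul' _ _ ENNReal.ofReal_ne_top]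
  simp only [hin]
  have hHm2 : ∀ b c, Measurable fun τ : Fin q → ℝ =>
      ∫⁻ τ' in Set.pi Set.univ S, HighR_H k hqT E χ b c (τ, τ') :=
    fun b c => (hHm b c).lintegral_prod_right'
  rw [lintegral_add_left measurable_const, setLIntegral_const,
    lintegral_finset_sum _ fun b _ => Finset.measurable_sum _ fun c _ =>
      (hHm2 b c).const_mul _]
  have hv := HighR_vol (q := q) hP hSP
  rw [ENNReal.ofReal_add (by positivity) (by
    have h1 : 0 ≤ ∑ b ∈ 𝓑, ∏ l, ∏ j, w (b l j).2 := Finset.sum_nonneg fun b _ => hWn b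
    have h2 : 0 ≤ ∑ c ∈ 𝓒, ∏ m, ∏ l, w (c m l).2 := Finset.sum_nonneg fun b _ => hW'n b
    positivity)]
  refine add_le_add ?_ ?_
  · rw [ENNReal.ofReal_mul hc00, mul_assoc, sq, ENNReal.ofReal_mul (by positivity)]
    exact mul_le_mul_right (mul_le_mul' hv hv) _
  · calc _ = ∑ b ∈ 𝓑, ∑ c ∈ 𝓒,
        ENNReal.ofReal (U * ((∏ l, ∏ j, w (b l j).2) * ∏ m, ∏ l, w (c m l).2)) *
          ∫⁻ τ in Set.pi Set.univ S, ∫⁻ τ' in Set.pi Set.univ S,
            HighR_H k hqT E χ b c (τ, τ') := by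
          refine Finset.sum_congr rfl fun b _ => ?_
          rw [lintegral_finset_sum _ fun c _ => (hHm2 b c).const_mul _]
          refine Finset.sum_congr rfl fun c _ => ?_
          rw [lintegral_const_mul' _ _ ENNReal.ofReal_ne_top]
      _ ≤ ∑ b ∈ 𝓑, ∑ c ∈ 𝓒,
        ENNReal.ofReal (U * ((∏ l, ∏ j, w (b l j).2) * ∏ m, ∏ l, w (c m l).2)) *
          ENNReal.ofReal ((8 * E / a) ^ q * I ^ q) :=
          Finset.sum_le_sum fun b hb => Finset.sum_le_sum fun c hc =>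
            mul_le_mul_right (hen b hb c hc) _
      _ = ENNReal.ofReal (∑ b ∈ 𝓑, ∑ c ∈ 𝓒,
          U * ((∏ l, ∏ j, w (b l j).2) * ∏ m, ∏ l, w (c m l).2) *
            ((8 * E / a) ^ q * I ^ q)) := by
          have h5 : ∀ (b : Fin q → Fin T → ℕ × ℤ) (c : Fin q → Fin q → ℕ × ℤ),
              0 ≤ U * ((∏ l, ∏ j, w (b l j).2) * ∏ m, ∏ l, w (c m l).2) := fun b c =>
            mul_nonneg hU0 (mul_nonneg (hWn b) (hW'n c))
          have h6 : 0 ≤ (8 * E / a) ^ q * I ^ q := by positivity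
          rw [ENNReal.ofReal_sum_of_nonneg fun b _ => Finset.sum_nonneg fun c _ =>
            mul_nonneg (h5 b c) h6]
          refine Finset.sum_congr rfl fun b _ => ?_
          rw [ENNReal.ofReal_sum_of_nonneg fun c _ => mul_nonneg (h5 b c) h6]
          refine Finset.sum_congr rfl fun c _ => ?_
          rw [ENNReal.ofReal_mul (h5 b c)]
      _ = _ := by
          congr 1
          simp only [← Finset.sum_mul, ← Finset.mul_sum]


/-- The weights of the modes. -/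
private noncomputable def HighR_w (C1 : ℝ) (m : ℤ) : ℝ := C1 / (1 + |(m : ℝ)|)

private theorem HighR_w_pos {C1 : ℝ} (h : 0 < C1) (m : ℤ) : 0 < HighR_w C1 m := by
  unfold HighR_w
  positivity

private noncomputable def HighR_s1 (C1 : ℝ) (D : ℕ) : ℝ :=
  ∑ m ∈ Finset.Icc (-(D : ℤ)) D, HighR_w C1 m

private theorem HighR_Icc (D : ℕ) : Finset.Icc (-((D + 1 : ℕ) : ℤ)) ((D + 1 : ℕ) : ℤ) =
    insert ((D : ℤ) + 1) (insert (-((D : ℤ) + 1)) (Finset.Icc (-(D : ℤ)) D)) := by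
  ext m
  simp only [Finset.mem_Icc, Finset.mem_insert]
  push_cast
  omega

private theorem HighR_s1_aux (D : ℕ) : ∑ m ∈ Finset.Icc (-(D : ℤ)) D, (1 + |(m : ℝ)|)⁻¹ ≤
    2 * ∑ j ∈ Finset.range (D + 1), ((j : ℝ) + 1)⁻¹ := by
  induction D with
  | zero => simp
  | succ D ih =>
    rw [HighR_Icc, Finset.sum_insert, Finset.sum_insert, Finset.sum_range_succ _ (D + 1), mul_add]
    · have e1 : (1 + |(((D : ℤ) + 1 : ℤ) : ℝ)|)⁻¹ = (((D + 1 : ℕ) : ℝ) + 1)⁻¹ := by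
        push_cast
        rw [abs_of_nonneg (by positivity)]
        congr 1
        ring
      have e2 : (1 + |((-((D : ℤ) + 1) : ℤ) : ℝ)|)⁻¹ = (((D + 1 : ℕ) : ℝ) + 1)⁻¹ := by
        rw [← e1]
        push_cast
        rw [abs_neg]
      rw [e1, e2]
      linarith
    · simp only [Finset.mem_Icc]
      omega
    · simp only [Finset.mem_Icc, Finset.mem_insert]
      omega

private theorem HighR_s1_le {C1 : ℝ} (hC1 : 0 < C1) (D : ℕ) :
    HighR_s1 C1 D ≤ 2 * C1 * (1 + Real.log ((D : ℝ) + 1)) := by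
  unfold HighR_s1 HighR_w
  simp only [div_eq_mul_inv]
  rw [← Finset.mul_sum]
  have h1 := HighR_s1_aux D
  have h2 := harmonic_le_one_add_log (D + 1)
  have h3 : ((harmonic (D + 1) : ℚ) : ℝ) = ∑ j ∈ Finset.range (D + 1), ((j : ℝ) + 1)⁻¹ := by
    unfold harmonic
    push_cast
    rfl
  rw [h3] at h2
  push_cast at h2
  calc C1 * ∑ m ∈ Finset.Icc (-(D : ℤ)) D, (1 + |(m : ℝ)|)⁻¹
      ≤ C1 * (2 * (1 + Real.log ((D : ℝ) + 1))) :=
        mul_le_mul_of_nonneg_left (by linarith) hC1.le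
    _ = _ := by ring

private theorem HighR_s1_nonneg {C1 : ℝ} (hC1 : 0 < C1) (D : ℕ) : 0 ≤ HighR_s1 C1 D :=
  Finset.sum_nonneg fun m _ => (HighR_w_pos hC1 m).le

private theorem HighR_s1_DD {C1 : ℝ} (hC1 : 0 < C1) (r : ℕ) :
    HighR_s1 C1 (DD r) ≤ 4 * C1 * ((r : ℝ) + 1) := by
  refine (HighR_s1_le hC1 _).trans ?_
  have hX1 := XX_one r
  have h1 : ((DD r : ℕ) : ℝ) ≤ (XX r) ^ 2 := by
    unfold DD
    refine (Nat.floor_le (Real.rpow_nonneg (by linarith) _)).trans ?_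
    rw [← Real.rpow_natCast]
    exact Real.rpow_le_rpow_of_exponent_le hX1 (by norm_num)
  have h2 : ((DD r : ℕ) : ℝ) + 1 ≤ 2 ^ (2 * r + 1) := by
    have e1 : (2 : ℝ) ^ (2 * r + 1) = 2 * (XX r) ^ 2 := by
      unfold XX
      rw [← pow_mul]
      ring
    rw [e1]
    have : (1 : ℝ) ≤ (XX r) ^ 2 := one_le_pow₀ hX1
    linarith
  have h3 : Real.log (((DD r : ℕ) : ℝ) + 1) ≤ 2 * r + 1 := by
    refine (Real.log_le_log (by positivity) h2).trans ?_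
    rw [Real.log_pow]
    push_cast
    have h4 : Real.log 2 ≤ 1 := by
      have := Real.log_two_lt_d9
      linarith
    have h5 : (0 : ℝ) ≤ 2 * r + 1 := by positivity
    nlinarith
  have h6 : 0 ≤ 2 * C1 := by linarith
  calc 2 * C1 * (1 + Real.log (((DD r : ℕ) : ℝ) + 1)) ≤ 2 * C1 * (1 + (2 * r + 1)) :=
        mul_le_mul_of_nonneg_left (by linarith) h6
    _ = _ := by ring

private theorem HighR_growth {C1 : ℝ} (hC1 : 0 < C1) (N : ℕ) : ∀ᶠ r : ℕ in atTop,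
    (1 + HighR_s1 C1 (DD r)) ^ N ≤ (XX r) ^ ((1 : ℝ) / 4) := by
  obtain ⟨Kc, hKc⟩ : ∃ Kc : ℝ, Kc = (1 + 4 * C1) ^ N := ⟨_, rfl⟩
  have hK0 : 0 < Kc := by rw [hKc]; positivity
  obtain ⟨s, hs⟩ : ∃ s : ℝ, s = 2 ^ ((1 : ℝ) / 4) := ⟨_, rfl⟩
  have hs1 : 1 < s := by
    rw [hs]
    exact Real.one_lt_rpow (by norm_num) (by norm_num)
  have h1 := (tendsto_add_atTop_iff_nat 1).2
    (tendsto_pow_const_div_const_pow_of_one_lt N (r := s) hs1)
  have h2 : ∀ᶠ r : ℕ in atTop, ((r + 1 : ℕ) : ℝ) ^ N / s ^ (r + 1) < 1 / (s * Kc) :=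
    h1.eventually (gt_mem_nhds (by positivity))
  filter_upwards [h2] with r hr
  have h3 := HighR_s1_DD hC1 r
  have h4 := HighR_s1_nonneg hC1 (DD r)
  have hs0 : 0 < s := by linarith
  rw [div_lt_div_iff₀ (by positivity) (by positivity)] at hr
  have h5 : (1 + HighR_s1 C1 (DD r)) ^ N ≤ Kc * ((r : ℝ) + 1) ^ N := by
    rw [hKc, ← mul_pow]
    refine pow_le_pow_left₀ (by linarith) ?_ N
    have : (0 : ℝ) ≤ r := Nat.cast_nonneg r
    nlinarith
  refine h5.trans ?_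
  have e1 : (XX r) ^ ((1 : ℝ) / 4) = s ^ r := by
    unfold XX
    rw [hs, ← Real.rpow_natCast, ← Real.rpow_natCast, ← Real.rpow_mul (by norm_num),
      ← Real.rpow_mul (by norm_num), mul_comm]
  rw [e1]
  push_cast at hr
  rw [pow_succ] at hr
  have h6 : (s * (Kc * ((r : ℝ) + 1) ^ N)) ≤ s * s ^ r := by nlinarith
  exact le_of_mul_le_mul_left h6 hs0

private theorem HighR_s1_zero {C1 : ℝ} (hC1 : 0 < C1) (D : ℕ) :
    HighR_s1 C1 0 ≤ HighR_s1 C1 D := by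
  unfold HighR_s1
  refine Finset.sum_le_sum_of_subset_of_nonneg ?_ fun m _ _ => (HighR_w_pos hC1 m).le
  intro m hm
  rw [Finset.mem_Icc] at hm ⊢
  push_cast at hm
  omega

private theorem HighR_s1_Dm {C1 : ℝ} (hC1 : 0 < C1) (fl : Bool) (r : ℕ) :
    HighR_s1 C1 (Dm fl r) ≤ 1 + HighR_s1 C1 (DD r) := by
  unfold Dm
  split
  · linarith
  · have := HighR_s1_zero hC1 (DD r)
    linarith

private theorem HighR_freq {fl : Bool} {h r : ℕ} (hfl : fl = true → h = 1) (hP2 : 2 ≤ XX r)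
    (hD : 1 / 2 + (DD r : ℝ) ≤ (XX r) ^ ((3 : ℝ) / 2)) {τ : ℝ} (hτ : τ ∈ SS fl h r) {m : ℤ}
    (hm : |m| ≤ (Dm fl r : ℤ)) :
    1 ≤ |τ + m| * (XX r) ^ h ∧ |τ + m| * (XX r) ^ h ≤ (XX r) ^ ((5 : ℝ) / 2) := by
  have hP0 : 0 < XX r := by linarith
  have hP1 : 1 ≤ XX r := by linarith
  cases fl with
  | false =>
    have hm0 : m = 0 := by
      unfold Dm at hm
      simp only [Bool.false_eq_true, if_false, Nat.cast_zero] at hm
      exact abs_nonpos_iff.1 hm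
    unfold SS at hτ
    simp only [Bool.false_eq_true, if_false] at hτ
    have h1 : ((XX r) ^ h)⁻¹ < |τ| := hτ.1
    have h2 : |τ| ≤ XX r / (XX r) ^ h := hτ.2
    have hp : 0 < (XX r) ^ h := by positivity
    rw [hm0, Int.cast_zero, add_zero]
    constructor
    · rw [inv_eq_one_div, div_lt_iff₀ hp] at h1
      exact h1.le
    · rw [le_div_iff₀ hp] at h2
      refine h2.trans ?_
      calc XX r = (XX r) ^ (1 : ℝ) := (Real.rpow_one _).symm
        _ ≤ _ := Real.rpow_le_rpow_of_exponent_le hP1 (by norm_num)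
  | true =>
    have hh := hfl rfl
    subst hh
    unfold SS at hτ
    simp only [if_true] at hτ
    unfold Dm at hm
    simp only [if_true] at hm
    have h1 : (XX r)⁻¹ < |τ| := hτ.1
    have h2 : |τ| ≤ 1 / 2 := hτ.2
    have hm' : |(m : ℝ)| ≤ (DD r : ℝ) := by exact_mod_cast hm
    have hup : |τ + m| ≤ (XX r) ^ ((3 : ℝ) / 2) := by
      refine (abs_add_le _ _).trans ?_
      linarith
    rw [pow_one]
    constructor
    · by_cases hm0 : m = 0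
      · rw [hm0, Int.cast_zero, add_zero]
        rw [inv_eq_one_div, div_lt_iff₀ hP0] at h1
        exact h1.le
      · have h3 : (1 : ℝ) ≤ |(m : ℝ)| := by
          have : (1 : ℤ) ≤ |m| := Int.one_le_abs hm0
          exact_mod_cast this
        have h4 : |(m : ℝ)| ≤ |τ + m| + |τ| := by
          have := abs_add_le (τ + m) (-τ)
          rw [abs_neg] at this
          have e : τ + m + -τ = m := by ring
          rw [e] at this
          exact this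
        have h5 : 1 / 2 ≤ |τ + m| := by linarith
        nlinarith
    · have e : (XX r) ^ ((5 : ℝ) / 2) = (XX r) ^ ((3 : ℝ) / 2) * XX r := by
        rw [← Real.rpow_add_one hP0.ne']
        norm_num
      rw [e]
      exact mul_le_mul_of_nonneg_right hup hP0.le


private theorem HighR_colgood {k T : ℕ} (p : ParR k T) {fl : Fin p.q → Bool} {h : Fin p.q → ℕ}
    (hh : ∀ l, h l ≤ p.u) (hfl : ∀ l, fl l = true → h l = 1) {r : ℕ} (hP2 : 2 ≤ XX r)
    (hD : 1 / 2 + (DD r : ℝ) ≤ (XX r) ^ ((3 : ℝ) / 2))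
    (hq2 : (p.q : ℝ) * 2 ^ k ≤ (XX r) ^ ((1 : ℝ) / 2)) {w : ℤ → ℝ} (hw : ∀ m, 0 ≤ w m)
    {j : Fin T} (hj : p.q ≤ (j : ℕ)) (hjb : j ∉ badJ p.G p.q T h) (τ τ' : Fin p.q → ℝ)
    (hτ' : ∀ l, τ' l ∈ SS (fl l) (h l) r) (a : Fin p.q → ℕ × ℤ) :
    ∑ a' ∈ Fintype.piFinset (fun l : Fin p.q => blR k r (lev p.G p.q l j) ×ˢ
      Finset.Icc (-(Dm (fl l) r : ℤ)) (Dm (fl l) r)),
      HighR_g w k ((XX r) ^ ((1 : ℝ) / 4)) τ τ' a a' ≤
      ∏ l : Fin p.q, ∑ m ∈ Finset.Icc (-(Dm (fl l) r : ℤ)) (Dm (fl l) r), w m := by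
  have hk := p.hk
  have hP0 : 0 < XX r := by linarith
  have hP1 : 1 ≤ XX r := by linarith
  obtain ⟨P, hP⟩ : ∃ P, P = XX r := ⟨_, rfl⟩
  obtain ⟨Q, hQ⟩ : ∃ Q, Q = QK k r := ⟨_, rfl⟩
  have hQk : Q ^ k = P := by rw [hQ, hP]; exact QK_pow (by omega) r
  have hQ1 : 1 ≤ Q := by rw [hQ]; exact QK_one_le r
  have hQ0 : 0 < Q := by linarith
  -- exponents
  have hlev : ∀ l : Fin p.q, lev p.G p.q l j ≤ p.G := fun l => lev_le p l j
  obtain ⟨e, he⟩ : ∃ e : Fin p.q → ℕ, e = fun l : Fin p.q => k - 1 - 7 * lev p.G p.q l j :=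
    ⟨_, rfl⟩
  obtain ⟨s, hs⟩ : ∃ s : Fin p.q → ℕ, s = fun l : Fin p.q => e l - h l - 1 := ⟨_, rfl⟩
  have hu := p.hu
  have hes : ∀ l, e l = s l + h l + 1 ∧ 1 ≤ s l ∧ s l + (h l + 7 * lev p.G p.q l j) + 2 = k := by
    intro l
    have h1 := hlev l
    have h2 := hh l
    rw [hs, he]
    simp only
    omega
  have hX1 : ∀ l, 1 ≤ Q ^ e l := fun l => one_le_pow₀ hQ1
  have hXk : ∀ l, (Q ^ e l) ^ k = P ^ e l := by
    intro l
    rw [← pow_mul, mul_comm, pow_mul, hQk]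
  have hXP : ∀ l, Q ^ e l ≤ P := by
    intro l
    rw [← hQk]
    refine pow_le_pow_right₀ hQ1 ?_
    have := hes l
    omega
  rw [← hP] at hP2 hP0 hP1 hD hq2
  have hf := fun (l : Fin p.q) (m : ℤ)
      (hm : m ∈ Finset.Icc (-(Dm (fl l) r : ℤ)) (Dm (fl l) r)) =>
    HighR_freq (hfl l) (hP ▸ hP2) (hP ▸ hD) (hτ' l) (m := m) (by
      rw [abs_le]
      exact Finset.mem_Icc.1 hm)
  simp only [← hP] at hf
  -- lower bound
  have hlow : ∀ l : Fin p.q, ∀ m ∈ Finset.Icc (-(Dm (fl l) r : ℤ)) (Dm (fl l) r),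
      P ^ s l ≤ |τ' l + (m : ℝ)| * (Q ^ e l) ^ (k - 1) := by
    intro l m hm
    obtain ⟨h1, -⟩ := hf l m hm
    have h2 : (Q ^ e l) ^ (k - 1) * Q ^ e l = P ^ e l := by
      rw [← pow_succ, Nat.sub_add_cancel (by omega), hXk]
    have h3 : P ^ e l ≤ (Q ^ e l) ^ (k - 1) * P := by
      rw [← h2]
      exact mul_le_mul_of_nonneg_left (hXP l) (by positivity)
    have h4 : P ^ e l = P ^ s l * (P ^ h l * P) := by
      rw [(hes l).1, pow_succ, pow_add]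
      ring
    have h5 : P ^ s l * (P ^ h l * P) ≤
        (|τ' l + (m : ℝ)| * (Q ^ e l) ^ (k - 1)) * (P ^ h l * P) := by
      rw [← h4]
      calc P ^ e l ≤ 1 * ((Q ^ e l) ^ (k - 1) * P) := by rw [one_mul]; exact h3
        _ ≤ (|τ' l + (m : ℝ)| * P ^ h l) * ((Q ^ e l) ^ (k - 1) * P) :=
            mul_le_mul_of_nonneg_right h1 (by positivity)
        _ = _ := by ring
    exact le_of_mul_le_mul_right h5 (by positivity)
  -- upper bound
  have hup : ∀ l : Fin p.q, ∀ m ∈ Finset.Icc (-(Dm (fl l) r : ℤ)) (Dm (fl l) r),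
      (p.q : ℝ) * (|τ' l + (m : ℝ)| * (2 * Q ^ e l) ^ k) ≤ P ^ (s l + 4) := by
    intro l m hm
    obtain ⟨-, h1⟩ := hf l m hm
    have h2 : P ^ e l = P ^ (s l + 1) * P ^ h l := by
      rw [(hes l).1, ← pow_add]
      congr 1
      omega
    rw [mul_pow, hXk, h2]
    have h3 : P ^ ((1 : ℝ) / 2) * P ^ ((5 : ℝ) / 2) = P ^ 3 := by
      rw [← Real.rpow_add hP0, ← Real.rpow_natCast]
      norm_num
    calc (p.q : ℝ) * (|τ' l + (m : ℝ)| * (2 ^ k * (P ^ (s l + 1) * P ^ h l))) =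
        ((p.q : ℝ) * 2 ^ k) * (|τ' l + (m : ℝ)| * P ^ h l) * P ^ (s l + 1) := by ring
      _ ≤ (P ^ ((1 : ℝ) / 2) * P ^ ((5 : ℝ) / 2)) * P ^ (s l + 1) := by
          refine mul_le_mul_of_nonneg_right ?_ (by positivity)
          exact mul_le_mul hq2 h1 (by positivity) (by positivity)
      _ = P ^ (s l + 4) := by
          rw [h3, ← pow_add]
          congr 1
          omega
  refine HighR_good hk p.hq hw (fun l : Fin p.q => blR k r (lev p.G p.q l j))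
    (fun l : Fin p.q => Finset.Icc (-(Dm (fl l) r : ℤ)) (Dm (fl l) r)) (fun l => Q ^ e l) hX1
    ?_ (Real.rpow_nonneg hP0.le _ |> fun h => hP ▸ h) τ τ' ?_ ?_ ?_ a
  · intro l y hy
    have h1 := mem_blR hy
    rw [← hQ] at h1
    rw [he]
    exact h1
  · intro l m hm h0
    have h1 := hlow l m hm
    rw [h0, abs_zero, zero_mul] at h1
    have h2 : 0 < P ^ s l := by positivity
    linarith
  · intro l m hm
    refine le_trans ?_ (hlow l m hm)
    rw [← hP]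
    calc P ^ ((1 : ℝ) / 4) ≤ P ^ (1 : ℝ) :=
          Real.rpow_le_rpow_of_exponent_le hP1 (by norm_num)
      _ = P ^ 1 := by rw [Real.rpow_one, pow_one]
      _ ≤ P ^ s l := pow_le_pow_right₀ hP1 (hes l).2.1
  · intro l l' hll m hm m' hm'
    have h1 : ¬ (h l + 7 * lev p.G p.q l j < h l' + 7 * lev p.G p.q l' j + 4 ∧
        h l' + 7 * lev p.G p.q l' j < h l + 7 * lev p.G p.q l j + 4) := by
      intro h2
      apply hjb
      unfold badJ
      rw [Finset.mem_filter]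
      exact ⟨Finset.mem_univ _, hj, l, l', hll, h2⟩
    have h3 := (hes l).2.2
    have h4 := (hes l').2.2
    rcases Nat.lt_or_ge (h l + 7 * lev p.G p.q l j) (h l' + 7 * lev p.G p.q l' j + 4) with h5 | h5
    · left
      have h6 : ¬ (h l' + 7 * lev p.G p.q l' j < h l + 7 * lev p.G p.q l j + 4) :=
        fun h6 => h1 ⟨h5, h6⟩
      refine (hup l' m' hm').trans (le_trans ?_ (hlow l m hm))
      exact pow_le_pow_right₀ hP1 (by omega)
    · right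
      refine (hup l m hm).trans (le_trans ?_ (hlow l' m' hm'))
      exact pow_le_pow_right₀ hP1 (by omega)

private theorem HighR_blR_card {k r i : ℕ} (hk : 1 ≤ k) (hQ : 2 ≤ QK k r) :
    ((blR k r i).card : ℝ) ≤ XX r := by
  have hQ1 : 1 ≤ QK k r := by linarith
  have h1 : blR k r i ⊆ Finset.Icc 1 ⌊XX r⌋₊ := by
    intro y hy
    obtain ⟨h2, h3⟩ := mem_blR hy
    have h4 : 1 ≤ QK k r ^ (k - 1 - 7 * i) := one_le_pow₀ hQ1
    rw [Finset.mem_Icc]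
    constructor
    · have : (0 : ℝ) < (y : ℝ) := by linarith
      exact_mod_cast this
    · refine Nat.le_floor (h3.trans ?_)
      have h5 : QK k r ^ (k - 1 - 7 * i) ≤ QK k r ^ (k - 1) :=
        pow_le_pow_right₀ hQ1 (Nat.sub_le _ _)
      have h6 : QK k r ^ (k - 1) * QK k r = XX r := by
        rw [← pow_succ, Nat.sub_add_cancel hk, QK_pow hk]
      have h7 : 0 ≤ QK k r ^ (k - 1) := by positivity
      nlinarith
  have h2 := Finset.card_le_card h1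
  rw [Nat.card_Icc, Nat.add_sub_cancel] at h2
  calc ((blR k r i).card : ℝ) ≤ (⌊XX r⌋₊ : ℝ) := by exact_mod_cast h2
    _ ≤ XX r := Nat.floor_le (by have := XX_one r; linarith)

private theorem HighR_sum2 {ι κ : Type} [Fintype ι] [Fintype κ] [DecidableEq ι] [DecidableEq κ]
    (w : ℤ → ℝ) (A : ι → κ → Finset ℕ) (M : ι → κ → Finset ℤ) :
    ∑ b ∈ Fintype.piFinset (fun i => Fintype.piFinset (fun j => A i j ×ˢ M i j)),
      ∏ i, ∏ j, w (b i j).2 = ∏ i, ∏ j, (((A i j).card : ℝ) * ∑ m ∈ M i j, w m) := by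
  rw [← Finset.prod_univ_sum (fun i => Fintype.piFinset (fun j => A i j ×ˢ M i j))
    (fun _ b => ∏ j, w (b j).2)]
  refine Finset.prod_congr rfl fun i _ => ?_
  rw [← Finset.prod_univ_sum (fun j => A i j ×ˢ M i j) (fun _ x => w x.2)]
  refine Finset.prod_congr rfl fun j _ => ?_
  rw [Finset.sum_product]
  simp only [Finset.sum_const, nsmul_eq_mul]

private theorem HighR_Uprod {G q T : ℕ} (h : Fin q → ℕ) {a b : ℝ} (ha : 1 ≤ a) (hb : 1 ≤ b) :
    ∏ j ∈ Finset.univ.filter (fun j : Fin T => ¬ ((j : ℕ) < q)),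
      (a * if j ∈ badJ G q T h then b else 1) ≤ a ^ T * b ^ (badJ G q T h).card := by
  rw [Finset.prod_mul_distrib, Finset.prod_const, Finset.prod_ite_mem, Finset.prod_const]
  refine mul_le_mul ?_ ?_ (by positivity) (by positivity)
  · refine pow_le_pow_right₀ ha ?_
    refine (Finset.card_le_univ _).trans ?_
    rw [Fintype.card_fin]
  · exact pow_le_pow_right₀ hb (Finset.card_le_card Finset.inter_subset_right)

open Classical in
private theorem HighR_U {k T : ℕ} (p : ParR k T) {fl : Fin p.q → Bool} {h : Fin p.q → ℕ}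
    (hh : ∀ l, h l ≤ p.u) (hfl : ∀ l, fl l = true → h l = 1) {r : ℕ} (hP2 : 2 ≤ XX r)
    (hQ2 : 2 ≤ QK k r)
    (hD : 1 / 2 + (DD r : ℝ) ≤ (XX r) ^ ((3 : ℝ) / 2))
    (hq2 : (p.q : ℝ) * 2 ^ k ≤ (XX r) ^ ((1 : ℝ) / 2)) {C1 : ℝ} (hC1 : 0 < C1) {W1 : ℝ}
    (hW1 : W1 = 1 + HighR_s1 C1 (DD r)) (τ τ' : Fin p.q → ℝ)
    (hτ' : ∀ l, τ' l ∈ SS (fl l) (h l) r) (b : Fin p.q → Fin T → ℕ × ℤ) :
    ∑ b' ∈ Fintype.piFinset (fun l : Fin p.q => Fintype.piFinset (fun j : Fin T =>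
      blR k r (lev p.G p.q l j) ×ˢ Finset.Icc (-(Dm (fl l) r : ℤ)) (Dm (fl l) r))),
        (if ∀ j, HighR_cond k ((XX r) ^ ((1 : ℝ) / 4)) τ τ' (fun l => b l j)
          (fun l => b' l j) then ∏ l, ∏ j, HighR_w C1 (b' l j).2 else 0) ≤
      ((W1 ^ p.q) ^ T * ((XX r) ^ p.q) ^ (badJ p.G p.q T h).card) *
      ∑ c ∈ Fintype.piFinset (fun m : Fin p.q => Fintype.piFinset
          (fun l : Fin p.q => blR k r (lev p.G p.q l (Fin.castLE p.hqT m)) ×ˢ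
            Finset.Icc (-(Dm (fl l) r : ℤ)) (Dm (fl l) r))),
        (if ∀ m, HighR_cond k ((XX r) ^ ((1 : ℝ) / 4)) τ τ'
          (fun l => b l (Fin.castLE p.hqT m)) (c m) then
          ∏ m, ∏ l, HighR_w C1 (c m l).2 else 0) := by
  have hw : ∀ m, 0 ≤ HighR_w C1 m := fun m => (HighR_w_pos hC1 m).le
  have hP0 : 0 < XX r := by linarith
  have hP1 : 1 ≤ XX r := by linarith
  have hs0 := HighR_s1_nonneg hC1 (DD r)
  have hW11 : 1 ≤ W1 := by rw [hW1]; linarith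
  have hs : ∀ l : Fin p.q, ∑ m ∈ Finset.Icc (-(Dm (fl l) r : ℤ)) (Dm (fl l) r),
      HighR_w C1 m ≤ W1 := by
    intro l
    rw [hW1]
    exact HighR_s1_Dm hC1 (fl l) r
  have hs0' : ∀ l : Fin p.q, 0 ≤ ∑ m ∈ Finset.Icc (-(Dm (fl l) r : ℤ)) (Dm (fl l) r),
      HighR_w C1 m := fun l => Finset.sum_nonneg fun m _ => hw m
  have h1 := HighR_sumB (k := k) p.hqT hw (fun (l : Fin p.q) (j : Fin T) =>
      blR k r (lev p.G p.q l j))
    (fun l => Finset.Icc (-(Dm (fl l) r : ℤ)) (Dm (fl l) r)) ((XX r) ^ ((1 : ℝ) / 4)) τ τ' b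
    (fun j => W1 ^ p.q * if j ∈ badJ p.G p.q T h then (XX r) ^ p.q else 1) (by
      intro j hj
      by_cases hjb : j ∈ badJ p.G p.q T h
      · rw [if_pos hjb]
        refine (HighR_bad hw _ _ _ τ τ' _).trans ?_
        rw [← mul_pow]
        calc ∏ l : Fin p.q, (((blR k r (lev p.G p.q l j)).card : ℝ) *
              ∑ m ∈ Finset.Icc (-(Dm (fl l) r : ℤ)) (Dm (fl l) r), HighR_w C1 m) ≤
            ∏ _l : Fin p.q, (W1 * XX r) := by
              refine Finset.prod_le_prod (fun l _ => mul_nonneg (Nat.cast_nonneg _) (hs0' l))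
                fun l _ => ?_
              rw [mul_comm W1]
              have hk := p.hk
              exact mul_le_mul (HighR_blR_card (by omega) hQ2) (hs l) (hs0' l) hP0.le
          _ = _ := by rw [Finset.prod_const, Finset.card_univ, Fintype.card_fin]
      · rw [if_neg hjb, mul_one]
        refine (HighR_colgood p hh hfl hP2 hD hq2 hw hj hjb τ τ' hτ' _).trans ?_
        calc ∏ l : Fin p.q, (∑ m ∈ Finset.Icc (-(Dm (fl l) r : ℤ)) (Dm (fl l) r),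
              HighR_w C1 m) ≤ ∏ _l : Fin p.q, W1 :=
              Finset.prod_le_prod (fun l _ => hs0' l) fun l _ => hs l
          _ = _ := by rw [Finset.prod_const, Finset.card_univ, Fintype.card_fin])
  refine h1.trans (mul_le_mul_of_nonneg_right ?_ ?_)
  · exact HighR_Uprod h (one_le_pow₀ hW11) (one_le_pow₀ hP1)
  · refine Finset.sum_nonneg fun c _ => ?_
    split
    · exact Finset.prod_nonneg fun m _ => Finset.prod_nonneg fun l _ => hw _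
    · exact le_rfl

private theorem HighR_SW {k T : ℕ} (p : ParR k T) (fl : Fin p.q → Bool) {r : ℕ}
    {C1 : ℝ} (hC1 : 0 < C1) {W1 : ℝ} (hW1 : W1 = 1 + HighR_s1 C1 (DD r)) :
    ∑ b ∈ Fintype.piFinset (fun l : Fin p.q => Fintype.piFinset (fun j : Fin T =>
      blR k r (lev p.G p.q l j) ×ˢ Finset.Icc (-(Dm (fl l) r : ℤ)) (Dm (fl l) r))),
        ∏ l, ∏ j, HighR_w C1 (b l j).2 ≤
      (∏ l : Fin p.q, ((BR p l r).card : ℝ)) * (W1 ^ T) ^ p.q := by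
  have hw : ∀ m, 0 ≤ HighR_w C1 m := fun m => (HighR_w_pos hC1 m).le
  have hs : ∀ l : Fin p.q, ∑ m ∈ Finset.Icc (-(Dm (fl l) r : ℤ)) (Dm (fl l) r),
      HighR_w C1 m ≤ W1 := by
    intro l
    rw [hW1]
    exact HighR_s1_Dm hC1 (fl l) r
  have hs0' : ∀ l : Fin p.q, 0 ≤ ∑ m ∈ Finset.Icc (-(Dm (fl l) r : ℤ)) (Dm (fl l) r),
      HighR_w C1 m := fun l => Finset.sum_nonneg fun m _ => hw m
  rw [HighR_sum2 (HighR_w C1) (fun (l : Fin p.q) (j : Fin T) => blR k r (lev p.G p.q l j))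
    (fun l _ => Finset.Icc (-(Dm (fl l) r : ℤ)) (Dm (fl l) r))]
  calc _ ≤ ∏ l : Fin p.q, (((BR p l r).card : ℝ) * W1 ^ T) := by
        refine Finset.prod_le_prod (fun l _ => Finset.prod_nonneg fun j _ =>
          mul_nonneg (Nat.cast_nonneg _) (hs0' l)) fun l _ => ?_
        rw [Finset.prod_mul_distrib, Finset.prod_const, Finset.card_univ, Fintype.card_fin]
        unfold BR
        rw [Fintype.card_piFinset]
        push_cast
        exact mul_le_mul_of_nonneg_left (pow_le_pow_left₀ (hs0' l) (hs l) T)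
          (Finset.prod_nonneg fun j _ => Nat.cast_nonneg _)
    _ = _ := by
        rw [Finset.prod_mul_distrib, Finset.prod_const, Finset.card_univ, Fintype.card_fin]

private theorem HighR_SC {k T : ℕ} (p : ParR k T) (fl : Fin p.q → Bool) {r : ℕ}
    (hQ2 : 2 ≤ QK k r)
    {C1 : ℝ} (hC1 : 0 < C1) {W1 : ℝ} (hW1 : W1 = 1 + HighR_s1 C1 (DD r)) :
    ∑ c ∈ Fintype.piFinset (fun m : Fin p.q => Fintype.piFinset
          (fun l : Fin p.q => blR k r (lev p.G p.q l (Fin.castLE p.hqT m)) ×ˢ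
            Finset.Icc (-(Dm (fl l) r : ℤ)) (Dm (fl l) r))),
        ∏ m, ∏ l, HighR_w C1 (c m l).2 ≤ ((XX r * W1) ^ p.q) ^ p.q := by
  have hk := p.hk
  have hX1 := XX_one r
  have hw : ∀ m, 0 ≤ HighR_w C1 m := fun m => (HighR_w_pos hC1 m).le
  have hs : ∀ l : Fin p.q, ∑ m ∈ Finset.Icc (-(Dm (fl l) r : ℤ)) (Dm (fl l) r),
      HighR_w C1 m ≤ W1 := by
    intro l
    rw [hW1]
    exact HighR_s1_Dm hC1 (fl l) r
  have hs0' : ∀ l : Fin p.q, 0 ≤ ∑ m ∈ Finset.Icc (-(Dm (fl l) r : ℤ)) (Dm (fl l) r),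
      HighR_w C1 m := fun l => Finset.sum_nonneg fun m _ => hw m
  rw [HighR_sum2 (HighR_w C1) (fun (m l : Fin p.q) =>
      blR k r (lev p.G p.q l (Fin.castLE p.hqT m)))
    (fun _ l => Finset.Icc (-(Dm (fl l) r : ℤ)) (Dm (fl l) r))]
  calc _ ≤ ∏ _m : Fin p.q, ∏ _l : Fin p.q, (XX r * W1) := by
        refine Finset.prod_le_prod (fun m _ => Finset.prod_nonneg fun j _ =>
          mul_nonneg (Nat.cast_nonneg _) (hs0' j)) fun m _ => ?_
        refine Finset.prod_le_prod (fun l _ => mul_nonneg (Nat.cast_nonneg _) (hs0' l))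
          fun l _ => ?_
        exact mul_le_mul (HighR_blR_card (by omega) hQ2) (hs l) (hs0' l) (by linarith)
    _ = _ := by
        rw [Finset.prod_const, Finset.prod_const, Finset.card_univ, Fintype.card_fin]


private theorem HighR_arith2 {k T : ℕ} (p : ParR k T) {P E R Z Bp CK CE W1 c κ : ℝ} {nb : ℕ}
    (hP : 1 ≤ P) (hE : E = P ^ ((1 : ℝ) / 4)) (hκ : κ = (k : ℝ) * (1 - 1 / (k : ℝ)) ^ p.n1)
    (hR : R = P ^ (1 + κ - k)) (hZ : 0 < Z) (hc : 0 < c) (hBp0 : 0 < Bp)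
    (hBp : c ^ p.q * P ^ ((p.q : ℝ) * ((T : ℝ) * (1 - (1 + 7 * (p.G : ℝ)) / k))) ≤ Bp)
    (hCE : 0 < CE) (hW1 : 1 ≤ W1)
    (hWN : W1 ^ (2 * T * p.q + p.q * p.q) ≤ P ^ ((1 : ℝ) / 4))
    (hnb : (nb : ℝ) ≤ (p.q : ℝ) ^ 2 * ((T : ℝ) / p.G + 1)) :
    (W1 ^ p.q) ^ T * (P ^ p.q) ^ nb * (Bp * (W1 ^ T) ^ p.q * ((P * W1) ^ p.q) ^ p.q) *
      ((8 * E / P ^ (k - 1)) ^ p.q * (CK ^ 2 * (CE * Z ^ 2 * R)) ^ p.q) /
      ((Z ^ p.q * Bp) ^ 2 / P ^ (2 * k * p.q)) ≤ (8 * CK ^ 2 * CE / c) ^ p.q / P ^ (k + 1) := by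
  have hk := p.hk
  have hq := p.hq
  have hbig := p.big
  obtain ⟨q, hqd⟩ : ∃ q, q = p.q := ⟨_, rfl⟩
  obtain ⟨n, hnd⟩ : ∃ n, n = k - 1 := ⟨_, rfl⟩
  obtain ⟨eB, heB⟩ : ∃ eB : ℝ, eB = (T : ℝ) * (1 - (1 + 7 * (p.G : ℝ)) / k) := ⟨_, rfl⟩
  rw [← heB] at hbig hBp
  rw [← hκ] at hbig
  rw [← hqd] at hq hbig hBp hWN hnb ⊢
  rw [← hnd]
  have hP0 : 0 < P := by linarith
  have hE0 : 0 < E := by rw [hE]; positivity
  have hR0 : 0 < R := by rw [hR]; positivity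
  have hW0 : 0 < W1 := by linarith
  obtain ⟨F, hF⟩ : ∃ F : ℝ, F = P ^ (2 * k * q) * (P ^ q) ^ nb * (P ^ q) ^ q * E ^ q * R ^ q /
    (P ^ n) ^ q := ⟨_, rfl⟩
  have hF0 : 0 < F := by rw [hF]; positivity
  have h1 : (W1 ^ q) ^ T * (P ^ q) ^ nb * (Bp * (W1 ^ T) ^ q * ((P * W1) ^ q) ^ q) *
      ((8 * E / P ^ n) ^ q * (CK ^ 2 * (CE * Z ^ 2 * R)) ^ q) /
      ((Z ^ q * Bp) ^ 2 / P ^ (2 * k * q)) =
      (8 * CK ^ 2 * CE) ^ q * W1 ^ (2 * T * q + q * q) * F / Bp := by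
    rw [hF]
    have e1 : W1 ^ (2 * T * q + q * q) = (W1 ^ q) ^ T * (W1 ^ T) ^ q * (W1 ^ q) ^ q := by
      rw [← pow_mul, ← pow_mul, ← pow_mul, ← pow_add, ← pow_add]
      congr 1
      ring
    rw [e1]
    simp only [mul_pow, div_pow]
    have e2 : (Z ^ 2) ^ q = (Z ^ q) ^ 2 := by rw [← pow_mul, ← pow_mul, mul_comm]
    rw [e2]
    field_simp
  rw [h1]
  -- the exponent
  have hkc : ((n : ℕ) : ℝ) = (k : ℝ) - 1 := by
    rw [hnd, Nat.cast_sub (by omega)]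
    norm_num
  have hF2 : F = P ^ ((q : ℝ) * (nb + q + 1 / 4 + 2 + κ)) := by
    have f1 : P ^ (2 * k * q) = P ^ (2 * (k : ℝ) * q) := by
      rw [← Real.rpow_natCast]
      push_cast
      rfl
    have f2 : (P ^ q) ^ nb = P ^ ((q : ℝ) * nb) := by
      rw [← pow_mul, ← Real.rpow_natCast]
      push_cast
      rfl
    have f3 : (P ^ q) ^ q = P ^ ((q : ℝ) * q) := by
      rw [← pow_mul, ← Real.rpow_natCast]
      push_cast
      rfl
    have f4 : E ^ q = P ^ ((1 : ℝ) / 4 * q) := by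
      rw [hE, ← Real.rpow_natCast, ← Real.rpow_mul hP0.le]
    have f5 : R ^ q = P ^ ((1 + κ - k) * q) := by
      rw [hR, ← Real.rpow_natCast, ← Real.rpow_mul hP0.le]
    have f6 : (P ^ n) ^ q = P ^ (((k : ℝ) - 1) * q) := by
      rw [← pow_mul, ← Real.rpow_natCast]
      push_cast
      rw [hkc]
    rw [hF, f1, f2, f3, f4, f5, f6, ← Real.rpow_add hP0, ← Real.rpow_add hP0, ← Real.rpow_add hP0,
      ← Real.rpow_add hP0, ← Real.rpow_sub hP0]
    congr 1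
    ring
  have h2 : W1 ^ (2 * T * q + q * q) * F / Bp ≤ 1 / (c ^ q * P ^ (k + 1)) := by
    have hq1 : (1 : ℝ) ≤ q := by exact_mod_cast hq
    have h3 : W1 ^ (2 * T * q + q * q) * F ≤ P ^ ((1 : ℝ) / 4) *
        P ^ ((q : ℝ) * (nb + q + 1 / 4 + 2 + κ)) := by
      rw [← hF2]
      exact mul_le_mul_of_nonneg_right hWN hF0.le
    rw [← Real.rpow_add hP0] at h3
    have h4 : P ^ ((1 : ℝ) / 4 + (q : ℝ) * (nb + q + 1 / 4 + 2 + κ)) * P ^ ((k : ℝ) + 1) ≤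
        P ^ ((q : ℝ) * eB) := by
      rw [← Real.rpow_add hP0]
      refine Real.rpow_le_rpow_of_exponent_le hP ?_
      have h5 : (q : ℝ) * nb ≤ q * ((q : ℝ) ^ 2 * ((T : ℝ) / p.G + 1)) :=
        mul_le_mul_of_nonneg_left hnb (by linarith)
      have h6 : (q : ℝ) * (κ + q + q ^ 2 * ((T : ℝ) / p.G + 1) + 6) + (k + 1) ≤ q * eB := hbig
      nlinarith
    have h7 : P ^ ((k : ℝ) + 1) = P ^ (k + 1) := by
      rw [← Real.rpow_natCast]
      push_cast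
      rfl
    rw [h7] at h4
    rw [div_le_div_iff₀ hBp0 (by positivity), one_mul]
    calc W1 ^ (2 * T * q + q * q) * F * (c ^ q * P ^ (k + 1)) ≤
          P ^ ((1 : ℝ) / 4 + (q : ℝ) * (nb + q + 1 / 4 + 2 + κ)) * (c ^ q * P ^ (k + 1)) :=
          mul_le_mul_of_nonneg_right h3 (by positivity)
      _ = c ^ q * (P ^ ((1 : ℝ) / 4 + (q : ℝ) * (nb + q + 1 / 4 + 2 + κ)) * P ^ (k + 1)) := by
          ring
      _ ≤ c ^ q * P ^ ((q : ℝ) * eB) := mul_le_mul_of_nonneg_left h4 (by positivity)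
      _ ≤ Bp := hBp
  calc (8 * CK ^ 2 * CE) ^ q * W1 ^ (2 * T * q + q * q) * F / Bp =
        (8 * CK ^ 2 * CE) ^ q * (W1 ^ (2 * T * q + q * q) * F / Bp) := by ring
    _ ≤ (8 * CK ^ 2 * CE) ^ q * (1 / (c ^ q * P ^ (k + 1))) :=
        mul_le_mul_of_nonneg_left h2 (by positivity)
    _ = _ := by
        rw [div_pow]
        field_simp

private theorem HighR_arith1 {k T : ℕ} (p : ParR k T) {P E Z Bp CK W1 : ℝ}
    (hP : 1 ≤ P) (hE : E = P ^ ((1 : ℝ) / 4)) (hZ : 0 < Z) (hBp0 : 0 < Bp) (hW1 : 1 ≤ W1)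
    (hWN : W1 ^ (2 * T * p.q + p.q * p.q) ≤ P ^ ((1 : ℝ) / 4))
    (hex : P ^ (2 * p.q + 2 * k * p.q + 1 + (k + 1)) * Real.exp (-Real.pi * P ^ ((1 : ℝ) / 2)) ≤ 1) :
    Real.exp (-Real.pi * E ^ 2) * ((Bp * (W1 ^ T) ^ p.q) ^ 2 * (CK * Z) ^ (2 * p.q)) *
      ((2 * P) ^ p.q) ^ 2 / ((Z ^ p.q * Bp) ^ 2 / P ^ (2 * k * p.q)) ≤
      (2 * CK) ^ (2 * p.q) / P ^ (k + 1) := by
  obtain ⟨q, hqd⟩ : ∃ q, q = p.q := ⟨_, rfl⟩
  rw [← hqd] at hWN hex ⊢
  have hP0 : 0 < P := by linarith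
  have hE2 : E ^ 2 = P ^ ((1 : ℝ) / 2) := by
    rw [hE, ← Real.rpow_natCast, ← Real.rpow_mul hP0.le]
    norm_num
  rw [hE2]
  obtain ⟨x, hx⟩ : ∃ x : ℝ, x = Real.exp (-Real.pi * P ^ ((1 : ℝ) / 2)) := ⟨_, rfl⟩
  rw [← hx] at hex ⊢
  have hx0 : 0 < x := by rw [hx]; exact Real.exp_pos _
  have hW0 : 0 < W1 := by linarith
  have h1 : x * ((Bp * (W1 ^ T) ^ q) ^ 2 * (CK * Z) ^ (2 * q)) *
      ((2 * P) ^ q) ^ 2 / ((Z ^ q * Bp) ^ 2 / P ^ (2 * k * q)) =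
      (2 * CK) ^ (2 * q) * (W1 ^ (2 * T * q) * (P ^ (2 * q) * P ^ (2 * k * q)) * x) := by
    have e1 : W1 ^ (2 * T * q) = ((W1 ^ T) ^ q) ^ 2 := by
      rw [← pow_mul, ← pow_mul]
      congr 1
      ring
    have e2 : Z ^ (2 * q) = (Z ^ q) ^ 2 := by rw [← pow_mul, mul_comm]
    have e3 : (2 : ℝ) ^ (2 * q) = (2 ^ q) ^ 2 := by rw [← pow_mul, mul_comm]
    have e4 : P ^ (2 * q) = (P ^ q) ^ 2 := by rw [← pow_mul, mul_comm]
    simp only [mul_pow]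
    rw [e1, e2, e3, e4]
    field_simp
  rw [h1]
  have h2 : W1 ^ (2 * T * q) ≤ P := by
    calc W1 ^ (2 * T * q) ≤ W1 ^ (2 * T * q + q * q) := pow_le_pow_right₀ hW1 (by omega)
      _ ≤ P ^ ((1 : ℝ) / 4) := hWN
      _ ≤ P ^ (1 : ℝ) := Real.rpow_le_rpow_of_exponent_le hP (by norm_num)
      _ = P := Real.rpow_one P
  have h3 : W1 ^ (2 * T * q) * (P ^ (2 * q) * P ^ (2 * k * q)) * x ≤ 1 / P ^ (k + 1) := by
    rw [le_div_iff₀ (by positivity)]
    calc W1 ^ (2 * T * q) * (P ^ (2 * q) * P ^ (2 * k * q)) * x * P ^ (k + 1) ≤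
          P * (P ^ (2 * q) * P ^ (2 * k * q)) * x * P ^ (k + 1) := by gcongr
      _ = P ^ (2 * q + 2 * k * q + 1 + (k + 1)) * x := by
          rw [pow_add P (2 * q + 2 * k * q + 1), pow_add P (2 * q + 2 * k * q) 1,
            pow_add P (2 * q)]
          ring
      _ ≤ 1 := hex
  have h4 : 0 ≤ (2 * CK) ^ (2 * q) := by
    rw [pow_mul]
    positivity
  calc _ ≤ (2 * CK) ^ (2 * q) * (1 / P ^ (k + 1)) := mul_le_mul_of_nonneg_left h3 h4
    _ = _ := by ring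

private theorem HighR_ev_exp (a : ℕ) : ∀ᶠ r : ℕ in atTop,
    (XX r) ^ a * Real.exp (-Real.pi * (XX r) ^ ((1 : ℝ) / 2)) ≤ 1 := by
  have h1 := Real.tendsto_pow_mul_exp_neg_atTop_nhds_zero (2 * a)
  have h2 : ∀ᶠ x : ℝ in atTop, x ^ (2 * a) * Real.exp (-x) < 1 :=
    h1.eventually (gt_mem_nhds one_pos)
  have h3 : Tendsto (fun r : ℕ => (XX r) ^ ((1 : ℝ) / 2)) atTop atTop :=
    (tendsto_rpow_atTop (by norm_num)).comp XX_tendsto
  filter_upwards [h3.eventually h2] with r hr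
  have hP0 := XX_pos r
  have e1 : ((XX r) ^ ((1 : ℝ) / 2)) ^ (2 * a) = (XX r) ^ a := by
    rw [pow_mul, ← Real.rpow_natCast ((XX r) ^ ((1 : ℝ) / 2)) 2, ← Real.rpow_mul hP0.le]
    norm_num
  rw [e1] at hr
  refine le_trans ?_ hr.le
  refine mul_le_mul_of_nonneg_left ?_ (by positivity)
  refine Real.exp_le_exp.2 ?_
  have h4 := Real.pi_gt_three
  have h5 : 0 ≤ (XX r) ^ ((1 : ℝ) / 2) := Real.rpow_nonneg hP0.le _
  nlinarith

private theorem HighR_ev_rpow (A : ℝ) {e : ℝ} (he : 0 < e) : ∀ᶠ r : ℕ in atTop,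
    A ≤ (XX r) ^ e :=
  ((tendsto_rpow_atTop he).comp XX_tendsto).eventually_ge_atTop A

private theorem HighR_ev_DD : ∀ᶠ r : ℕ in atTop,
    1 / 2 + (DD r : ℝ) ≤ (XX r) ^ ((3 : ℝ) / 2) := by
  filter_upwards [HighR_ev_rpow 2 (e := 1 / 6) (by norm_num)] with r hr
  have hP0 := XX_pos r
  have hP1 := XX_ge_one r
  have h1 : ((DD r : ℕ) : ℝ) ≤ (XX r) ^ ((4 : ℝ) / 3) := by
    unfold DD
    exact Nat.floor_le (Real.rpow_nonneg hP0.le _)
  have h2 : (XX r) ^ ((3 : ℝ) / 2) = (XX r) ^ ((1 : ℝ) / 6) * (XX r) ^ ((4 : ℝ) / 3) := by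
    rw [← Real.rpow_add hP0]
    norm_num
  have h3 : 1 ≤ (XX r) ^ ((4 : ℝ) / 3) := Real.one_le_rpow hP1 (by norm_num)
  rw [h2]
  nlinarith


private theorem HighR_I {k T : ℕ} (p : ParR k T) {S : Set ℝ} (hS : MeasurableSet S)
    (hSf : volume S < ⊤) {r : ℕ} {CK B : ℝ} (hCK : 0 ≤ CK) (h : ∫ θ in S, ‖FP p r θ‖ ^ 2 ≤ B) :
    ∫⁻ θ in S, ENNReal.ofReal ((CK * ‖FP p r θ‖) ^ 2) ≤ ENNReal.ofReal (CK ^ 2 * B) := by
  have h1 : IntegrableOn (fun θ => (CK * ‖FP p r θ‖) ^ 2) S := by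
    refine Measure.integrableOn_of_bounded (M := (CK * ((ZR p r).card : ℝ)) ^ 2) hSf.ne ?_ ?_
    · exact ((continuous_const.mul (FP_cont p r).norm).pow 2).measurable.aestronglyMeasurable
    · refine ae_restrict_of_forall_mem hS fun θ _ => ?_
      rw [Real.norm_eq_abs, abs_of_nonneg (by positivity)]
      exact pow_le_pow_left₀ (by positivity)
        (mul_le_mul_of_nonneg_left (FP_norm p r θ) hCK) 2
  rw [← ofReal_integral_eq_lintegral_ofReal h1 (ae_of_all _ fun θ => sq_nonneg _)]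
  refine ENNReal.ofReal_le_ofReal ?_
  simp only [mul_pow]
  rw [integral_const_mul]
  exact mul_le_mul_of_nonneg_left h (sq_nonneg _)

theorem highR {k T : ℕ} (p : ParR k T) (fl : Fin p.q → Bool) (h : Fin p.q → ℕ)
    (hh : ∀ l, h l ≤ p.u) (hfl : ∀ l, fl l = true → h l = 1) (K : Fin p.q → ℕ → ℝ → ℂ)
    (hK : ∀ l r, Measurable (K l r)) {CK : ℝ} (hCK : ∀ l r θ, ‖K l r θ‖ ≤ CK)
    (c : Fin p.q → ℕ → ℤ → ℝ → ℂ) (hc : ∀ l r m, Continuous (c l r m)) {Cc : ℝ}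
    (hcb : ∀ l r m θ, θ ∈ SS (fl l) (h l) r → |m| ≤ (Dm (fl l) r : ℤ) →
      ‖c l r m θ‖ ≤ Cc / (1 + |(m : ℝ)|)) :
    ∃ C : ℝ, 0 < C ∧ ∀ᶠ r : ℕ in atTop, ∀ Y : ℝ,
      ∫⁻ α : Fin T → ℝ, ENNReal.ofReal (gw α * ∏ l : Fin p.q,
        (‖MB p (SS (fl l) (h l) r) (K l r) (c l r) (Dm (fl l) r) l r (am k α) Y‖ /
          sr p l r) ^ 2) ≤
      ENNReal.ofReal (C / (XX r) ^ (k + 1)) := by
  have hk := p.hk
  have hq := p.hq
  have hu := p.hu
  have hG2 := p.hG.two_le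
  have hCK0 : 0 ≤ CK := (norm_nonneg _).trans (hCK ⟨0, hq⟩ 0 0)
  obtain ⟨C1, hC1d⟩ : ∃ C1 : ℝ, C1 = max Cc 1 := ⟨_, rfl⟩
  have hC1 : 0 < C1 := by
    rw [hC1d]
    exact lt_of_lt_of_le one_pos (le_max_right _ _)
  have hcb' : ∀ l r m θ, θ ∈ SS (fl l) (h l) r → |m| ≤ (Dm (fl l) r : ℤ) →
      ‖c l r m θ‖ ≤ HighR_w C1 m := by
    intro l r m θ hθ hm
    refine (hcb l r m θ hθ hm).trans ?_
    unfold HighR_w
    rw [hC1d]
    exact div_le_div_of_nonneg_right (le_max_left _ _) (by positivity)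
  obtain ⟨CE, hCE, hen⟩ := FP_energy p
  obtain ⟨c0, hc0, hcard⟩ := card_BR p
  refine ⟨(2 * CK) ^ (2 * p.q) + (8 * CK ^ 2 * CE / c0) ^ p.q + 1, ?_, ?_⟩
  · have : 0 ≤ (2 * CK) ^ (2 * p.q) := by positivity
    have : 0 ≤ (8 * CK ^ 2 * CE / c0) ^ p.q := by positivity
    linarith
  filter_upwards [hen, hcard, sr_pos p, HighR_growth hC1 (2 * T * p.q + p.q * p.q),
    HighR_ev_exp (2 * p.q + 2 * k * p.q + 1 + (k + 1)), HighR_ev_DD,
    HighR_ev_rpow ((p.q : ℝ) * 2 ^ k) (e := 1 / 2) (by norm_num),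
    HighR_ev_rpow (2 * (p.q : ℝ) * 2 ^ k) (e := 7) (by norm_num),
    XX_tendsto.eventually_ge_atTop 2,
    (QK_tendsto (k := k) (by omega)).eventually_ge_atTop 2]
    with r hen hcard hsr hgr hex hD hq2 hq7 hP2 hQ2 Y
  obtain ⟨P, hP⟩ : ∃ P, P = XX r := ⟨_, rfl⟩
  have hP0 : 0 < P := by rw [hP]; linarith
  have hP1 : 1 ≤ P := by rw [hP]; linarith
  obtain ⟨W1, hW1⟩ : ∃ W1 : ℝ, W1 = 1 + HighR_s1 C1 (DD r) := ⟨_, rfl⟩
  have hs0 := HighR_s1_nonneg hC1 (DD r)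
  have hW11 : 1 ≤ W1 := by rw [hW1]; linarith
  rw [← hW1] at hgr
  have hw : ∀ m, 0 ≤ HighR_w C1 m := fun m => (HighR_w_pos hC1 m).le
  obtain ⟨Z, hZ⟩ : ∃ Z : ℝ, Z = ((ZR p r).card : ℝ) := ⟨_, rfl⟩
  have hZ0 : 0 < Z := by rw [hZ]; exact (hsr 0).2.1
  obtain ⟨Bp, hBp⟩ : ∃ Bp : ℝ, Bp = ∏ l : Fin p.q, ((BR p l r).card : ℝ) := ⟨_, rfl⟩
  have hBp0 : 0 < Bp := by
    rw [hBp]
    exact Finset.prod_pos fun l _ => (hsr l).2.2
  obtain ⟨κ, hκ⟩ : ∃ κ : ℝ, κ = (k : ℝ) * (1 - 1 / (k : ℝ)) ^ p.n1 := ⟨_, rfl⟩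
  obtain ⟨R, hR⟩ : ∃ R : ℝ, R = P ^ (1 + κ - k) := ⟨_, rfl⟩
  have hR0 : 0 < R := by rw [hR]; positivity
  obtain ⟨E, hE⟩ : ∃ E : ℝ, E = P ^ ((1 : ℝ) / 4) := ⟨_, rfl⟩
  have hE0 : 0 < E := by rw [hE]; positivity
  have hBpl : c0 ^ p.q * P ^ ((p.q : ℝ) * ((T : ℝ) * (1 - (1 + 7 * (p.G : ℝ)) / k))) ≤ Bp := by
    have h1 : ∏ l : Fin p.q, (c0 * P ^ ((T : ℝ) * (1 - (1 + 7 * (p.G : ℝ)) / k))) ≤ Bp := by
      rw [hBp, hP]
      exact Finset.prod_le_prod (fun l _ => by positivity) fun l _ => (hcard l).1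
    rw [Finset.prod_const, Finset.card_univ, Fintype.card_fin, mul_pow,
      ← Real.rpow_natCast (P ^ ((T : ℝ) * (1 - (1 + 7 * (p.G : ℝ)) / k))),
      ← Real.rpow_mul hP0.le, mul_comm _ (p.q : ℝ)] at h1
    exact h1
  have hSm : ∀ l, MeasurableSet (SS (fl l) (h l) r) := fun l => SS_meas _ _ _
  have hSP : ∀ l, ∀ θ ∈ SS (fl l) (h l) r, |θ| ≤ P := fun l θ hθ => by rw [hP]; exact SS_le hθ
  have hSf : ∀ l, volume (SS (fl l) (h l) r) < ⊤ := by
    intro l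
    have h1 : SS (fl l) (h l) r ⊆ Set.Icc (-P) P := fun θ hθ => by
      rw [Set.mem_Icc, ← abs_le]
      exact hSP l θ hθ
    exact (measure_mono h1).trans_lt measure_Icc_lt_top
  -- the sets of letters
  obtain ⟨A, hA⟩ : ∃ A : Fin p.q → Fin T → Finset ℕ, A = fun (l : Fin p.q) (j : Fin T) =>
    blR k r (lev p.G p.q l j) := ⟨_, rfl⟩
  obtain ⟨M, hM⟩ : ∃ M : Fin p.q → Finset ℤ,
    M = fun l => Finset.Icc (-(Dm (fl l) r : ℤ)) (Dm (fl l) r) := ⟨_, rfl⟩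
  -- Gauss
  have hgauss := gaussG (d := T) (fun l : Fin p.q => HighR_B p (Dm (fl l) r) l r)
    (fun l => SS (fl l) (h l) r) hSm (R := P) hSP
    (fun l b => HighR_psi p (K l r) (c l r) r Y b)
    (fun l b => HighR_psi_meas p (hK l r) (hc l r) r Y b)
    (fun _ b => ∏ j, HighR_w C1 (b j).2)
    (fun _ b => Finset.prod_nonneg fun j _ => hw _)
    (fun _ θ => CK * ‖FP p r θ‖)
    (fun _ => (continuous_const.mul (FP_cont p r).norm).measurable)
    (fun _ θ => by positivity) (B := CK * Z)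
    (fun _ θ => by rw [hZ]; exact mul_le_mul_of_nonneg_left (FP_norm p r θ) hCK0)
    (fun l b hb θ hθ => HighR_psi_bound p (hCK l r) (fun m θ' hθ' hm => hcb' l r m θ' hθ' hm) Y
      hb hθ)
    (fun _ b θ j => HighR_V k b θ j) (fun _ b j => HighR_V_meas k b j)
  have hinteg := HighR_integ (k := k) hq p.hqT hw A M (E := E) hE0.le hSm hP0.le hSP
    (χ := fun θ => CK * ‖FP p r θ‖)
    (continuous_const.mul (FP_cont p r).norm).measurable (fun θ => by positivity) (X := CK * Z)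
    (fun θ => by rw [hZ]; exact mul_le_mul_of_nonneg_left (FP_norm p r θ) hCK0)
    (U := (W1 ^ p.q) ^ T * (P ^ p.q) ^ (badJ p.G p.q T h).card) (by positivity)
    (fun τ τ' _ hτ' b => by
      rw [hA, hM, hP, hE, hP]
      exact HighR_U p hh hfl hP2 hQ2 hD hq2 hC1 hW1 τ τ' hτ' b)
    (a := P ^ (k - 1)) (by positivity)
    (by
      intro m y hy
      rw [hA] at hy
      have h1 : lev p.G p.q m (Fin.castLE p.hqT m) = 0 := by
        have h0 : ((Fin.castLE p.hqT m : Fin T) : ℕ) = (m : ℕ) := rfl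
        unfold lev
        rw [h0, if_pos m.2, if_pos rfl]
      simp only [h1] at hy
      have h2 := (mem_blR hy).1
      rw [mul_zero, Nat.sub_zero] at h2
      have hQ1 := QK_one_le (k := k) r
      calc P ^ (k - 1) = (QK k r ^ (k - 1)) ^ k := by
            rw [← pow_mul, mul_comm, pow_mul, QK_pow (by omega), hP]
        _ ≤ (y : ℝ) ^ k := pow_le_pow_left₀ (by positivity) h2.le k)
    (by
      intro m l hml y hy
      rw [hA] at hy
      have h1 : lev p.G p.q l (Fin.castLE p.hqT m) = 1 := by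
        have h0 : ((Fin.castLE p.hqT m : Fin T) : ℕ) = (m : ℕ) := rfl
        unfold lev
        rw [h0, if_pos m.2, if_neg]
        intro h2
        exact hml (Fin.ext h2)
      simp only [h1] at hy
      have h2 := (mem_blR hy).2
      have hQ1 := QK_one_le (k := k) r
      have h3 : (y : ℝ) ^ k ≤ 2 ^ k * P ^ (k - 1 - 7) := by
        calc (y : ℝ) ^ k ≤ (2 * QK k r ^ (k - 1 - 7 * 1)) ^ k :=
              pow_le_pow_left₀ (Nat.cast_nonneg _) h2 k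
          _ = 2 ^ k * P ^ (k - 1 - 7) := by
              rw [mul_pow, ← pow_mul, mul_comm (k - 1 - 7 * 1) k, pow_mul, QK_pow (by omega), hP]
      have h4 : P ^ (k - 1) = P ^ 7 * P ^ (k - 1 - 7) := by
        rw [← pow_add]
        congr 1
        omega
      have h5 : 2 * (p.q : ℝ) * 2 ^ k ≤ P ^ 7 := by
        rw [hP]
        have : (XX r) ^ (7 : ℝ) = (XX r) ^ 7 := by
          rw [← Real.rpow_natCast]
          norm_num
        rw [← this]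
        exact hq7
      rw [h4]
      calc 2 * (p.q : ℝ) * (y : ℝ) ^ k ≤ 2 * (p.q : ℝ) * (2 ^ k * P ^ (k - 1 - 7)) :=
            mul_le_mul_of_nonneg_left h3 (by positivity)
        _ = (2 * (p.q : ℝ) * 2 ^ k) * P ^ (k - 1 - 7) := by ring
        _ ≤ _ := mul_le_mul_of_nonneg_right h5 (by positivity))
    (I := CK ^ 2 * (CE * Z ^ 2 * R)) (by positivity)
    (fun l => HighR_I p (hSm l) (hSf l) hCK0 (by
      have h1 := hen (SS (fl l) (h l) r) (hSm l) (fun θ hθ => SS_le hθ)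
      rw [← hκ, ← hZ, ← hP, ← hR] at h1
      exact h1))
  have hBeq : (fun l : Fin p.q => HighR_B p (Dm (fl l) r) l r) =
      fun l : Fin p.q => Fintype.piFinset (fun j => A l j ×ˢ M l) := by
    rw [hA, hM]
    rfl
  have hgauss2 : ∫⁻ t : Fin T → ℝ, ENNReal.ofReal (gw t * ∏ l : Fin p.q,
      ‖MB p (SS (fl l) (h l) r) (K l r) (c l r) (Dm (fl l) r) l r (am k t) Y‖ ^ 2) ≤
      ENNReal.ofReal (Real.exp (-Real.pi * E ^ 2) *
        ((Bp * (W1 ^ T) ^ p.q) ^ 2 * (CK * Z) ^ (2 * p.q)) * ((2 * P) ^ p.q) ^ 2 +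
        (W1 ^ p.q) ^ T * (P ^ p.q) ^ (badJ p.G p.q T h).card *
          (Bp * (W1 ^ T) ^ p.q * ((P * W1) ^ p.q) ^ p.q) *
          ((8 * E / P ^ (k - 1)) ^ p.q * (CK ^ 2 * (CE * Z ^ 2 * R)) ^ p.q)) := by
    have h1 : ∀ t : Fin T → ℝ, ∀ l : Fin p.q,
        MB p (SS (fl l) (h l) r) (K l r) (c l r) (Dm (fl l) r) l r (am k t) Y =
        ∑ b ∈ HighR_B p (Dm (fl l) r) l r, ∫ θ in SS (fl l) (h l) r,
          HighR_psi p (K l r) (c l r) r Y b θ * ee (∑ i, t i * HighR_V k b θ i) := fun t l =>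
      HighR_MB p (hK l r) (hCK l r) (hc l r) (hSm l) (hSf l)
        (fun m θ' hθ' hm => hcb' l r m θ' hθ' hm) l r Y t
    simp only [h1]
    refine hgauss.trans ?_
    rw [hBeq]
    refine hinteg.trans (ENNReal.ofReal_le_ofReal ?_)
    have hSW := HighR_SW p fl (r := r) hC1 hW1
    have hSC := HighR_SC p fl (r := r) hQ2 hC1 hW1
    rw [← hBp] at hSW
    rw [← hP] at hSC
    have hSW' : ∑ b ∈ Fintype.piFinset (fun l => Fintype.piFinset (fun j => A l j ×ˢ M l)),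
        ∏ l, ∏ j, HighR_w C1 (b l j).2 ≤ Bp * (W1 ^ T) ^ p.q := by
      rw [hA, hM]
      exact hSW
    have hSC' : ∑ c ∈ Fintype.piFinset (fun m : Fin p.q => Fintype.piFinset
          (fun l => A l (Fin.castLE p.hqT m) ×ˢ M l)), ∏ m, ∏ l, HighR_w C1 (c m l).2 ≤
        ((P * W1) ^ p.q) ^ p.q := by
      rw [hA, hM]
      exact hSC
    have h0 : 0 ≤ ∑ b ∈ Fintype.piFinset (fun l => Fintype.piFinset (fun j => A l j ×ˢ M l)),
        ∏ l, ∏ j, HighR_w C1 (b l j).2 := Finset.sum_nonneg fun b _ =>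
      Finset.prod_nonneg fun l _ => Finset.prod_nonneg fun j _ => hw _
    have h0' : 0 ≤ ∑ c ∈ Fintype.piFinset (fun m : Fin p.q => Fintype.piFinset
          (fun l => A l (Fin.castLE p.hqT m) ×ˢ M l)), ∏ m, ∏ l, HighR_w C1 (c m l).2 :=
      Finset.sum_nonneg fun b _ =>
      Finset.prod_nonneg fun l _ => Finset.prod_nonneg fun j _ => hw _
    refine add_le_add ?_ ?_
    · refine mul_le_mul_of_nonneg_right ?_ (by positivity)
      refine mul_le_mul_of_nonneg_left ?_ (Real.exp_pos _).le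
      exact mul_le_mul_of_nonneg_right (pow_le_pow_left₀ h0 hSW' 2) (by positivity)
    · refine mul_le_mul_of_nonneg_right ?_ (by positivity)
      refine mul_le_mul_of_nonneg_left ?_ (by positivity)
      exact mul_le_mul hSW' hSC' h0' (by positivity)
  -- the end
  obtain ⟨D, hDd⟩ : ∃ D : ℝ, D = (∏ l : Fin p.q, (sr p l r) ^ 2)⁻¹ := ⟨_, rfl⟩
  have hprod : ∏ l : Fin p.q, (sr p l r) ^ 2 = (Z ^ p.q * Bp) ^ 2 / P ^ (2 * k * p.q) := by
    unfold sr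
    rw [← hZ, ← hP]
    have e2 : ∀ l : Fin p.q, (Z * ((BR p l r).card : ℝ) / P ^ k) ^ 2 =
        (Z * ((BR p l r).card : ℝ)) ^ 2 / P ^ (2 * k) := by
      intro l
      rw [div_pow, ← pow_mul, mul_comm k 2]
    simp only [e2]
    rw [Finset.prod_div_distrib, Finset.prod_pow, Finset.prod_mul_distrib, Finset.prod_const,
      Finset.prod_const, Finset.card_univ, Fintype.card_fin, ← pow_mul, ← hBp]
  have hD0 : 0 ≤ D := by
    rw [hDd, hprod]
    positivity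
  calc ∫⁻ α : Fin T → ℝ, ENNReal.ofReal (gw α * ∏ l : Fin p.q,
        (‖MB p (SS (fl l) (h l) r) (K l r) (c l r) (Dm (fl l) r) l r (am k α) Y‖ /
          sr p l r) ^ 2)
      = ∫⁻ α : Fin T → ℝ, ENNReal.ofReal D * ENNReal.ofReal (gw α * ∏ l : Fin p.q,
        ‖MB p (SS (fl l) (h l) r) (K l r) (c l r) (Dm (fl l) r) l r (am k α) Y‖ ^ 2) := by
        refine lintegral_congr fun α => ?_
        rw [← ENNReal.ofReal_mul hD0]
        congr 1
        simp only [div_pow]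
        rw [Finset.prod_div_distrib, hDd, div_eq_mul_inv]
        ring
    _ = ENNReal.ofReal D * ∫⁻ α : Fin T → ℝ, ENNReal.ofReal (gw α * ∏ l : Fin p.q,
        ‖MB p (SS (fl l) (h l) r) (K l r) (c l r) (Dm (fl l) r) l r (am k α) Y‖ ^ 2) := by
        rw [lintegral_const_mul' _ _ ENNReal.ofReal_ne_top]
    _ ≤ ENNReal.ofReal D * ENNReal.ofReal (Real.exp (-Real.pi * E ^ 2) *
        ((Bp * (W1 ^ T) ^ p.q) ^ 2 * (CK * Z) ^ (2 * p.q)) * ((2 * P) ^ p.q) ^ 2 +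
        (W1 ^ p.q) ^ T * (P ^ p.q) ^ (badJ p.G p.q T h).card *
          (Bp * (W1 ^ T) ^ p.q * ((P * W1) ^ p.q) ^ p.q) *
          ((8 * E / P ^ (k - 1)) ^ p.q * (CK ^ 2 * (CE * Z ^ 2 * R)) ^ p.q)) :=
        mul_le_mul_right hgauss2 _
    _ ≤ _ := by
        rw [← ENNReal.ofReal_mul hD0, ← hP]
        refine ENNReal.ofReal_le_ofReal ?_
        have a1 := HighR_arith1 p (E := E) (CK := CK) hP1 hE hZ0 hBp0 hW11 (by rw [hP]; exact hgr)
          (by rw [hP]; exact hex)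
        have a2 := HighR_arith2 p (CK := CK) hP1 hE hκ hR hZ0 hc0 hBp0 hBpl hCE hW11
          (by rw [hP]; exact hgr) (card_badJ p.hG p.hqG T h)
        rw [← hprod] at a1 a2
        rw [hDd, inv_mul_eq_div, add_div]
        refine (add_le_add a1 a2).trans ?_
        rw [← add_div]
        refine div_le_div_of_nonneg_right ?_ (by positivity)
        linarith

end RWar
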