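import Pool.Agent.FWar.WeylP

/-!
# RWar.WeylPl: a Weyl bound for plain powers and small frequencies

PROOF. As `Pool/Agent/FWar/WeylP.lean` (its private lemmas can be copied), but simpler. `P = XX r`,
`r ≥ 3`, `z = z0 + n`, `z0 = 2^(r-3) + 1`, `n < L = 2^(r-3)`. Let `C ≥ 1` be the constant of
`Pool.PolyMax.inverse_weyl` for `D = k`, `σ = 1/(16(C+1))`. If the sum has modulus `> P^(1-σ)` there is
`1 ≤ q ≤ C P^(Cσ)` with `dz (q θ) ≤ C P^(Cσ)/L^k ≤ K P^(Cσ-k)` (the coefficient of `n^k` of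
`θ (z0 + n)^k` is `θ`). As `|θ| ≤ P⁻¹` we have `|q θ| ≤ C P^(Cσ-1) < 1/2` for large `P`, so
`dz (q θ) = |q θ| ≥ |θ|`, and `|θ| ≤ K P^(Cσ-k) < P^(1/4-k)` for large `P`: contradiction.
(`ee` and `Pool.PolyMax.e` are the same function.)
-/

namespace RWar

open Filter Topology MWg

/-- the shifted sum as a sum over an initial segment. -/
private theorem WeylPl_sum (s : ℕ) (f : ℕ → ℂ) :
    ∑ z ∈ J1 (XX (s + 3)), f z = ∑ n ∈ Finset.range (2 ^ s), f (2 ^ s + 1 + n) := by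
  have h8 : XX (s + 3) / 8 = ((2 ^ s : ℕ) : ℝ) := by
    unfold XX
    push_cast
    rw [pow_add]
    norm_num
  have h4 : XX (s + 3) / 4 = ((2 ^ (s + 1) : ℕ) : ℝ) := by
    unfold XX
    push_cast
    rw [pow_add, pow_add]
    norm_num
    ring
  unfold J1
  rw [h8, h4, Nat.floor_natCast, Nat.floor_natCast]
  have h1 : Finset.Ioc (2 ^ s) (2 ^ (s + 1)) = Finset.Ico (2 ^ s + 1) (2 ^ (s + 1) + 1) := by
    ext z
    simp only [Finset.mem_Ioc, Finset.mem_Ico]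
    omega
  rw [h1, Finset.sum_Ico_eq_sum_range]
  have h2 : 2 ^ (s + 1) + 1 - (2 ^ s + 1) = 2 ^ s := by
    rw [pow_succ]
    omega
  rw [h2]

/-- the phase polynomial. -/
private noncomputable def WeylPl_G (k : ℕ) (θ : ℝ) (z0 : ℕ) : Polynomial ℝ :=
  Polynomial.C θ * (Polynomial.X + Polynomial.C (z0 : ℝ)) ^ k

private theorem WeylPl_G_eval (k : ℕ) (θ : ℝ) (z0 n : ℕ) :
    (WeylPl_G k θ z0).eval (n : ℝ) = θ * ((z0 + n : ℕ) : ℝ) ^ k := by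
  unfold WeylPl_G
  simp only [Polynomial.eval_mul, Polynomial.eval_add, Polynomial.eval_pow, Polynomial.eval_C,
    Polynomial.eval_X]
  push_cast
  rw [add_comm (n : ℝ) (z0 : ℝ)]

private theorem WeylPl_coeff_top {k : ℕ} (θ : ℝ) (z0 : ℕ) :
    (WeylPl_G k θ z0).coeff k = θ := by
  unfold WeylPl_G
  rw [Polynomial.coeff_C_mul, Polynomial.coeff_X_add_C_pow]
  simp

private theorem WeylPl_G_natDegree {k : ℕ} (θ : ℝ) (z0 : ℕ) :
    (WeylPl_G k θ z0).natDegree ≤ k := by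
  unfold WeylPl_G
  refine (Polynomial.natDegree_C_mul_le _ _).trans ?_
  refine (Polynomial.natDegree_pow_le).trans ?_
  rw [Polynomial.natDegree_X_add_C]
  omega

private theorem WeylPl_ee (x : ℝ) : ee x = Pool.PolyMax.e x := rfl

theorem weyl_plain {k : ℕ} (hk : 2 ≤ k) : ∃ σ : ℝ, 0 < σ ∧ ∀ᶠ r : ℕ in atTop, ∀ θ : ℝ,
    (XX r) ^ ((1 : ℝ) / 4 - k) ≤ |θ| → |θ| ≤ (XX r)⁻¹ →
      ‖∑ z ∈ J1 (XX r), ee (θ * (z : ℝ) ^ k)‖ ≤ (XX r) ^ (1 - σ) := by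
  obtain ⟨C, hC1, hC⟩ := Pool.PolyMax.inverse_weyl k
  have hCr : (1 : ℝ) ≤ C := by exact_mod_cast hC1
  refine ⟨1 / (16 * ((C : ℝ) + 1)), by positivity, ?_⟩
  set σ : ℝ := 1 / (16 * ((C : ℝ) + 1)) with hσ
  have hσ0 : 0 < σ := by rw [hσ]; positivity
  have hσC : σ * ((C : ℝ) + 1) = 1 / 16 := by
    rw [hσ]
    field_simp
  set K1 : ℝ := C * 8 ^ k with hK1
  have hK10 : 0 < K1 := by rw [hK1]; positivity
  have hev1 : ∀ᶠ r : ℕ in atTop, K1 < (XX r) ^ ((1 : ℝ) / 8) :=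
    ((tendsto_rpow_atTop (by norm_num : (0 : ℝ) < 1 / 8)).comp XX_tendsto).eventually_gt_atTop _
  have hev2 : ∀ᶠ r : ℕ in atTop, 2 * (C : ℝ) < (XX r) ^ ((7 : ℝ) / 8) :=
    ((tendsto_rpow_atTop (by norm_num : (0 : ℝ) < 7 / 8)).comp XX_tendsto).eventually_gt_atTop _
  filter_upwards [hev1, hev2, eventually_ge_atTop 3] with r h1 h2 h3 θ hθ1 hθ2
  obtain ⟨s, rfl⟩ : ∃ s, r = s + 3 := ⟨r - 3, by omega⟩
  by_contra hcon
  push Not at hcon
  set P : ℝ := XX (s + 3) with hP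
  have hP1 : 1 ≤ P := XX_ge_one _
  have hP0 : 0 < P := by linarith
  have hPL : ((2 ^ s : ℕ) : ℝ) = P / 8 := by
    rw [hP]
    unfold XX
    push_cast
    rw [pow_add]
    norm_num
  set T : ℝ := P ^ σ with hT
  have hT1 : 1 ≤ T := Real.one_le_rpow hP1 hσ0.le
  have hT0 : 0 < T := by linarith
  rw [hP, WeylPl_sum, ← hP] at hcon
  set z0 : ℕ := 2 ^ s + 1 with hz0
  have hsum : ∑ n ∈ Finset.range (2 ^ s), ee (θ * ((z0 + n : ℕ) : ℝ) ^ k)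
      = ∑ n ∈ Finset.range (2 ^ s), Pool.PolyMax.e ((WeylPl_G k θ z0).eval (n : ℝ)) :=
    Finset.sum_congr rfl fun n _ => by rw [WeylPl_G_eval, WeylPl_ee]
  rw [hsum] at hcon
  have hlam : (1 : ℝ) / P ^ (-σ) = T := by
    rw [Real.rpow_neg hP0.le, one_div, inv_inv]
  obtain ⟨q, hq1, hqC, hqd⟩ := hC (WeylPl_G k θ z0) (2 ^ s) (P ^ (-σ)) (WeylPl_G_natDegree θ z0)
    Nat.one_le_two_pow (Real.rpow_pos_of_pos hP0 _)
    (Real.rpow_le_one_of_one_le_of_nonpos hP1 (by linarith)) (by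
      refine le_trans ?_ hcon.le
      rw [hPL, sub_eq_add_neg, add_comm (1 : ℝ) (-σ), Real.rpow_add hP0, Real.rpow_one]
      have : 0 < P ^ (-σ) := Real.rpow_pos_of_pos hP0 _
      nlinarith)
  rw [hlam] at hqC hqd
  have hq0 : (1 : ℝ) ≤ q := by exact_mod_cast hq1
  have hTC0 : 0 < T ^ C := by positivity
  have hA : Pool.PolyMax.dz ((q : ℝ) * θ) ≤ K1 * T ^ C / P ^ k := by
    have h := hqd k (by omega)
    rw [WeylPl_coeff_top θ, hPL] at h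
    refine h.trans (le_of_eq ?_)
    rw [div_pow, hK1]
    field_simp
  obtain ⟨m, hm⟩ := Pool.PolyMax.exists_int_dz ((q : ℝ) * θ)
  have hTCP : T ^ C ≤ P ^ ((1 : ℝ) / 8) := by
    rw [hT, ← Real.rpow_mul_natCast hP0.le]
    refine Real.rpow_le_rpow_of_exponent_le hP1 ?_
    nlinarith
  have h7 : 0 < P ^ ((1 : ℝ) / 8) := Real.rpow_pos_of_pos hP0 _
  -- `|q θ| < 1 / 2`
  have hsmall : |(q : ℝ) * θ| < 1 / 2 := by
    rw [abs_mul, Nat.abs_cast]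
    have h4 : (q : ℝ) * |θ| ≤ (C * P ^ ((1 : ℝ) / 8)) * P⁻¹ := by
      refine mul_le_mul (hqC.trans ?_) hθ2 (abs_nonneg _) (by positivity)
      exact mul_le_mul_of_nonneg_left hTCP (by positivity)
    have h5 : P = P ^ ((1 : ℝ) / 8) * P ^ ((7 : ℝ) / 8) := by
      rw [← Real.rpow_add hP0]
      norm_num
    have h6 : 0 < P ^ ((7 : ℝ) / 8) := Real.rpow_pos_of_pos hP0 _
    have h8 : (C * P ^ ((1 : ℝ) / 8)) * P⁻¹ = C / P ^ ((7 : ℝ) / 8) := by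
      have h9 : P⁻¹ = (P ^ ((1 : ℝ) / 8))⁻¹ * (P ^ ((7 : ℝ) / 8))⁻¹ := by
        rw [← mul_inv, ← h5]
      rw [h9]
      field_simp
    rw [h8] at h4
    refine lt_of_le_of_lt h4 ?_
    rw [div_lt_iff₀ h6]
    linarith
  have hm0 : m = 0 := by
    by_contra hne
    have h4 : (1 : ℝ) ≤ |(m : ℝ)| := by
      have : (1 : ℤ) ≤ |m| := Int.one_le_abs hne
      exact_mod_cast this
    have h5 : |(m : ℝ)| ≤ |(q : ℝ) * θ| + |(q : ℝ) * θ - m| := by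
      have := abs_sub_abs_le_abs_sub (m : ℝ) ((q : ℝ) * θ)
      rw [abs_sub_comm (m : ℝ)] at this
      linarith
    have h6 : |(q : ℝ) * θ - m| ≤ 1 / 2 := by
      rw [hm]
      exact Pool.PolyMax.dz_le_half _
    linarith
  rw [← hm, hm0] at hA
  simp only [Int.cast_zero, sub_zero] at hA
  rw [abs_mul, Nat.abs_cast] at hA
  have h4 : P ^ ((1 : ℝ) / 4 - k) * P ^ k = P ^ ((1 : ℝ) / 4) := by
    rw [← Real.rpow_natCast P k, ← Real.rpow_add hP0]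
    congr 1
    ring
  have h5 : P ^ ((1 : ℝ) / 4) ≤ K1 * T ^ C := by
    rw [le_div_iff₀ (by positivity)] at hA
    refine le_trans ?_ hA
    rw [← h4]
    refine mul_le_mul_of_nonneg_right ?_ (by positivity)
    have h8 : 0 ≤ |θ| := abs_nonneg _
    nlinarith
  have h6 : P ^ ((1 : ℝ) / 4) = P ^ ((1 : ℝ) / 8) * P ^ ((1 : ℝ) / 8) := by
    rw [← Real.rpow_add hP0]
    norm_num
  have h8 : K1 * T ^ C ≤ K1 * P ^ ((1 : ℝ) / 8) := mul_le_mul_of_nonneg_left hTCP hK10.le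
  have h9 : K1 * P ^ ((1 : ℝ) / 8) < P ^ ((1 : ℝ) / 8) * P ^ ((1 : ℝ) / 8) :=
    mul_lt_mul_of_pos_right h1 h7
  rw [h6] at h5
  linarith

end RWar
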