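import Pool.Agent.RWar.Basic
import Pool.Agent.MWg.LemML
import Pool.Agent.MWg.PData

/-!
# RWar.MainR: many tuples are moderately close to the target

PROOF. As `Pool/Agent/HWar/MainCt.lean` (`main_ct`), with `f x = x^k` for the plain letters. `P = XX r`.
`0 ≤ v^k ≤ P^k/4` for `v ∈ J1 P`. Generic letters: `b_j ≤ 2 Q^(k-1)`, `b_j^k ≤ 2^k Q^(k(k-1)) = 2^k P^(k-1)`
(`QK_pow`), so `0 ≤ ∑_j α_j b_j^k ≤ T max α 2^k P^(k-1) ≤ P^k/4` for large `P`. By `smallHead` for the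
chain `w2` (`n2 ≥ 1`) at least `c1 tot2` of the `w2` have value `≤ (2^k+1) P^k`; for such `w2`, all `v`, `b`
the number `y' = Y - ...` is in `[3^k P^k, 12^k P^k]` (`4^k - 1 ≥ 3^k + 2^k + 1 + ..`: see `main_ct`),
and `lemML` for the chain `w1` with `H = P^u/2` (`C0 P_(n1)^k ≤ P^u/2`, as
`k(1-1/k)^n1 ≤ k(1-1/k)^n2 < u`; `H ≤ P^k`) gives `≥ c tot1 P^u/(2P^k)` chains `w1`.
-/

namespace RWar

open Filter Topology MWg HWar

variable {k T : ℕ}

private theorem MainR_pow1 {k : ℕ} (hk : 5 ≤ k) : (3 : ℝ) ^ k + 2 ^ k + 2 ≤ 4 ^ k := by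
  induction k, hk using Nat.le_induction with
  | base => norm_num
  | succ k hk ih =>
      have h3 : (0 : ℝ) < 3 ^ k := by positivity
      have h2 : (0 : ℝ) < 2 ^ k := by positivity
      rw [pow_succ, pow_succ, pow_succ]
      linarith

private theorem MainR_pow2 {k : ℕ} (hk : 5 ≤ k) : (8 : ℝ) ^ k + 2 ^ k + 2 ≤ 12 ^ k := by
  induction k, hk using Nat.le_induction with
  | base => norm_num
  | succ k hk ih =>
      have h3 : (0 : ℝ) < 8 ^ k := by positivity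
      have h2 : (0 : ℝ) < 2 ^ k := by positivity
      rw [pow_succ, pow_succ, pow_succ]
      linarith

private theorem MainR_letter (p : ParR k T) {l r : ℕ} {b : Fin T → ℕ} (hb : b ∈ BR p l r)
    (j : Fin T) : ((b j : ℕ) : ℝ) ^ k ≤ 2 ^ k * (XX r) ^ (k - 1) := by
  have hk : 5 ≤ k := p.hk
  unfold BR at hb
  rw [Fintype.mem_piFinset] at hb
  have h1 := (mem_blR (hb j)).2
  have hQ := QK_one_le (k := k) r
  have h3 : QK k r ^ (k - 1 - 7 * lev p.G p.q l j) ≤ QK k r ^ (k - 1) :=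
    pow_le_pow_right₀ hQ (by omega)
  have h4 : ((b j : ℕ) : ℝ) ≤ 2 * QK k r ^ (k - 1) := h1.trans (by linarith)
  calc ((b j : ℕ) : ℝ) ^ k ≤ (2 * QK k r ^ (k - 1)) ^ k :=
        pow_le_pow_left₀ (Nat.cast_nonneg _) h4 k
    _ = 2 ^ k * (XX r) ^ (k - 1) := by
        rw [mul_pow, ← QK_pow (k := k) (by omega) r, ← pow_mul, ← pow_mul, mul_comm (k - 1) k]

private theorem MainR_bulk (p : ParR k T) {α : Fin T → ℝ} (hα : ∀ j, 0 < α j) {l r : ℕ}
    (hr : 4 * ((∑ j, α j) * 2 ^ k) ≤ XX r) {b : Fin T → ℕ} (hb : b ∈ BR p l r) :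
    |∑ j, am k α j (b j)| ≤ (XX r) ^ k / 4 := by
  have hk : 5 ≤ k := p.hk
  have hX : 0 < XX r := XX_pos r
  have h0 : 0 ≤ ∑ j, am k α j (b j) := by
    refine Finset.sum_nonneg fun j _ => ?_
    unfold am
    have := hα j
    positivity
  rw [abs_of_nonneg h0]
  have h1 : ∑ j, am k α j (b j) ≤ ∑ j, α j * (2 ^ k * (XX r) ^ (k - 1)) := by
    refine Finset.sum_le_sum fun j _ => ?_
    unfold am
    exact mul_le_mul_of_nonneg_left (MainR_letter p hb j) (hα j).le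
  rw [← Finset.sum_mul] at h1
  have h2 : (XX r) ^ k = XX r * (XX r) ^ (k - 1) := by
    rw [← pow_succ']
    congr 1
    omega
  have h3 : 0 < (XX r) ^ (k - 1) := by positivity
  have h4 := mul_le_mul_of_nonneg_right hr h3.le
  rw [h2]
  have h5 : (∑ j, α j) * (2 ^ k * (XX r) ^ (k - 1)) =
      4 * ((∑ j, α j) * 2 ^ k) * (XX r) ^ (k - 1) / 4 := by ring
  rw [h5] at h1
  linarith

private theorem MainR_count (p : ParR k T) {l r : ℕ} {α : Fin T → ℝ} {Y H K G0 : ℝ} (hK : 0 ≤ K)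
    {G : List (ℕ × ℕ) → Prop} (hG : G0 ≤ cnt k J0 p.n2 (XX r) G)
    (h : ∀ b ∈ BR p l r, ∀ v ∈ J1 (XX r), ∀ w' ∈ chain k J0 p.n2 (XX r), G w' →
      K ≤ cnt k J0 p.n1 (XX r) (fun w => |val (fun x => (x : ℝ) ^ k) (fun _ => 0) w -
        (Y - val (fun x => (x : ℝ) ^ k) (fun _ => 0) w' - (v : ℝ) ^ k -
          ∑ j, am k α j (b j))| ≤ H)) :
    ((BR p l r).card : ℝ) * (((J1 (XX r)).card : ℝ) * (G0 * K)) ≤
      ((open Classical in ((ZR p r ×ˢ BR p l r).filter fun x =>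
          |zsum (fun x => (x : ℝ) ^ k) x.1 + ∑ j, am k α j (x.2 j) - Y| ≤ H).card : ℕ) : ℝ) := by
  classical
  unfold ZR
  have hcf : ((((((chain k J0 p.n1 (XX r) ×ˢ chain k J0 p.n2 (XX r)) ×ˢ J1 (XX r)) ×ˢ
      BR p l r).filter fun x =>
        |zsum (fun x => (x : ℝ) ^ k) x.1 + ∑ j, am k α j (x.2 j) - Y| ≤ H).card : ℕ) : ℝ) =
      ∑ b ∈ BR p l r, ∑ v ∈ J1 (XX r), ∑ w' ∈ chain k J0 p.n2 (XX r),
        ∑ w ∈ chain k J0 p.n1 (XX r),
          (if |zsum (fun x => (x : ℝ) ^ k) ((w, w'), v) + ∑ j, am k α j (b j) - Y| ≤ H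
            then (1 : ℝ) else 0) := by
    rw [Finset.card_filter, Finset.sum_product_right]
    push_cast
    refine Finset.sum_congr rfl fun b _ => ?_
    rw [Finset.sum_product_right]
    refine Finset.sum_congr rfl fun v _ => ?_
    rw [Finset.sum_product_right]
  have hgoal : ((BR p l r).card : ℝ) * (((J1 (XX r)).card : ℝ) * (G0 * K)) ≤
      ∑ b ∈ BR p l r, ∑ v ∈ J1 (XX r), ∑ w' ∈ chain k J0 p.n2 (XX r),
        ∑ w ∈ chain k J0 p.n1 (XX r),
          (if |zsum (fun x => (x : ℝ) ^ k) ((w, w'), v) + ∑ j, am k α j (b j) - Y| ≤ H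
            then (1 : ℝ) else 0) := by
    have e : ((BR p l r).card : ℝ) * (((J1 (XX r)).card : ℝ) * (G0 * K)) =
        ∑ _b ∈ BR p l r, ∑ _v ∈ J1 (XX r), G0 * K := by
      rw [Finset.sum_const, Finset.sum_const, nsmul_eq_mul, nsmul_eq_mul]
    rw [e]
    refine Finset.sum_le_sum fun b hb => Finset.sum_le_sum fun v hv => ?_
    have h1 : G0 * K ≤ ∑ w' ∈ (chain k J0 p.n2 (XX r)).filter G, K := by
      rw [Finset.sum_const, nsmul_eq_mul]
      refine mul_le_mul_of_nonneg_right ?_ hK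
      refine hG.trans (le_of_eq ?_)
      unfold cnt
      congr!
    refine h1.trans ?_
    have h2 : ∑ w' ∈ (chain k J0 p.n2 (XX r)).filter G, K ≤
        ∑ w' ∈ (chain k J0 p.n2 (XX r)).filter G, ∑ w ∈ chain k J0 p.n1 (XX r),
          (if |zsum (fun x => (x : ℝ) ^ k) ((w, w'), v) + ∑ j, am k α j (b j) - Y| ≤ H
            then (1 : ℝ) else 0) := by
      refine Finset.sum_le_sum fun w' hw' => ?_
      rw [Finset.mem_filter] at hw'
      refine (h b hb v hv w' hw'.1 hw'.2).trans (le_of_eq ?_)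
      unfold cnt
      rw [Finset.card_filter]
      push_cast
      refine Finset.sum_congr rfl fun w _ => ?_
      have e2 : zsum (fun x => (x : ℝ) ^ k) ((w, w'), v) + ∑ j, am k α j (b j) - Y =
          val (fun x => (x : ℝ) ^ k) (fun _ => 0) w -
          (Y - val (fun x => (x : ℝ) ^ k) (fun _ => 0) w' - (v : ℝ) ^ k -
            ∑ j, am k α j (b j)) := by
        rw [chain_val (k := k) (n := p.n1) (P := XX r) (fun x => (x : ℝ) ^ k),
          chain_val (k := k) (n := p.n2) (P := XX r) (fun x => (x : ℝ) ^ k)]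
        unfold zsum
        ring
      rw [e2]
    refine h2.trans ?_
    refine Finset.sum_le_sum_of_subset_of_nonneg (Finset.filter_subset _ _) ?_
    intro w' _ _
    refine Finset.sum_nonneg fun w _ => ?_
    split_ifs <;> norm_num
  refine hgoal.trans (le_of_eq ?_)
  rw [← hcf]

theorem main_ctR (p : ParR k T) {α : Fin T → ℝ} (hα : ∀ j, 0 < α j) :
    ∃ c : ℝ, 0 < c ∧ ∀ᶠ r : ℕ in atTop, ∀ (l : ℕ) (Y : ℝ), 4 ^ k * (XX r) ^ k - 1 ≤ Y →
      Y ≤ 8 ^ k * (XX r) ^ k + 1 →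
      c * sr p l r * (XX r) ^ p.u ≤
        ((open Classical in ((ZR p r ×ˢ BR p l r).filter fun x =>
          |zsum (fun x => (x : ℝ) ^ k) x.1 + ∑ j, am k α j (x.2 j) - Y| ≤
            (XX r) ^ p.u / 2).card : ℕ) : ℝ) := by
  classical
  have hk : 5 ≤ k := p.hk
  have hk2 : 2 ≤ k := by omega
  have hk1 : 1 ≤ k := by omega
  have huk := p.hu
  have hf : Good k (fun x => (x : ℝ) ^ k) := good_pow hk1
  obtain ⟨c1, C0, P1, hc1, hC0, hP1, hML⟩ := lemML hk2 hf (side_J0 k) p.n1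
  obtain ⟨c2, P2, hc2, hP2, hSH⟩ := smallHead hk2 hf (side_J0 k) p.hn2
  obtain ⟨Ps, hside⟩ := side_J1 hk2 hf
  obtain ⟨Ca, hCa, hth⟩ := nxt_iter_pow_le hk1 p.n1
  refine ⟨c1 * c2 / 2, by positivity, ?_⟩
  have hXk : Tendsto (fun r : ℕ => (XX r) ^ k) atTop atTop :=
    (tendsto_pow_atTop (by omega)).comp XX_tendsto
  have hn1u : (k : ℝ) * (1 - 1 / (k : ℝ)) ^ p.n1 < (p.u : ℝ) := by
    refine lt_of_le_of_lt ?_ p.hn
    have hkR : (1 : ℝ) ≤ (k : ℝ) := by exact_mod_cast hk1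
    have hq0 : 0 ≤ 1 - 1 / (k : ℝ) := by
      rw [sub_nonneg, div_le_one (by linarith)]
      exact hkR
    have hq1 : 1 - 1 / (k : ℝ) ≤ 1 := by
      have : 0 ≤ 1 / (k : ℝ) := by positivity
      linarith
    exact mul_le_mul_of_nonneg_left (pow_le_pow_of_le_one hq0 hq1 p.hn12) (by linarith)
  filter_upwards [XX_tendsto.eventually_ge_atTop P1, XX_tendsto.eventually_ge_atTop P2,
    XX_tendsto.eventually_ge_atTop Ps,
    XX_tendsto.eventually_ge_atTop (4 * ((∑ j, α j) * 2 ^ k)),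
    hXk.eventually_ge_atTop 2,
    eventually_rpow_le (C := 2 * (C0 * Ca)) (A := (k : ℝ) * (1 - 1 / (k : ℝ)) ^ p.n1)
      (B := (p.u : ℝ)) hn1u] with r hr1 hr2 hr3 hr4 hr5 hr6
  intro l Y hY1 hY2
  have hX1 := XX_ge_one r
  have hX0 := XX_pos r
  have hXk0 : 0 < XX r ^ k := by positivity
  have hXu0 : 0 < XX r ^ p.u := by positivity
  have hT : 0 ≤ tot k J0 p.n1 (XX r) := tot_nonneg _ _ _ _
  have hHk : XX r ^ p.u / 2 ≤ XX r ^ k := by
    have h1 : XX r ^ p.u ≤ XX r ^ k := pow_le_pow_right₀ hX1 (by omega)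
    linarith
  have hHθ : C0 * ((nxt k)^[p.n1] (XX r)) ^ k ≤ XX r ^ p.u / 2 := by
    have h1 : C0 * ((nxt k)^[p.n1] (XX r)) ^ k ≤
        C0 * (Ca * XX r ^ ((k : ℝ) * (1 - 1 / (k : ℝ)) ^ p.n1)) :=
      mul_le_mul_of_nonneg_left (hth _ hX1) (by linarith)
    rw [Real.rpow_natCast] at hr6
    have h2 : 2 * (C0 * Ca) * XX r ^ ((k : ℝ) * (1 - 1 / (k : ℝ)) ^ p.n1) =
        2 * (C0 * (Ca * XX r ^ ((k : ℝ) * (1 - 1 / (k : ℝ)) ^ p.n1))) := by ring
    rw [h2] at hr6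
    linarith
  have hp1 := mul_le_mul_of_nonneg_right (MainR_pow1 hk) hXk0.le
  have hp2 := mul_le_mul_of_nonneg_right (MainR_pow2 hk) hXk0.le
  have hlow := MainR_count p (l := l) (r := r) (α := α)
    (Y := Y) (H := XX r ^ p.u / 2)
    (K := c1 * tot k J0 p.n1 (XX r) * (XX r ^ p.u / 2) / XX r ^ k)
    (G0 := c2 * tot k J0 p.n2 (XX r))
    (G := fun w => |val (fun x => (x : ℝ) ^ k) (fun _ => 0) w| ≤ (2 ^ k + 1) * XX r ^ k)
    (by positivity)
    (hSH (XX r) hr2) (by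
      intro b hb v hv w' _ hw'
      have hb1 := abs_le.1 (MainR_bulk p hα hr4 hb)
      have hv1 := abs_le.1 ((hside (XX r) hr3).2 v hv)
      have hw1 := abs_le.1 hw'
      refine hML (XX r) hr1 (Y - val (fun x => (x : ℝ) ^ k) (fun _ => 0) w' - (v : ℝ) ^ k -
        ∑ j, am k α j (b j)) ?_ ?_ _ hHθ hHk
      · nlinarith [hb1.2, hv1.2, hw1.2]
      · nlinarith [hb1.1, hv1.1, hw1.1])
  refine le_trans (le_of_eq ?_) hlow
  unfold sr ZR
  rw [Finset.card_product, Finset.card_product]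
  push_cast
  unfold tot
  ring

end RWar
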