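import Pool.Agent.IWar.Defs

/-!
# RWar: plain `k`-th powers and a few `k`-th powers with generic coefficients.  Definitions

We represent integers `N = x_1^k + ... + x_r^k + ⌊α_0 y_0^k⌋ + ... + ⌊α_(T-1) y_(T-1)^k⌋` for almost every
`α ∈ (0,∞)^T`. `P = XX r = 2^r`, `Q = QK k r = P^(1/k)`.

The plain letters form `z = ((w1, w2), v) ∈ ZR p r`: chains with `n1` and `n2` letters and `v ∈ J1 P`.
The generic letter `j` of the family `l < q` lies in `(Q^(k-1-7i), 2 Q^(k-1-7i)]`, `i = lev G q l j` its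
level: the special variables `j < q` have level `0` in the family `l = j` and `1` in the others; for
`j ≥ q` the level is `l j mod G`.
`FP` the exponential sum over the plain letters, `FG` over the generic letters of a family with the
functions `f j`, `MR` the signed integral of the product, `MB` the same with the trigonometric
approximation `LL` of `ee (θ ⌊f j y⌋)` (folder `IWar`), `sr` the expected size.
-/

namespace RWar

open MWg HWar IWar

/-- `QK k r ^ k = XX r`. -/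
noncomputable def QK (k r : ℕ) : ℝ := (XX r) ^ ((1 : ℝ) / (k : ℝ))

/-- The letters of level `i`. -/
noncomputable def blR (k r i : ℕ) : Finset ℕ :=
  Finset.Ioc ⌊QK k r ^ (k - 1 - 7 * i)⌋₊ ⌊2 * QK k r ^ (k - 1 - 7 * i)⌋₊

/-- The level of the variable `j` in the family `l`. -/
def lev (G q l j : ℕ) : ℕ := if j < q then (if j = l then 0 else 1) else (l * j) % G

/-- The parameters: `q` families, `G` levels, chains with `n1`, `n2` letters, `H = P ^ u`. -/
structure ParR (k T : ℕ) where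
  (q G n1 n2 u : ℕ)
  hk : 5 ≤ k
  hq : 1 ≤ q
  hqT : q ≤ T
  hG : G.Prime
  hqG : q ≤ G
  hn2 : 1 ≤ n2
  hn12 : n2 ≤ n1
  hn : (k : ℝ) * (1 - 1 / (k : ℝ)) ^ n2 < u
  hu : u + 7 * G + 3 ≤ k
  big : (q : ℝ) * ((k : ℝ) * (1 - 1 / (k : ℝ)) ^ n1 + q + q ^ 2 * ((T : ℝ) / G + 1) + 6) +
    (k + 1) ≤ q * (T * (1 - (1 + 7 * (G : ℝ)) / k))

variable {k T : ℕ}

/-- The plain letters. -/
noncomputable def ZR (p : ParR k T) (r : ℕ) : Finset Zt :=
  (chain k J0 p.n1 (XX r) ×ˢ chain k J0 p.n2 (XX r)) ×ˢ J1 (XX r)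

/-- The generic letters of the family `l`. -/
noncomputable def BR (p : ParR k T) (l r : ℕ) : Finset (Fin T → ℕ) :=
  Fintype.piFinset fun j => blR k r (lev p.G p.q l j)

/-- The exponential sum over the plain letters. -/
noncomputable def FP (p : ParR k T) (r : ℕ) (θ : ℝ) : ℂ :=
  ∑ z ∈ ZR p r, ee (θ * zsum (fun x => (x : ℝ) ^ k) z)

/-- The exponential sum over the generic letters. -/
noncomputable def FG (p : ParR k T) (l r : ℕ) (f : Fin T → ℕ → ℝ) (θ : ℝ) : ℂ :=
  ∑ b ∈ BR p l r, ee (θ * ∑ j, f j (b j))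

/-- The signed integral over `S`. -/
noncomputable def MR (p : ParR k T) (S : Set ℝ) (K : ℝ → ℂ) (l r : ℕ) (f : Fin T → ℕ → ℝ)
    (Y : ℝ) : ℂ :=
  ∫ θ in S, K θ * ee (-(θ * Y)) * FP p r θ * FG p l r f θ

/-- The signed integral with the trigonometric approximation of the integer parts. -/
noncomputable def MB (p : ParR k T) (S : Set ℝ) (K : ℝ → ℂ) (c : ℤ → ℝ → ℂ) (D l r : ℕ)
    (f : Fin T → ℕ → ℝ) (Y : ℝ) : ℂ :=
  ∫ θ in S, K θ * ee (-(θ * Y)) * FP p r θ * ∑ b ∈ BR p l r, ∏ j, LL c D (f j) θ (b j)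

/-- The expected size. -/
noncomputable def sr (p : ParR k T) (l r : ℕ) : ℝ :=
  ((ZR p r).card : ℝ) * ((BR p l r).card : ℝ) / (XX r) ^ k

/-- The values of the generic letters. -/
noncomputable def am (k : ℕ) {T : ℕ} (α : Fin T → ℝ) (j : Fin T) (y : ℕ) : ℝ := α j * (y : ℝ) ^ k

/-- Their integer parts. -/
noncomputable def af (k : ℕ) {T : ℕ} (α : Fin T → ℝ) (j : Fin T) (y : ℕ) : ℝ :=
  ((⌊α j * (y : ℝ) ^ k⌋ : ℤ) : ℝ)

end RWar
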