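import Pool.Agent.RWar.ApxR
import Pool.Agent.MWg.FinalD

/-!
# RWar.FinA: approximation of real numbers for almost all coefficients

PROOF. As `Pool/Agent/HWar/Fin.lean` (`apx_ae`, proved), without the pigeonhole argument: for every family
`l : Fin q` there is `h l ≤ u` with `‖MR ..‖/sr ≥ c/(u+1)` at every `Y ∈ [y - ε1, y + ε1]` (`h` depends on
`Y`; sum over all `h : Fin q → Fin (u+1)`).
-/

namespace RWar

open Filter Topology MeasureTheory MWg HWar IWar

/-- `r` plain `k`-th powers and `T` powers with the coefficients `α` approximate all large reals. -/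
def ApxRR (k r T : ℕ) (α : Fin T → ℝ) : Prop :=
  ∀ ε : ℝ, 0 < ε → ∃ Y : ℝ, ∀ y : ℝ, Y ≤ y → ∃ (x : Fin r → ℕ) (z : Fin T → ℕ),
    (∀ i, 0 < x i) ∧ (∀ j, 0 < z j) ∧
      |∑ i, (x i : ℝ) ^ k + ∑ j, α j * (z j : ℝ) ^ k - y| < ε

theorem apxR_mono {k r0 r T : ℕ} (hr : r0 ≤ r) {α : Fin T → ℝ} (h : ApxRR k r0 T α) :
    ApxRR k r T α := by
  obtain ⟨j, rfl⟩ := Nat.exists_eq_add_of_le hr
  intro ε hε
  obtain ⟨Y, hY⟩ := h ε hε
  refine ⟨Y + j, fun y hy => ?_⟩
  obtain ⟨x, z, hx, hz, hxy⟩ := hY (y - j) (by linarith)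
  refine ⟨Fin.append x (fun _ => 1), z, ?_, hz, ?_⟩
  · intro i
    refine Fin.addCases (fun i => ?_) (fun i => ?_) i
    · rw [Fin.append_left]
      exact hx i
    · rw [Fin.append_right]
      exact one_pos
  · have e : ∑ i : Fin (r0 + j), ((Fin.append x (fun _ : Fin j => 1) i : ℕ) : ℝ) ^ k =
        ∑ i, (x i : ℝ) ^ k + j := by
      rw [Fin.sum_univ_add]
      simp only [Fin.append_left, Fin.append_right, Finset.sum_const, Finset.card_univ,
        Fintype.card_fin, nsmul_eq_mul, Nat.cast_one, one_pow, mul_one]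
    rw [e]
    have e2 : ∑ i, (x i : ℝ) ^ k + j + ∑ j, α j * (z j : ℝ) ^ k - y =
        ∑ i, (x i : ℝ) ^ k + ∑ j, α j * (z j : ℝ) ^ k - (y - j) := by ring
    rw [e2]
    exact hxy

/-- a tuple of plain letters as a function -/
private theorem finA_plain {k T : ℕ} (p : ParR k T) {r : ℕ} {z : Zt} (hz : z ∈ ZR p r) :
    ∃ x : Fin (p.n1 + p.n2 + 1) → ℕ, (∀ i, 0 < x i) ∧
      ∑ i, (x i : ℝ) ^ k = zsum (fun x => (x : ℝ) ^ k) z := by
  unfold ZR at hz
  obtain ⟨h1, h2⟩ := Finset.mem_product.1 hz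
  obtain ⟨h3, h4⟩ := Finset.mem_product.1 h1
  obtain ⟨x, hx, hxs⟩ := list_fin (z.1.1.map Prod.fst ++ (z.1.2.map Prod.fst ++ [z.2]))
    (m := p.n1 + p.n2 + 1) (by
      simp only [List.length_append, List.length_map, List.length_cons, List.length_nil,
        chain_length h3, chain_length h4]
      ring)
  refine ⟨x, fun i => ?_, ?_⟩
  · have h5 := hx i
    rw [List.mem_append, List.mem_append, List.mem_map, List.mem_map, List.mem_singleton] at h5
    rcases h5 with ⟨q, hq, h6⟩ | ⟨q, hq, h6⟩ | h6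
    · rw [← h6]
      exact chain_fst_pos h3 q hq
    · rw [← h6]
      exact chain_fst_pos h4 q hq
    · rw [h6]
      unfold J1 at h2
      have := (Finset.mem_Ioc.1 h2).1
      omega
  · rw [hxs fun x => (x : ℝ) ^ k]
    unfold zsum
    simp only [List.map_append, List.sum_append, List.map_map, List.map_cons, List.sum_cons,
      List.map_nil, List.sum_nil, add_zero, Function.comp_def]
    ring

private theorem finA_pos {k T : ℕ} (p : ParR k T) {l r : ℕ} {b : Fin T → ℕ} (hb : b ∈ BR p l r)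
    (j : Fin T) : 0 < b j := by
  unfold BR at hb
  have h5 := Fintype.mem_piFinset.1 hb j
  unfold blR at h5
  have := (Finset.mem_Ioc.1 h5).1
  omega

private theorem finA_core {k T : ℕ} (p : ParR k T) {α : Fin T → ℝ} {K : ℕ → ℝ → ℂ}
    (hK : ∀ r, Continuous (K r)) {CK : ℝ} (hCK : ∀ r θ, ‖K r θ‖ ≤ CK) {ε1 : ℝ} (h0 : 0 < ε1)
    (h1 : ε1 ≤ 1) {c : ℝ} (hc : 0 < c)
    (hlow : ∀ᶠ r : ℕ in atTop, ∀ (l : ℕ) (Y : ℝ),
        4 ^ k * (XX r) ^ k - 1 ≤ Y → Y ≤ 8 ^ k * (XX r) ^ k + 1 →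
        (∀ z ∈ ZR p r, ∀ b ∈ BR p l r,
          ε1 ≤ |zsum (fun x => (x : ℝ) ^ k) z + ∑ j, am k α j (b j) - Y|) →
        c ≤ ∑ h ∈ Finset.range (p.u + 1),
          ‖MR p (TT r h) (K r) l r (am k α) Y‖ / sr p l r)
    (hgood : ∀ h : Fin p.q → ℕ, (∀ l, h l ≤ p.u) → Tendsto (fun r : ℕ =>
        ∫⁻ Y in Set.Icc (4 ^ k * (XX r) ^ k - 1) (8 ^ k * (XX r) ^ k + 1), ENNReal.ofReal
          (∏ l : Fin p.q, (‖MR p (TT r (h l)) (K r) l r (am k α) Y‖ / sr p l r) ^ 2))
        atTop (𝓝 0)) :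
    ∃ Y : ℝ, ∀ y : ℝ, Y ≤ y → ∃ (x : Fin (p.n1 + p.n2 + 1) → ℕ) (z : Fin T → ℕ),
      (∀ i, 0 < x i) ∧ (∀ j, 0 < z j) ∧
        |∑ i, (x i : ℝ) ^ k + ∑ j, α j * (z j : ℝ) ^ k - y| < 2 * ε1 := by
  classical
  set G : (Fin p.q → ℕ) → ℕ → ℝ → ENNReal := fun h r Y => ENNReal.ofReal
    (∏ l : Fin p.q, (‖MR p (TT r (h l)) (K r) l r (am k α) Y‖ / sr p l r) ^ 2) with hG
  set I : ℕ → Set ℝ := fun r => Set.Icc (4 ^ k * (XX r) ^ k - 1) (8 ^ k * (XX r) ^ k + 1) with hI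
  set S : Finset (Fin p.q → ℕ) := Fintype.piFinset fun _ => Finset.range (p.u + 1) with hS
  have hGm : ∀ h r, Measurable (G h r) := by
    intro h r
    rw [hG]
    have hcont : Continuous (fun Y : ℝ =>
        ∏ l : Fin p.q, (‖MR p (TT r (h l)) (K r) l r (am k α) Y‖ / sr p l r) ^ 2) := by
      refine continuous_finsetProd _ fun l _ => ?_
      have h2 := (mb_cont p (TT_meas r (h l)) (fun θ hθ => TT_le hθ) (hK r).measurable (hCK r)
        (c := fun _ _ => 1) (fun _ => continuous_const) 0 (l : ℕ) r).comp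
        (Continuous.prodMk_right α)
      have h3 : Continuous fun Y : ℝ => MR p (TT r (h l)) (K r) l r (am k α) Y := by
        refine h2.congr fun Y => ?_
        exact mb_real p (TT r (h l)) (K r) l r (am k α) Y
      exact (h3.norm.div_const _).pow 2
    exact hcont.measurable.ennreal_ofReal
  have hlim : Tendsto (fun r : ℕ => ∑ h ∈ S, ∫⁻ Y in I r, G h r Y) atTop (𝓝 0) := by
    have h2 : Tendsto (fun r : ℕ => ∑ h ∈ S, ∫⁻ Y in I r, G h r Y) atTop
        (𝓝 (∑ _h ∈ S, (0 : ENNReal))) := by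
      refine tendsto_finsetSum _ fun h hh => ?_
      refine hgood h fun l => ?_
      have h3 := Fintype.mem_piFinset.1 hh l
      have := Finset.mem_range.1 h3
      omega
    simpa using h2
  set c0 : ℝ := c / (p.u + 1) with hc0
  have hu0 : (0 : ℝ) < p.u + 1 := by positivity
  have hc0' : 0 < c0 := div_pos hc hu0
  set c1 : ℝ := (c0 ^ 2) ^ p.q with hc1
  have hc1' : 0 < c1 := by positivity
  have hev : ∀ᶠ r : ℕ in atTop, ∑ h ∈ S, ∫⁻ Y in I r, G h r Y < ENNReal.ofReal (c1 * (2 * ε1)) := by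
    refine hlim.eventually (gt_mem_nhds ?_)
    rw [ENNReal.ofReal_pos]
    positivity
  obtain ⟨r0, hr0⟩ := eventually_atTop.1 (hev.and hlow)
  have hk1 : 1 ≤ k := by have := p.hk; omega
  refine ⟨4 ^ k * XX r0 ^ k, fun y hy => ?_⟩
  obtain ⟨r, hr, hy1, hy2⟩ := finalD_scale hk1 r0 hy
  obtain ⟨hlt, hlowr⟩ := hr0 r hr
  by_contra hcon
  push Not at hcon
  have hfar : ∀ l : ℕ, ∀ z ∈ ZR p r, ∀ b ∈ BR p l r, 2 * ε1 ≤
      |zsum (fun x => (x : ℝ) ^ k) z + ∑ j, am k α j (b j) - y| := by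
    intro l z hz b hb
    obtain ⟨x, hx, hxs⟩ := finA_plain p hz
    have h2 := hcon x b hx (finA_pos p hb)
    rw [hxs] at h2
    exact h2
  have hpt : ∀ Y ∈ Set.Icc (y - ε1) (y + ε1), ENNReal.ofReal c1 ≤ ∑ h ∈ S, G h r Y := by
    intro Y hY
    have hYI1 : 4 ^ k * (XX r) ^ k - 1 ≤ Y := by linarith [hY.1]
    have hYI2 : Y ≤ 8 ^ k * (XX r) ^ k + 1 := by linarith [hY.2]
    have hmid : ∀ l : Fin p.q, ∃ h, h ≤ p.u ∧
        c0 ≤ ‖MR p (TT r h) (K r) l r (am k α) Y‖ / sr p l r := by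
      intro l
      have h2 := hlowr l Y hYI1 hYI2 (fun z hz b hb => by
        have h3 := hfar l z hz b hb
        have h4 : |Y - y| ≤ ε1 := by
          rw [abs_le]
          constructor
          · linarith [hY.1]
          · linarith [hY.2]
        have h5 : |zsum (fun x => (x : ℝ) ^ k) z + ∑ j, am k α j (b j) - y| ≤
            |zsum (fun x => (x : ℝ) ^ k) z + ∑ j, am k α j (b j) - Y| + |Y - y| := by
          have h6 : zsum (fun x => (x : ℝ) ^ k) z + ∑ j, am k α j (b j) - y =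
            (zsum (fun x => (x : ℝ) ^ k) z + ∑ j, am k α j (b j) - Y) + (Y - y) := by ring
          rw [h6]
          exact abs_add_le _ _
        linarith)
      by_contra hno
      push Not at hno
      have h3 : ∑ h ∈ Finset.range (p.u + 1), ‖MR p (TT r h) (K r) l r (am k α) Y‖ / sr p l r <
          ∑ _h ∈ Finset.range (p.u + 1), c0 := by
        refine Finset.sum_lt_sum_of_nonempty ⟨0, Finset.mem_range.2 (by omega)⟩ fun h hh => ?_
        exact hno h (by have := Finset.mem_range.1 hh; omega)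
      rw [Finset.sum_const, Finset.card_range, nsmul_eq_mul] at h3
      have h4 : ((p.u + 1 : ℕ) : ℝ) * c0 = c := by
        rw [hc0]
        push_cast
        field_simp
      rw [h4] at h3
      exact absurd h2 (not_le.2 h3)
    choose H hH1 hH2 using hmid
    have hmem : H ∈ S := by
      rw [hS, Fintype.mem_piFinset]
      intro l
      exact Finset.mem_range.2 (by have := hH1 l; omega)
    have hle : ENNReal.ofReal c1 ≤ G H r Y := by
      rw [hG]
      refine ENNReal.ofReal_le_ofReal ?_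
      have h2 : c1 = ∏ _l : Fin p.q, c0 ^ 2 := by
        rw [Finset.prod_const, Finset.card_univ, Fintype.card_fin]
      rw [h2]
      refine Finset.prod_le_prod (fun l _ => by positivity) fun l _ => ?_
      exact pow_le_pow_left₀ hc0'.le (hH2 l) 2
    exact hle.trans (Finset.single_le_sum (f := fun h => G h r Y) (fun _ _ => zero_le) hmem)
  have hsub : Set.Icc (y - ε1) (y + ε1) ⊆ I r := by
    refine Set.Icc_subset_Icc ?_ ?_
    · linarith
    · linarith
  have hfin : ENNReal.ofReal (c1 * (2 * ε1)) ≤ ∑ h ∈ S, ∫⁻ Y in I r, G h r Y := by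
    calc ENNReal.ofReal (c1 * (2 * ε1))
        = ∫⁻ _Y in Set.Icc (y - ε1) (y + ε1), ENNReal.ofReal c1 := by
          rw [setLIntegral_const, Real.volume_Icc, ENNReal.ofReal_mul hc1'.le]
          congr 2
          ring
      _ ≤ ∫⁻ Y in Set.Icc (y - ε1) (y + ε1), ∑ h ∈ S, G h r Y :=
          setLIntegral_mono' measurableSet_Icc hpt
      _ ≤ ∫⁻ Y in I r, ∑ h ∈ S, G h r Y := lintegral_mono_set hsub
      _ = ∑ h ∈ S, ∫⁻ Y in I r, G h r Y :=
          lintegral_finsetSum _ fun h _ => hGm h r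
  exact absurd hfin (not_le.2 hlt)

theorem apx_aeR {k T : ℕ} (p : ParR k T) :
    ∀ᵐ α : Fin T → ℝ, (∀ j, 0 < α j) → ApxRR k (p.n1 + p.n2 + 1) T α := by
  have hε : ∀ m : ℕ, (0 : ℝ) < 1 / ((m : ℝ) + 1) := fun m => by positivity
  have hε1 : ∀ m : ℕ, (1 : ℝ) / ((m : ℝ) + 1) ≤ 1 := fun m => by
    rw [div_le_one (by positivity)]
    have : (0 : ℝ) ≤ m := Nat.cast_nonneg m
    linarith
  choose C K hC hKc hKb hlow using fun m : ℕ => low_asmR p (hε m) (hε1 m)
  have hgood : ∀ᵐ α : Fin T → ℝ, ∀ m : ℕ, ∀ h : Fin p.q → ℕ, (∀ l, h l ≤ p.u) →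
      Tendsto (fun r : ℕ =>
        ∫⁻ Y in Set.Icc (4 ^ k * (XX r) ^ k - 1) (8 ^ k * (XX r) ^ k + 1), ENNReal.ofReal
          (∏ l : Fin p.q, (‖MR p (TT r (h l)) (K m r) l r (am k α) Y‖ / sr p l r) ^ 2))
        atTop (𝓝 0) := by
    rw [ae_all_iff]
    intro m
    exact ae_goodR p (K m) (hKc m) (hKb m)
  filter_upwards [hgood] with α ht1 hα
  intro ε hεp
  obtain ⟨m, hm⟩ := exists_nat_one_div_lt (half_pos hεp)
  obtain ⟨c, hc, hev⟩ := hlow m α hα
  obtain ⟨Y, hY⟩ := finA_core p (hKc m) (hKb m) (hε m) (hε1 m) hc hev (ht1 m)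
  refine ⟨Y, fun y hy => ?_⟩
  obtain ⟨x, z, hx, hz, hxy⟩ := hY y hy
  refine ⟨x, z, hx, hz, hxy.trans ?_⟩
  linarith

end RWar
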