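import Pool.Agent.RWar.AsmR
import Pool.Agent.RWar.AeR
import Pool.Agent.MWg.FinalD

/-!
# RWar.FinR: exact representation for almost all coefficients

PROOF. As `Pool/Agent/IWar/FinF.lean`, but without the pigeonhole argument. Let `C`, `K` be given by `asmR`, `α` in
the set of full measure of `ae_R`, `α_j > 0`, and suppose that arbitrarily large `N` are not represented by
`n1 + n2 + 1` plain letters and `T` generic letters. For such an `N` choose `r` with `N ∈ NN k r`
(`finalD_scale`). No tuple of any family `l < q` represents `N` (`ZR` and `BR` give a representation: the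
letters of `z` are `n1 + n2 + 1` positive naturals: `chain_length`, `chain_fst_pos`, `MWg.list_fin`,
compare `HWar.lets`; `letter_le`). So for every `l : Fin q` one of the `2(u+1) + 1` quantities of `asmR` is
`≥ c' = c/(2u+3)`: there are a kind `κ l` and `h l ≤ u` with
`‖MR p (kS (κ l) (h l) r) (K (κ l) r) l r (kf (κ l) k α) N‖/sr ≥ c'`. So
`∏_l (..)² ≥ c'^(2q)` for this `κ`, `h`, and the finite sum over all `κ : Fin q → Fin 3` and
`h : Fin q → Fin (u+1)` of `∑_{N ∈ NN k r} ∏_l (..)²` is `≥ c'^(2q)` for arbitrarily large `r`, contradicting `ae_R`.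
`plain_mono`: apply the statement to `N - (r - r0)` and add `r - r0` letters `1` (`1^k = 1`).
-/

namespace RWar

open Filter Topology MeasureTheory MWg HWar IWar

/-- `r` plain `k`-th powers and the integer parts of `T` powers with the coefficients `α`. -/
def ExactR (k r T : ℕ) (α : Fin T → ℝ) : Prop :=
  ∃ N0 : ℤ, ∀ N : ℤ, N0 ≤ N → ∃ (x : Fin r → ℕ) (y : Fin T → ℕ), (∀ i, 0 < x i) ∧
    (∀ j, 0 < y j) ∧ ∑ i, (x i : ℤ) ^ k + ∑ j, ⌊α j * (y j : ℝ) ^ k⌋ = N

theorem plain_mono {k r0 r T : ℕ} (hr : r0 ≤ r) {α : Fin T → ℝ} (h : ExactR k r0 T α) :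
    ExactR k r T α := by
  obtain ⟨j, rfl⟩ : ∃ j, r = r0 + j := ⟨r - r0, by omega⟩
  obtain ⟨N0, hN0⟩ := h
  refine ⟨N0 + j, fun N hN => ?_⟩
  obtain ⟨x, y, hx, hy, hxN⟩ := hN0 (N - j) (by linarith)
  refine ⟨Fin.append x (fun _ => 1), y, fun i => ?_, hy, ?_⟩
  · refine Fin.addCases (fun i => ?_) (fun i => ?_) i
    · rw [Fin.append_left]
      exact hx i
    · rw [Fin.append_right]
      exact Nat.one_pos
  · rw [Fin.sum_univ_add]
    simp only [Fin.append_left, Fin.append_right, Finset.sum_const, Finset.card_univ,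
      Fintype.card_fin, nsmul_eq_mul, Nat.cast_one, one_pow, mul_one]
    linarith

/-- The list of all plain letters. -/
private def FinR_lets (z : Zt) : List ℕ :=
  z.1.1.map Prod.fst ++ (z.1.2.map Prod.fst ++ [z.2])

private theorem FinR_lets_sum (z : Zt) (φ : ℕ → ℝ) :
    ((FinR_lets z).map φ).sum = zsum φ z := by
  unfold FinR_lets zsum
  simp only [List.map_append, List.sum_append, List.map_map, List.map_cons, List.sum_cons,
    List.map_nil, List.sum_nil, Function.comp_def, add_zero]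
  ring

private theorem FinR_lets_length {k T : ℕ} (p : ParR k T) {r : ℕ} {z : Zt} (hz : z ∈ ZR p r) :
    (FinR_lets z).length = p.n1 + p.n2 + 1 := by
  unfold ZR at hz
  obtain ⟨h1, _⟩ := Finset.mem_product.1 hz
  obtain ⟨h2, h3⟩ := Finset.mem_product.1 h1
  unfold FinR_lets
  simp only [List.length_append, List.length_map, List.length_cons, List.length_nil,
    chain_length h2, chain_length h3]
  ring

private theorem FinR_lets_pos {k T : ℕ} (p : ParR k T) {r : ℕ} {z : Zt} (hz : z ∈ ZR p r) :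
    ∀ x ∈ FinR_lets z, 0 < x := by
  unfold ZR at hz
  obtain ⟨h1, h4⟩ := Finset.mem_product.1 hz
  obtain ⟨h2, h3⟩ := Finset.mem_product.1 h1
  intro x hx
  unfold FinR_lets at hx
  rw [List.mem_append, List.mem_append, List.mem_singleton, List.mem_map, List.mem_map] at hx
  rcases hx with ⟨p, hp, rfl⟩ | ⟨p, hp, rfl⟩ | rfl
  · exact chain_fst_pos h2 p hp
  · exact chain_fst_pos h3 p hp
  · unfold J1 at h4
    have := (Finset.mem_Ioc.1 h4).1
    omega

theorem exact_aeR {k T : ℕ} (p : ParR k T) :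
    ∀ᵐ α : Fin T → ℝ, (∀ j, 0 < α j) → ExactR k (p.n1 + p.n2 + 1) T α := by
  classical
  obtain ⟨C, K, _, hKm, hKb, hasm⟩ := asmR p
  filter_upwards [ae_R p K hKm hKb] with α hα hpos
  obtain ⟨c, hc, hev⟩ := hasm α hpos
  by_contra hnot
  have hk5 := p.hk
  let V : ℕ → ℕ → Fin 3 → ℕ → ℕ → ℝ := fun r N κ h l =>
    ‖MR p (kS κ h r) (K κ r) l r (kf κ k α) (N : ℝ)‖ / sr p l r
  have hd : (0 : ℝ) < 2 * ((p.u : ℝ) + 1) + 1 := by positivity
  set c' : ℝ := c / (2 * ((p.u : ℝ) + 1) + 1) with hc'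
  have hc'0 : 0 < c' := div_pos hc hd
  have hc1 : 0 < (c' ^ 2) ^ p.q := by positivity
  have hall : ∀ᶠ r : ℕ in atTop, ∀ (κ : Fin p.q → Fin 3) (h : Fin p.q → Fin (p.u + 1)),
      ∑ N ∈ NN k r, ∏ l : Fin p.q, (V r N (κ l) (h l) l) ^ 2 < (c' ^ 2) ^ p.q := by
    rw [eventually_all]
    intro κ
    rw [eventually_all]
    intro h
    exact (hα κ (fun l => (h l : ℕ)) (fun l => by have := (h l).2; omega)).eventually
      (gt_mem_nhds hc1)
  obtain ⟨r0, hr0⟩ := eventually_atTop.1 ((hev.and hall).and (letter_le p))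
  -- a large integer without a representation
  obtain ⟨N, hN, hNrep⟩ : ∃ N : ℤ, ⌈(4 : ℝ) ^ k * XX r0 ^ k⌉ ≤ N ∧
      ∀ (x : Fin (p.n1 + p.n2 + 1) → ℕ) (y : Fin T → ℕ), (∀ i, 0 < x i) → (∀ j, 0 < y j) →
        ∑ i, (x i : ℤ) ^ k + ∑ j, ⌊α j * (y j : ℝ) ^ k⌋ ≠ N := by
    by_contra hcon
    push Not at hcon
    exact hnot ⟨_, hcon⟩
  have hNr : (4 : ℝ) ^ k * XX r0 ^ k ≤ (N : ℝ) := Int.ceil_le.1 hN
  have hN0 : 0 ≤ N := by
    have h1 : (0 : ℝ) ≤ (4 : ℝ) ^ k * XX r0 ^ k :=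
      mul_nonneg (by positivity) (pow_nonneg (finalD_XX_pos r0).le k)
    exact_mod_cast h1.trans hNr
  obtain ⟨N', rfl⟩ := Int.eq_ofNat_of_zero_le hN0
  obtain ⟨r, hrr, hr1, hr2⟩ := finalD_scale (k := k) (by omega) r0 hNr
  obtain ⟨⟨hrev, hrall⟩, hrlet⟩ := hr0 r hrr
  have hNN : N' ∈ NN k r := by
    unfold NN
    rw [Finset.mem_Icc]
    rw [← mul_pow] at hr1 hr2
    unfold XX at hr1 hr2
    constructor
    · have h1 : (((4 * 2 ^ r) ^ k : ℕ) : ℝ) ≤ ((N' : ℕ) : ℝ) := by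
        push_cast
        push_cast at hr1
        exact hr1
      exact_mod_cast h1
    · have h1 : ((N' : ℕ) : ℝ) ≤ (((8 * 2 ^ r) ^ k : ℕ) : ℝ) := by
        push_cast
        push_cast at hr2
        exact hr2
      exact_mod_cast h1
  have hbad : ∀ l : Fin p.q, ∃ (κ : Fin 3) (h : Fin (p.u + 1)), c' ≤ V r N' κ h l := by
    intro l
    have h1 := hrev l N' hNN (fun z hz b hb heq => by
      obtain ⟨x, hx, hxs⟩ := list_fin (FinR_lets z) (FinR_lets_length p hz)
      refine hNrep x b (fun i => FinR_lets_pos p hz _ (hx i))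
        (fun j => (hrlet l b hb j).1) ?_
      have h2 := hxs (fun x : ℕ => (x : ℝ) ^ k)
      rw [FinR_lets_sum] at h2
      rw [← h2] at heq
      unfold af at heq
      have h3 : ((∑ i, (x i : ℤ) ^ k + ∑ j, ⌊α j * (b j : ℝ) ^ k⌋ : ℤ) : ℝ) =
          (((N' : ℕ) : ℤ) : ℝ) := by
        push_cast
        exact heq
      exact_mod_cast h3)
    by_contra hcon
    push Not at hcon
    have hs : ∀ h ∈ Finset.range (p.u + 1),
        ‖MR p (TT r h) (K 0 r) l r (am k α) (N' : ℝ)‖ / sr p l r +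
          ‖MR p (TT r h) (K 1 r) l r (am k α) (N' : ℝ)‖ / sr p l r ≤ 2 * c' := by
      intro h hh
      have hh' : h < p.u + 1 := Finset.mem_range.1 hh
      have e0 : ‖MR p (TT r h) (K 0 r) l r (am k α) (N' : ℝ)‖ / sr p l r < c' :=
        hcon 0 ⟨h, hh'⟩
      have e1 : ‖MR p (TT r h) (K 1 r) l r (am k α) (N' : ℝ)‖ / sr p l r < c' :=
        hcon 1 ⟨h, hh'⟩
      linarith
    have e2 : ‖MR p (TH r) (K 2 r) l r (af k α) (N' : ℝ)‖ / sr p l r < c' :=
      hcon 2 ⟨0, by omega⟩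
    have h4 := Finset.sum_le_sum hs
    rw [Finset.sum_const, Finset.card_range, nsmul_eq_mul] at h4
    have h5 : c = (2 * ((p.u : ℝ) + 1) + 1) * c' := by
      rw [hc']
      field_simp
    push_cast at h4
    have h6 : ((p.u : ℝ) + 1) * (2 * c') + c' = c := by
      rw [h5]
      ring
    linarith
  choose κ h hκ using hbad
  have h1 := hrall κ h
  have h2 : (c' ^ 2) ^ p.q ≤ ∏ l : Fin p.q, (V r N' (κ l) (h l) l) ^ 2 := by
    have h3 : (c' ^ 2) ^ p.q = ∏ _i : Fin p.q, c' ^ 2 := by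
      rw [Finset.prod_const, Finset.card_univ, Fintype.card_fin]
    rw [h3]
    exact Finset.prod_le_prod (fun _ _ => by positivity)
      fun i _ => pow_le_pow_left₀ hc'0.le (hκ i) 2
  have h3 : ∏ l : Fin p.q, (V r N' (κ l) (h l) l) ^ 2 ≤
      ∑ N ∈ NN k r, ∏ l : Fin p.q, (V r N (κ l) (h l) l) ^ 2 :=
    Finset.single_le_sum (f := fun N => ∏ l : Fin p.q, (V r N (κ l) (h l) l) ^ 2)
      (fun N _ => Finset.prod_nonneg fun i _ => by positivity) hNN
  linarith

end RWar
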