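import Pool.Agent.IWar.HighW

/-!
# RWar.GaussG: Gaussian mean of a product of squares as an integral over pairs

PROOF. As the first half of `IWar.highW` (`Pool/Agent/IWar/HighW.lean`, proved), from `IWar.gaussW`: for fixed
`t`, `∏_l ∑_{b ∈ 𝓑 l} I_l(b) = ∑_{β ∈ piFinset 𝓑} ∏_l I_l(β l)` and
`∏_l I_l(β l) = ∫_{τ ∈ ∏ S l} ∏_l ψ l (β l) (τ l) ee (∑_i t_i ∑_l V l (β l) (τ l) i) dτ`. Apply `gaussW` with
the weight `∏_l (w l (β l) χ l (τ l))` on `∏ S l`, `0` elsewhere (bounded by `∏ max w · B^q`), and write the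
resulting double integral with `∫⁻` (all functions are nonnegative, bounded and measurable on sets of
finite measure; Tonelli).
-/

namespace RWar

open MeasureTheory MWg HWar IWar

private theorem GaussG_ee_norm (x : ℝ) : ‖ee x‖ = 1 := by
  have h : (2 * Real.pi * x * Complex.I : ℂ) = ((2 * Real.pi * x : ℝ) : ℂ) * Complex.I := by
    push_cast
    ring
  rw [ee, h, Complex.norm_exp_ofReal_mul_I]

private theorem GaussG_ee_add (x y : ℝ) : ee (x + y) = ee x * ee y := by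
  rw [ee, ee, ee, ← Complex.exp_add]
  congr 1
  push_cast
  ring

private theorem GaussG_ee_sum {ι : Type*} (s : Finset ι) (f : ι → ℝ) :
    ee (∑ i ∈ s, f i) = ∏ i ∈ s, ee (f i) := by
  classical
  induction s using Finset.induction_on with
  | empty => simp [ee]
  | insert a s ha ih => rw [Finset.sum_insert ha, Finset.prod_insert ha, GaussG_ee_add, ih]

private theorem GaussG_ee_meas : Measurable ee := by
  unfold ee
  fun_prop

private theorem GaussG_count {ι X : Type*} [Fintype ι] [MeasurableSpace ι]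
    [MeasurableSingletonClass ι] [MeasurableSpace X] (μ : Measure X) [IsFiniteMeasure μ]
    (f : ι × X → ℂ) (hf : Measurable f) {C : ℝ} (hC : ∀ p, ‖f p‖ ≤ C) :
    ∫ p, f p ∂((Measure.count : Measure ι).prod μ) = ∑ i, ∫ x, f (i, x) ∂μ := by
  have hint : Integrable f ((Measure.count : Measure ι).prod μ) :=
    Integrable.of_bound hf.aestronglyMeasurable C (Filter.Eventually.of_forall hC)
  rw [integral_prod f hint, integral_fintype hint.integral_prod_left]
  apply Finset.sum_congr rfl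
  intro i _
  simp [measureReal_def]

private theorem GaussG_gw_le_one {d : ℕ} (y : Fin d → ℝ) : gw y ≤ 1 := by
  unfold gw
  rw [Real.exp_le_one_iff]
  have h1 : 0 ≤ ∑ i, y i ^ 2 := Finset.sum_nonneg fun i _ => sq_nonneg _
  nlinarith [Real.pi_pos]

private theorem GaussG_gw_nonneg {d : ℕ} (y : Fin d → ℝ) : 0 ≤ gw y := (Real.exp_pos _).le

private theorem GaussG_gw_meas {d : ℕ} : Measurable (gw : (Fin d → ℝ) → ℝ) := by
  unfold gw
  fun_prop

/-- Lower integral over `count × μ`. -/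
private theorem GaussG_lcount {ι X : Type*} [Fintype ι] [MeasurableSpace ι]
    [MeasurableSingletonClass ι] [MeasurableSpace X] (μ : Measure X) [SFinite μ]
    (f : ι × X → ENNReal) (hf : Measurable f) :
    ∫⁻ p, f p ∂((Measure.count : Measure ι).prod μ) = ∑ i, ∫⁻ x, f (i, x) ∂μ := by
  rw [lintegral_prod f hf.aemeasurable, lintegral_count, tsum_fintype]

/-- A double integral of a bounded nonnegative measurable function, as a lower integral. -/
private theorem GaussG_dbl {Ω : Type*} [MeasurableSpace Ω] (ρ : Measure Ω) [IsFiniteMeasure ρ]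
    (F : Ω × Ω → ℝ) (hF : Measurable F) (hF0 : ∀ p, 0 ≤ F p) :
    ENNReal.ofReal (∫ ω, ∫ ω', F (ω, ω') ∂ρ ∂ρ) ≤
      ∫⁻ ω, ∫⁻ ω', ENNReal.ofReal (F (ω, ω')) ∂ρ ∂ρ := by
  have h1 : ∀ ω, ∫ ω', F (ω, ω') ∂ρ = (∫⁻ ω', ENNReal.ofReal (F (ω, ω')) ∂ρ).toReal := by
    intro ω
    exact integral_eq_lintegral_of_nonneg_ae (Filter.Eventually.of_forall fun ω' => hF0 _)
      (hF.comp (measurable_const.prodMk measurable_id)).aestronglyMeasurable
  have h2 : ENNReal.ofReal (∫ ω, ∫ ω', F (ω, ω') ∂ρ ∂ρ) ≤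
      ∫⁻ ω, ENNReal.ofReal (∫ ω', F (ω, ω') ∂ρ) ∂ρ := by
    have h3 : AEStronglyMeasurable (fun ω => ∫ ω', F (ω, ω') ∂ρ) ρ := by
      have h4 : (fun ω => ∫ ω', F (ω, ω') ∂ρ) =
          fun ω => (∫⁻ ω', ENNReal.ofReal (F (ω, ω')) ∂ρ).toReal := funext h1
      rw [h4]
      have h5 : Measurable fun ω => ∫⁻ ω', ENNReal.ofReal (F (ω, ω')) ∂ρ :=
        Measurable.lintegral_prod_right' (ENNReal.measurable_ofReal.comp hF)
      exact (ENNReal.measurable_toReal.comp h5).aestronglyMeasurable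
    rw [integral_eq_lintegral_of_nonneg_ae (Filter.Eventually.of_forall fun ω =>
      integral_nonneg fun ω' => hF0 _) h3]
    exact ENNReal.ofReal_toReal_le
  refine h2.trans (lintegral_mono fun ω => ?_)
  rw [h1]
  exact ENNReal.ofReal_toReal_le

theorem gaussG {q d : ℕ} {β : Type} [DecidableEq β] (𝓑 : Fin q → Finset β) (S : Fin q → Set ℝ)
    (hS : ∀ l, MeasurableSet (S l)) {R : ℝ} (hSR : ∀ l, ∀ θ ∈ S l, |θ| ≤ R)
    (ψ : Fin q → β → ℝ → ℂ) (hψ : ∀ l b, Measurable (ψ l b)) (w : Fin q → β → ℝ)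
    (hw : ∀ l b, 0 ≤ w l b) (χ : Fin q → ℝ → ℝ) (hχ : ∀ l, Measurable (χ l))
    (hχ0 : ∀ l θ, 0 ≤ χ l θ) {B : ℝ} (hχB : ∀ l θ, χ l θ ≤ B)
    (hb : ∀ l, ∀ b ∈ 𝓑 l, ∀ θ ∈ S l, ‖ψ l b θ‖ ≤ w l b * χ l θ)
    (V : Fin q → β → ℝ → Fin d → ℝ) (hV : ∀ l b i, Measurable fun θ => V l b θ i) :
    ∫⁻ t : Fin d → ℝ, ENNReal.ofReal (gw t *
        ∏ l, ‖∑ b ∈ 𝓑 l, ∫ θ in S l, ψ l b θ * ee (∑ i, t i * V l b θ i)‖ ^ 2) ≤
      ∫⁻ τ in Set.pi Set.univ S, ∫⁻ τ' in Set.pi Set.univ S,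
        ∑ b ∈ Fintype.piFinset 𝓑, ∑ b' ∈ Fintype.piFinset 𝓑,
          ENNReal.ofReal ((∏ l, (w l (b l) * χ l (τ l) * (w l (b' l) * χ l (τ' l)))) *
            gw (fun i => ∑ l, (V l (b l) (τ l) i - V l (b' l) (τ' l) i))) := by
  classical
  let ι : Type := {b : Fin q → β // b ∈ Fintype.piFinset 𝓑}
  let _ : MeasurableSpace ι := ⊤
  have : DiscreteMeasurableSpace ι := ⟨fun _ => trivial⟩
  have hSsub : ∀ l, S l ⊆ Set.Icc (-R) R := fun l θ hθ => abs_le.1 (hSR l θ hθ)
  have hfin : ∀ l, IsFiniteMeasure (volume.restrict (S l)) := fun l =>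
    ⟨by
      rw [Measure.restrict_apply_univ]
      refine lt_of_le_of_lt (measure_mono (hSsub l)) ?_
      rw [Real.volume_Icc]
      exact ENNReal.ofReal_lt_top⟩
  let μ : Measure (Fin q → ℝ) := Measure.pi fun l => volume.restrict (S l)
  have hμeq : μ = (volume : Measure (Fin q → ℝ)).restrict (Set.pi Set.univ S) := by
    rw [volume_pi, Measure.restrict_pi_pi]
  let ρ : Measure (ι × (Fin q → ℝ)) := (Measure.count : Measure ι).prod μ
  let Ψ : ι × (Fin q → ℝ) → ℂ := fun x => ∏ l, (S l).indicator (ψ l (x.1.1 l)) (x.2 l)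
  let W : ι × (Fin q → ℝ) → ℝ := fun x => ∏ l, (w l (x.1.1 l) * χ l (x.2 l))
  let v : ι × (Fin q → ℝ) → Fin d → ℝ := fun x i => ∑ l, V l (x.1.1 l) (x.2 l) i
  have hΨ : Measurable Ψ := by
    refine measurable_from_prod_countable_right fun b => ?_
    change Measurable fun τ : Fin q → ℝ => ∏ l, (S l).indicator (ψ l (b.1 l)) (τ l)
    apply Finset.measurable_prod
    intro l _
    exact ((hψ l (b.1 l)).indicator (hS l)).comp (measurable_pi_apply l)
  have hW : Measurable W := by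
    refine measurable_from_prod_countable_right fun b => ?_
    change Measurable fun τ : Fin q → ℝ => ∏ l, (w l (b.1 l) * χ l (τ l))
    apply Finset.measurable_prod
    intro l _
    exact ((hχ l).comp (measurable_pi_apply l)).const_mul _
  have hv : Measurable v := by
    rw [measurable_pi_iff]
    intro i
    refine measurable_from_prod_countable_right fun b => ?_
    change Measurable fun τ : Fin q → ℝ => ∑ l, V l (b.1 l) (τ l) i
    apply Finset.measurable_sum
    intro l _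
    exact (hV l (b.1 l) i).comp (measurable_pi_apply l)
  have hW0 : ∀ x, 0 ≤ W x := fun x =>
    Finset.prod_nonneg fun l _ => mul_nonneg (hw l _) (hχ0 l _)
  have hΨW : ∀ x, ‖Ψ x‖ ≤ W x := by
    intro x
    change ‖∏ l, (S l).indicator (ψ l (x.1.1 l)) (x.2 l)‖ ≤ ∏ l, (w l (x.1.1 l) * χ l (x.2 l))
    rw [norm_prod]
    apply Finset.prod_le_prod (fun l _ => norm_nonneg _)
    intro l _
    by_cases h : x.2 l ∈ S l
    · rw [Set.indicator_of_mem h]
      exact hb l _ (Fintype.mem_piFinset.1 x.1.2 l) _ h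
    · rw [Set.indicator_of_notMem h, norm_zero]
      exact mul_nonneg (hw l _) (hχ0 l _)
  obtain ⟨C, hCdef⟩ : ∃ C : ℝ, C = ∑ b : ι, ∏ l, (w l (b.1 l) * |B|) := ⟨_, rfl⟩
  have hC : ∀ x, W x ≤ C := by
    intro x
    rw [hCdef]
    have h1 : W x ≤ ∏ l, (w l (x.1.1 l) * |B|) := by
      apply Finset.prod_le_prod (fun l _ => mul_nonneg (hw l _) (hχ0 l _))
      intro l _
      exact mul_le_mul_of_nonneg_left ((hχB l _).trans (le_abs_self B)) (hw l _)
    refine h1.trans ?_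
    exact Finset.single_le_sum (f := fun b : ι => ∏ l, (w l (b.1 l) * |B|))
      (fun b _ => Finset.prod_nonneg fun l _ => mul_nonneg (hw l _) (abs_nonneg B))
      (Finset.mem_univ x.1)
  -- the product of the sums is one integral
  have hz : ∀ t : Fin d → ℝ,
      ∏ l, ∑ b ∈ 𝓑 l, ∫ θ in S l, ψ l b θ * ee (∑ i, t i * V l b θ i) =
        ∫ x, Ψ x * ee (∑ i, t i * v x i) ∂ρ := by
    intro t
    have hm : Measurable fun x : ι × (Fin q → ℝ) => Ψ x * ee (∑ i, t i * v x i) := by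
      refine hΨ.mul (GaussG_ee_meas.comp ?_)
      apply Finset.measurable_sum
      intro i _
      exact ((measurable_pi_apply i).comp hv).const_mul _
    rw [GaussG_count μ _ hm (C := C)
      (fun x => by rw [norm_mul, GaussG_ee_norm, mul_one]; exact (hΨW x).trans (hC x)),
      Finset.prod_univ_sum]
    rw [← Finset.sum_coe_sort (Fintype.piFinset 𝓑)]
    apply Finset.sum_congr rfl
    intro b _
    have h1 := integral_fintype_prod_eq_prod (𝕜 := ℂ) (E := fun _ : Fin q => ℝ)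
      (fun (l : Fin q) (θ : ℝ) => (S l).indicator (ψ l (b.1 l)) θ *
        ee (∑ i, t i * V l (b.1 l) θ i))
      (μ := fun l => volume.restrict (S l))
    have h0 : ∀ l : Fin q, ∫ θ in S l, ψ l (b.1 l) θ * ee (∑ i, t i * V l (b.1 l) θ i) =
        ∫ θ in S l, (S l).indicator (ψ l (b.1 l)) θ * ee (∑ i, t i * V l (b.1 l) θ i) := by
      intro l
      refine setIntegral_congr_fun (hS l) fun θ hθ => ?_
      rw [Set.indicator_of_mem hθ]
    rw [Finset.prod_congr rfl fun l _ => h0 l, ← h1]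
    apply integral_congr_ae
    refine Filter.Eventually.of_forall fun τ => ?_
    change ∏ l, ((S l).indicator (ψ l (b.1 l)) (τ l) *
        ee (∑ i, t i * V l (b.1 l) (τ l) i)) =
      (∏ l, (S l).indicator (ψ l (b.1 l)) (τ l)) *
        ee (∑ i, t i * ∑ l, V l (b.1 l) (τ l) i)
    have h2 : ∑ i, t i * ∑ l, V l (b.1 l) (τ l) i =
        ∑ l, ∑ i, t i * V l (b.1 l) (τ l) i := by
      simp only [Finset.mul_sum]
      rw [Finset.sum_comm]
    rw [h2, GaussG_ee_sum, ← Finset.prod_mul_distrib]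
  have hmain := gaussW ρ Ψ hΨ W hW hΨW hC v hv
  have hlhs : (∫⁻ t : Fin d → ℝ, ENNReal.ofReal (gw t *
        ∏ l, ‖∑ b ∈ 𝓑 l, ∫ θ in S l, ψ l b θ * ee (∑ i, t i * V l b θ i)‖ ^ 2)) =
      ∫⁻ t : Fin d → ℝ, ENNReal.ofReal (gw t * ‖∫ x, Ψ x * ee (∑ i, t i * v x i) ∂ρ‖ ^ 2) := by
    apply lintegral_congr
    intro t
    rw [← hz t, norm_prod, ← Finset.prod_pow]
  rw [hlhs]
  refine hmain.trans ?_
  let F : (ι × (Fin q → ℝ)) × (ι × (Fin q → ℝ)) → ℝ := fun p => W p.1 * W p.2 * gw (v p.1 - v p.2)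
  have hFm : Measurable F :=
    ((hW.comp measurable_fst).mul (hW.comp measurable_snd)).mul
      (GaussG_gw_meas.comp ((hv.comp measurable_fst).sub (hv.comp measurable_snd)))
  have hF0 : ∀ p, 0 ≤ F p := fun p =>
    mul_nonneg (mul_nonneg (hW0 _) (hW0 _)) (GaussG_gw_nonneg _)
  refine (GaussG_dbl ρ F hFm hF0).trans ?_
  have hFm2 : Measurable fun p => ENNReal.ofReal (F p) := ENNReal.measurable_ofReal.comp hFm
  have hin : ∀ x, ∫⁻ x', ENNReal.ofReal (F (x, x')) ∂ρ =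
      ∑ b' : ι, ∫⁻ τ', ENNReal.ofReal (F (x, (b', τ'))) ∂μ := fun x =>
    GaussG_lcount μ (fun x' => ENNReal.ofReal (F (x, x')))
      (hFm2.comp (measurable_const.prodMk measurable_id))
  have hm1 : Measurable fun x => ∫⁻ x', ENNReal.ofReal (F (x, x')) ∂ρ :=
    Measurable.lintegral_prod_right' hFm2
  rw [GaussG_lcount μ _ hm1]
  have hm2 : ∀ b : ι, Measurable fun τ => ∫⁻ x', ENNReal.ofReal (F ((b, τ), x')) ∂ρ := fun b =>
    hm1.comp (measurable_const.prodMk measurable_id)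
  rw [← lintegral_finsetSum _ fun b _ => hm2 b]
  rw [← hμeq]
  refine lintegral_mono fun τ => ?_
  simp only [hin]
  have hm3 : ∀ b b' : ι, Measurable fun τ' : Fin q → ℝ =>
      ENNReal.ofReal (F ((b, τ), (b', τ'))) := fun b b' =>
    hFm2.comp (measurable_const.prodMk (measurable_const.prodMk measurable_id))
  have h5 : ∀ b : ι, ∑ b' : ι, ∫⁻ τ', ENNReal.ofReal (F ((b, τ), (b', τ'))) ∂μ =
      ∫⁻ τ', ∑ b' : ι, ENNReal.ofReal (F ((b, τ), (b', τ'))) ∂μ := fun b =>
    (lintegral_finsetSum _ fun b' _ => hm3 b b').symm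
  simp only [h5]
  rw [← lintegral_finsetSum _ fun b _ => Finset.measurable_sum _ fun b' _ => hm3 b b']
  refine lintegral_mono fun τ' => ?_
  rw [← Finset.sum_coe_sort (Fintype.piFinset 𝓑)]
  refine Finset.sum_le_sum fun b _ => ?_
  rw [← Finset.sum_coe_sort (Fintype.piFinset 𝓑)]
  refine Finset.sum_le_sum fun b' _ => ?_
  apply ENNReal.ofReal_le_ofReal
  apply le_of_eq
  change (∏ l, (w l (b.1 l) * χ l (τ l))) * (∏ l, (w l (b'.1 l) * χ l (τ' l))) *
      gw ((fun i => ∑ l, V l (b.1 l) (τ l) i) - fun i => ∑ l, V l (b'.1 l) (τ' l) i) = _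
  rw [← Finset.prod_mul_distrib]
  congr 2
  funext i
  rw [Pi.sub_apply, Finset.sum_sub_distrib]

end RWar
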