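import Pool.Agent.RWar.Defs

/-!
# RWar.ParExR: existence of the parameters

PROOF. We may assume `ε ≤ 1` (for `ε > 1` use the result for `ε = 1`: `(δ+1)k ≤ (δ+ε)k ≤ T` and
`(log(1/δ)+1)k ≤ (log(1/δ)+ε)k`). Choose a natural number `q ≥ 16/ε`, `q ≥ 1`, and a prime
`G ≥ max q (16 q²/ε)` (`Nat.exists_infinite_primes`), both depending on `ε` only; let `k` be large in terms
of `q`, `G`, `ε`. Put `u = k - 7G - 3`, `n2 = 8G + 10`, `n1 = ⌈k log(1/δ)⌉₊ + n2`.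
* `hn`: `(1-1/k)^n2 ≤ 1/(1 + n2/k)` (Bernoulli for `(1+1/k)^n2` and `(1-1/k)(1+1/k) ≤ 1`), so
  `k(1-1/k)^n2 ≤ k²/(k+n2) = k - k n2/(k+n2)`, and `k n2/(k+n2) > 7G + 3` for `k ≥ n2²`.
* `(1-1/k)^n1 ≤ exp(-n1/k) ≤ δ` (`Real.one_sub_le_exp_neg` or `Real.add_one_le_exp`).
* `big` (divide by `q`): the left side is at most `δk + q + q²(T/G + 1) + 6 + (k+1)/q`, and
  `q² T/G ≤ εT/16`, `(k+1)/q ≤ ε(k+1)/16`, so it is enough that
  `δk + εk/16 + C_ε ≤ T (1 - (1+7G)/k - ε/16)`, which holds for `T ≥ (δ+ε)k`, `k` large, because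
  `(δ+ε)(1 - (1+7G)/k - ε/16) k ≥ δk + εk - (ε/8)(δ+ε)k ≥ δk + (3/4) ε k` (`δ + ε ≤ 2`,
  `(1+7G)/k ≤ ε/16`) and the right side increases with `T`.
* `hqT`: `q ≤ εk ≤ T` for large `k`.
* `n1 + n2 + 1 ≤ k log(1/δ) + 1 + 2 n2 + 1 ≤ (log(1/δ) + ε) k` for large `k`.
-/

namespace RWar

private theorem ParExR_hn (k G : ℕ) (hk : (8 * G + 10) ^ 2 ≤ k) :
    (k : ℝ) * (1 - 1 / (k : ℝ)) ^ (8 * G + 10) < ((k - 7 * G - 3 : ℕ) : ℝ) := by
  have hk1 : 100 ≤ k := by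
    have h100 : 10 ^ 2 ≤ (8 * G + 10) ^ 2 := Nat.pow_le_pow_left (by omega) 2
    exact le_trans (by norm_num) (h100.trans hk)
  have hkG : 7 * G + 3 ≤ k := by nlinarith
  have hkR : (100 : ℝ) ≤ (k : ℝ) := by exact_mod_cast hk1
  have hk0 : (0 : ℝ) < (k : ℝ) := by linarith
  have hG0 : (0 : ℝ) ≤ (G : ℝ) := Nat.cast_nonneg G
  have hkR2 : (8 * (G : ℝ) + 10) ^ 2 ≤ (k : ℝ) := by exact_mod_cast hk
  obtain ⟨x, hx⟩ : ∃ x : ℝ, x = 1 / (k : ℝ) := ⟨_, rfl⟩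
  have hx0 : 0 < x := by rw [hx]; positivity
  have hx1 : x ≤ 1 := by
    rw [hx, div_le_one hk0]
    linarith
  have hkx : (k : ℝ) * x = 1 := by
    rw [hx]
    field_simp
  obtain ⟨n, hn⟩ : ∃ n : ℕ, n = 8 * G + 10 := ⟨_, rfl⟩
  have hnR : (n : ℝ) = 8 * (G : ℝ) + 10 := by rw [hn]; push_cast; ring
  have h1 : 1 + (n : ℝ) * x ≤ (1 + x) ^ n := one_add_mul_le_pow (by linarith) n
  have h2 : (1 - x) ^ n * (1 + x) ^ n ≤ 1 := by
    rw [← mul_pow]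
    apply pow_le_one₀
    · nlinarith
    · nlinarith
  have h3 : 0 ≤ (1 - x) ^ n := pow_nonneg (by linarith) n
  have h4 : (1 - x) ^ n * (1 + (n : ℝ) * x) ≤ 1 :=
    le_trans (mul_le_mul_of_nonneg_left h1 h3) h2
  have hcast : ((k - 7 * G - 3 : ℕ) : ℝ) = (k : ℝ) - 7 * (G : ℝ) - 3 := by
    have : k - 7 * G - 3 = k - (7 * G + 3) := by omega
    rw [this, Nat.cast_sub hkG]
    push_cast
    ring
  rw [hcast, ← hx, ← hn]
  -- multiply by `k + n`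
  have h5 : (1 - x) ^ n * ((k : ℝ) + n) ≤ k := by
    have : (1 - x) ^ n * ((k : ℝ) + n) = ((1 - x) ^ n * (1 + (n : ℝ) * x)) * k := by
      have : (k : ℝ) + n = (1 + (n : ℝ) * x) * k := by
        have : (1 + (n : ℝ) * x) * k = k + n * (k * x) := by ring
        rw [this, hkx]
        ring
      rw [this]
      ring
    rw [this]
    calc ((1 - x) ^ n * (1 + (n : ℝ) * x)) * k ≤ 1 * k :=
          mul_le_mul_of_nonneg_right h4 hk0.le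
      _ = k := one_mul _
  have hkn : (0 : ℝ) < (k : ℝ) + n := by positivity
  have h6 : (k : ℝ) * (1 - x) ^ n * ((k : ℝ) + n) ≤ k * k := by
    have := mul_le_mul_of_nonneg_left h5 hk0.le
    calc (k : ℝ) * (1 - x) ^ n * ((k : ℝ) + n) = k * ((1 - x) ^ n * ((k : ℝ) + n)) := by ring
      _ ≤ k * k := this
  have h7 : (k : ℝ) * k < ((k : ℝ) - 7 * (G : ℝ) - 3) * ((k : ℝ) + n) := by
    rw [hnR]
    have h8 : ((k : ℝ) - 7 * (G : ℝ) - 3) * ((k : ℝ) + (8 * (G : ℝ) + 10)) - k * k =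
        k * (G + 7) - (7 * (G : ℝ) + 3) * (8 * G + 10) := by ring
    have h9 : (7 * (G : ℝ) + 3) * (8 * G + 10) < k * (G + 7) := by
      have h10 : (8 * (G : ℝ) + 10) ^ 2 * (G + 7) ≤ k * (G + 7) :=
        mul_le_mul_of_nonneg_right hkR2 (by linarith)
      have h11 : (7 * (G : ℝ) + 3) * (8 * G + 10) < (8 * (G : ℝ) + 10) ^ 2 * (G + 7) := by
        have h12 : (7 * (G : ℝ) + 3) * (8 * G + 10) ≤ (8 * (G : ℝ) + 10) ^ 2 := by nlinarith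
        have h13 : (0 : ℝ) < (8 * (G : ℝ) + 10) ^ 2 := by positivity
        nlinarith
      linarith
    linarith
  by_contra hcon
  push Not at hcon
  have h14 := mul_le_mul_of_nonneg_right hcon hkn.le
  linarith

private theorem ParExR_exp (k n : ℕ) (δ : ℝ) (hδ : 0 < δ) (hk : 1 ≤ k)
    (hn : (k : ℝ) * Real.log (1 / δ) ≤ n) : (1 - 1 / (k : ℝ)) ^ n ≤ δ := by
  have hkR : (1 : ℝ) ≤ (k : ℝ) := by exact_mod_cast hk
  have hk0 : (0 : ℝ) < (k : ℝ) := by linarith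
  have h1 : 1 - 1 / (k : ℝ) ≤ Real.exp (-(1 / (k : ℝ))) := Real.one_sub_le_exp_neg _
  have h0 : 0 ≤ 1 - 1 / (k : ℝ) := by
    rw [sub_nonneg, div_le_one hk0]
    exact hkR
  have h2 : (1 - 1 / (k : ℝ)) ^ n ≤ Real.exp (-(1 / (k : ℝ))) ^ n := pow_le_pow_left₀ h0 h1 n
  rw [← Real.exp_nat_mul] at h2
  refine h2.trans ?_
  have h3 : (n : ℝ) * -(1 / (k : ℝ)) ≤ Real.log δ := by
    have h4 : Real.log (1 / δ) = -Real.log δ := by
      rw [one_div, Real.log_inv]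
    rw [h4] at hn
    have h5 : -Real.log δ ≤ n / k := by
      rw [le_div_iff₀ hk0]
      linarith
    have h6 : (n : ℝ) * -(1 / (k : ℝ)) = -(n / k) := by ring
    rw [h6]
    linarith
  calc Real.exp ((n : ℝ) * -(1 / (k : ℝ))) ≤ Real.exp (Real.log δ) := Real.exp_le_exp.mpr h3
    _ = δ := Real.exp_log hδ

private theorem ParExR_small {δ ε : ℝ} (hδ : 0 < δ) (hδ1 : δ ≤ 1) (hε : 0 < ε) (hε1 : ε ≤ 1) :
    ∃ k0 : ℕ, ∀ k : ℕ, k0 ≤ k → ∀ T : ℕ, (δ + ε) * k ≤ T →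
      ∃ p : ParR k T, ((p.n1 + p.n2 + 1 : ℕ) : ℝ) ≤ (Real.log (1 / δ) + ε) * k := by
  obtain ⟨q, hq⟩ : ∃ q : ℕ, q = ⌈16 / ε⌉₊ + 1 := ⟨_, rfl⟩
  have hq1 : 1 ≤ q := by omega
  have hqε : 16 / ε ≤ q := by
    rw [hq]
    push_cast
    have := Nat.le_ceil (16 / ε)
    linarith
  obtain ⟨G, hG1, hG2⟩ := Nat.exists_infinite_primes (max q ⌈16 * (q : ℝ) ^ 2 / ε⌉₊)
  have hqG : q ≤ G := le_trans (le_max_left _ _) hG1
  have hGε : 16 * (q : ℝ) ^ 2 / ε ≤ G := by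
    have h1 : ⌈16 * (q : ℝ) ^ 2 / ε⌉₊ ≤ G := le_trans (le_max_right _ _) hG1
    exact (Nat.le_ceil _).trans (by exact_mod_cast h1)
  obtain ⟨C, hC⟩ : ∃ C : ℝ, C = (q : ℝ) + q ^ 2 + 7 := ⟨_, rfl⟩
  have hq0 : (0 : ℝ) < (q : ℝ) := by exact_mod_cast hq1
  have hC0 : 0 < C := by rw [hC]; positivity
  have hG0 : (0 : ℝ) < (G : ℝ) := by exact_mod_cast hG2.pos
  refine ⟨(8 * G + 10) ^ 2 + ⌈(2 * C + 2 * (8 * G + 10) + 2) / ε⌉₊ +
    ⌈16 * (1 + 7 * (G : ℝ)) / ε⌉₊, fun k hk T hT => ?_⟩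
  have hk1 : (8 * G + 10) ^ 2 ≤ k := by omega
  have hk2 : (2 * C + 2 * (8 * G + 10) + 2) / ε ≤ k := by
    have : ⌈(2 * C + 2 * (8 * (G : ℝ) + 10) + 2) / ε⌉₊ ≤ k := by omega
    exact (Nat.le_ceil _).trans (by exact_mod_cast this)
  have hk3 : 16 * (1 + 7 * (G : ℝ)) / ε ≤ k := by
    have : ⌈16 * (1 + 7 * (G : ℝ)) / ε⌉₊ ≤ k := by omega
    exact (Nat.le_ceil _).trans (by exact_mod_cast this)
  have hk4 : 100 ≤ k := by nlinarith
  have hkR : (100 : ℝ) ≤ (k : ℝ) := by exact_mod_cast hk4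
  have hk0 : (0 : ℝ) < (k : ℝ) := by linarith
  rw [div_le_iff₀ hε] at hk2 hk3 hqε hGε
  have hkG : 7 * G + 3 ≤ k := by nlinarith
  have hL0 : 0 ≤ Real.log (1 / δ) := by
    apply Real.log_nonneg
    rw [le_div_iff₀ hδ]
    linarith
  have hT0 : (0 : ℝ) ≤ (T : ℝ) := Nat.cast_nonneg T
  have hεT : ε * k ≤ T := by
    have : ε * k ≤ (δ + ε) * k := mul_le_mul_of_nonneg_right (by linarith) hk0.le
    linarith
  have hn1 : (k : ℝ) * Real.log (1 / δ) ≤ ((⌈(k : ℝ) * Real.log (1 / δ)⌉₊ + (8 * G + 10) : ℕ) : ℝ) := by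
    push_cast
    have := Nat.le_ceil ((k : ℝ) * Real.log (1 / δ))
    linarith
  have hexp := ParExR_exp k (⌈(k : ℝ) * Real.log (1 / δ)⌉₊ + (8 * G + 10)) δ hδ (by omega) hn1
  have hqT : q ≤ T := by
    have h1 : (q : ℝ) ≤ T := by
      have : (q : ℝ) ≤ C := by rw [hC]; nlinarith
      nlinarith
    exact_mod_cast h1
  refine ⟨{
    q := q
    G := G
    n1 := ⌈(k : ℝ) * Real.log (1 / δ)⌉₊ + (8 * G + 10)
    n2 := 8 * G + 10
    u := k - 7 * G - 3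
    hk := by omega
    hq := hq1
    hqT := hqT
    hG := hG2
    hqG := hqG
    hn2 := by omega
    hn12 := by omega
    hn := ParExR_hn k G hk1
    hu := by omega
    big := ?_ }, ?_⟩
  · -- the main inequality
    have h1 : (k : ℝ) * (1 - 1 / (k : ℝ)) ^ (⌈(k : ℝ) * Real.log (1 / δ)⌉₊ + (8 * G + 10)) ≤ δ * k := by
      rw [mul_comm δ]
      exact mul_le_mul_of_nonneg_left hexp hk0.le
    have h2 : (q : ℝ) ^ 2 * ((T : ℝ) / G + 1) ≤ ε * T / 16 + q ^ 2 := by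
      have h3 : (q : ℝ) ^ 2 * ((T : ℝ) / G) ≤ ε * T / 16 := by
        rw [mul_div_assoc', div_le_iff₀ hG0]
        have h4 : 16 * (q : ℝ) ^ 2 * T ≤ G * ε * T := mul_le_mul_of_nonneg_right hGε hT0
        nlinarith
      nlinarith
    have h5 : (k : ℝ) + 1 ≤ q * (ε * k / 16 + 1) := by
      have h6 : (16 : ℝ) * k ≤ q * ε * k := mul_le_mul_of_nonneg_right hqε hk0.le
      have h7 : (1 : ℝ) ≤ q := by exact_mod_cast hq1
      nlinarith
    have h8 : (1 + 7 * (G : ℝ)) / k ≤ ε / 16 := by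
      rw [div_le_iff₀ hk0]
      nlinarith
    have h9 : (T : ℝ) * (1 - ε / 16) ≤ T * (1 - (1 + 7 * (G : ℝ)) / k) :=
      mul_le_mul_of_nonneg_left (by linarith) hT0
    have h10 : δ * k + 3 / 4 * (ε * k) ≤ T * (1 - ε / 8) := by
      have h11 : (δ + ε) * k * (1 - ε / 8) ≤ T * (1 - ε / 8) :=
        mul_le_mul_of_nonneg_right hT (by linarith)
      have h12 : δ * k + 3 / 4 * (ε * k) ≤ (δ + ε) * k * (1 - ε / 8) := by
        have h13 : (δ + ε) * k * (1 - ε / 8) - (δ * k + 3 / 4 * (ε * k)) =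
            (ε * k) * (1 / 4 - (δ + ε) / 8) := by ring
        have h14 : 0 ≤ (ε * k) * (1 / 4 - (δ + ε) / 8) :=
          mul_nonneg (by positivity) (by linarith)
        linarith
      linarith
    have h15 : C ≤ 1 / 2 * (ε * k) := by nlinarith
    have h16 : δ * k + q + (ε * T / 16 + q ^ 2) + 6 + (ε * k / 16 + 1) ≤ T * (1 - ε / 16) := by
      have h17 : T * (1 - ε / 16) = T * (1 - ε / 8) + ε * T / 16 := by ring
      have h18 : 0 < ε * k := by positivity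
      rw [hC] at h15
      rw [h17]
      linarith
    calc (q : ℝ) * ((k : ℝ) * (1 - 1 / (k : ℝ)) ^ (⌈(k : ℝ) * Real.log (1 / δ)⌉₊ + (8 * G + 10)) + q +
          q ^ 2 * ((T : ℝ) / G + 1) + 6) + (k + 1)
        ≤ q * (δ * k + q + (ε * T / 16 + q ^ 2) + 6) + q * (ε * k / 16 + 1) := by
          refine add_le_add ?_ h5
          refine mul_le_mul_of_nonneg_left ?_ hq0.le
          linarith
      _ = q * (δ * k + q + (ε * T / 16 + q ^ 2) + 6 + (ε * k / 16 + 1)) := by ring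
      _ ≤ q * (T * (1 - (1 + 7 * (G : ℝ)) / k)) :=
          mul_le_mul_of_nonneg_left (h16.trans h9) hq0.le
  · show ((⌈(k : ℝ) * Real.log (1 / δ)⌉₊ + (8 * G + 10) + (8 * G + 10) + 1 : ℕ) : ℝ) ≤ _
    push_cast
    have h1 := Nat.ceil_lt_add_one (a := (k : ℝ) * Real.log (1 / δ)) (by positivity)
    have h2 : (Real.log (1 / δ) + ε) * k = k * Real.log (1 / δ) + k * ε := by ring
    rw [h2]
    linarith

theorem par_exR {δ ε : ℝ} (hδ : 0 < δ) (hδ1 : δ ≤ 1) (hε : 0 < ε) :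
    ∃ k0 : ℕ, ∀ k : ℕ, k0 ≤ k → ∀ T : ℕ, (δ + ε) * k ≤ T →
      ∃ p : ParR k T, ((p.n1 + p.n2 + 1 : ℕ) : ℝ) ≤ (Real.log (1 / δ) + ε) * k := by
  rcases le_total ε 1 with h | h
  · exact ParExR_small hδ hδ1 hε h
  · obtain ⟨k0, hk0⟩ := ParExR_small hδ hδ1 one_pos le_rfl
    refine ⟨k0, fun k hk T hT => ?_⟩
    have hkk : (0 : ℝ) ≤ (k : ℝ) := Nat.cast_nonneg k
    obtain ⟨p, hp⟩ := hk0 k hk T
      (le_trans (mul_le_mul_of_nonneg_right (by linarith) hkk) hT)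
    exact ⟨p, hp.trans (mul_le_mul_of_nonneg_right (by linarith) hkk)⟩

end RWar
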